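import Mathlib

set_option autoImplicit false

namespace Pool.Agent.Helper416.AR

/-! ### well-orders: limits, ladders, closing off -/

section order

variable {A : Type} [LinearOrder A]

/-- `a` is a limit of elements of `S` below it -/
def Lim (S : Set A) (a : A) : Prop :=
  (∃ x ∈ S, x < a) ∧ ∀ b < a, ∃ x ∈ S, b < x ∧ x < a

/-- `g` is a strictly increasing sequence cofinal in `d` -/
def IsLad (g : ℕ → A) (d : A) : Prop :=
  StrictMono g ∧ (∀ n, g n < d) ∧ ∀ e < d, ∃ n, e < g n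

/-- unbounded sets -/
def Unb (S : Set A) : Prop := ∀ a, ∃ x ∈ S, a < x

/-- closed unbounded sets -/
def Club (E : Set A) : Prop := Unb E ∧ ∀ a, Lim E a → a ∈ E

theorem exists_sup [WellFoundedLT A] (hN : ∀ f : ℕ → A, ∃ b, ∀ n, f n < b) (f : ℕ → A)
    (hf : StrictMono f) : ∃ b, IsLad f b := by
  classical
  obtain ⟨b, hb⟩ := hN f
  have hne : {b : A | ∀ n, f n < b}.Nonempty := ⟨b, hb⟩
  refine ⟨wellFounded_lt.min _ hne, hf, wellFounded_lt.min_mem _ hne, ?_⟩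
  intro e he
  by_contra hcon
  push Not at hcon
  have h2 : e ∈ {b : A | ∀ n, f n < b} := by
    intro n
    exact lt_of_lt_of_le (hf (Nat.lt_succ_self n)) (hcon (n + 1))
  exact wellFounded_lt.not_lt_min {b : A | ∀ n, f n < b} h2 he

theorem closing [WellFoundedLT A] {I : Type} (hI : ∀ f : I → A, ∃ b, ∀ i, f i < b)
    (hN : ∀ f : ℕ → A, ∃ b, ∀ n, f n < b) (S : I → Set A) (hS : ∀ i, Unb (S i)) (a : A) :
    ∃ b, a < b ∧ (∃ g, IsLad g b) ∧ ∀ i, Lim (S i) b := by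
  choose x hx hx' using hS
  choose nb hnb using fun a => hI (fun i => x i a)
  choose sc hsc using fun a : A => hN (fun _ => a)
  set nxt : A → A := fun a => max (nb a) (sc a) with hnxt
  set s : ℕ → A := fun n => nxt^[n] a with hs
  have hs1 : ∀ n, s (n + 1) = nxt (s n) := by
    intro n
    simp only [hs, Function.iterate_succ_apply']
  have hmono : StrictMono s := by
    apply strictMono_nat_of_lt_succ
    intro n
    rw [hs1]
    exact lt_of_lt_of_le (hsc (s n) 0) (le_max_right _ _)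
  obtain ⟨b, hb⟩ := exists_sup hN s hmono
  refine ⟨b, hb.2.1 0, ⟨s, hb⟩, ?_⟩
  intro i
  have key : ∀ n, ∃ y ∈ S i, s n < y ∧ y < b := by
    intro n
    refine ⟨x i (s n), hx i (s n), hx' i (s n), ?_⟩
    refine lt_trans (lt_of_lt_of_le (hnb (s n) i) ?_) (hb.2.1 (n + 1))
    rw [hs1]
    exact le_max_left _ _
  constructor
  · obtain ⟨y, hy, _, hy2⟩ := key 0
    exact ⟨y, hy, hy2⟩
  · intro c hc
    obtain ⟨n, hn⟩ := hb.2.2 c hc
    obtain ⟨y, hy, hy1, hy2⟩ := key n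
    exact ⟨y, hy, hn.trans hy1, hy2⟩

theorem Lim.mono {S T : Set A} (h : S ⊆ T) {a : A} (ha : Lim S a) : Lim T a := by
  obtain ⟨⟨x, hx, hxa⟩, h2⟩ := ha
  refine ⟨⟨x, h hx, hxa⟩, fun b hb => ?_⟩
  obtain ⟨y, hy, h3, h4⟩ := h2 b hb
  exact ⟨y, h hy, h3, h4⟩

theorem club_inter [WellFoundedLT A] {J : Type} (hJ : ∀ f : J → A, ∃ b, ∀ i, f i < b)
    (hN : ∀ f : ℕ → A, ∃ b, ∀ n, f n < b) (E : J → Set A) (hE : ∀ j, Club (E j)) :
    Club {x | ∀ j, x ∈ E j} := by
  constructor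
  · intro a
    obtain ⟨b, hab, -, hb⟩ := closing hJ hN E (fun j => (hE j).1) a
    exact ⟨b, fun j => (hE j).2 b (hb j), hab⟩
  · intro a ha j
    exact (hE j).2 a (ha.mono fun x (hx : ∀ j, x ∈ E j) => hx j)

theorem club_univ (hN : ∀ f : ℕ → A, ∃ b, ∀ n, f n < b) : Club (Set.univ : Set A) := by
  refine ⟨fun a => ?_, fun a _ => trivial⟩
  obtain ⟨b, hb⟩ := hN (fun _ => a)
  exact ⟨b, trivial, hb 0⟩

/-- common limits of unbounded sets form a club -/
theorem club_lim [WellFoundedLT A] {J : Type} (hJ : ∀ f : J → A, ∃ b, ∀ i, f i < b)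
    (hN : ∀ f : ℕ → A, ∃ b, ∀ n, f n < b) (S : J → Set A) (hS : ∀ j, Unb (S j)) :
    Club {x | ∀ j, Lim (S j) x} := by
  constructor
  · intro a
    obtain ⟨b, hab, -, hb⟩ := closing hJ hN S hS a
    exact ⟨b, hb, hab⟩
  · intro a ha j
    obtain ⟨⟨x, hx, hxa⟩, h2⟩ := ha
    refine ⟨?_, ?_⟩
    · obtain ⟨y, hy, hyx⟩ := (hx j).1
      exact ⟨y, hy, hyx.trans hxa⟩
    · intro b hb
      obtain ⟨x', hx', hbx, hxa'⟩ := h2 b hb
      obtain ⟨y, hy, h3, h4⟩ := (hx' j).2 b hbx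
      exact ⟨y, hy, h3, h4.trans hxa'⟩

/-- a bistationary set -/
theorem bistat [WellFoundedLT A] [Nonempty A] (hN : ∀ f : ℕ → A, ∃ b, ∀ n, f n < b)
    (b : A → ℕ → Bool) (hb : Function.Injective b) :
    ∃ S : Set A,
      (∀ R : ℕ → Set A, (∀ m, Unb (R m)) → ∃ s ∈ S, (∃ g, IsLad g s) ∧ ∀ m, Lim (R m) s) ∧
      (∀ R : ℕ → Set A, (∀ m, Unb (R m)) → ∃ s, s ∉ S ∧ (∃ g, IsLad g s) ∧
        ∀ m, Lim (R m) s) := by
  by_contra hcon
  have h1 : ∀ n : ℕ, ∃ R : ℕ → Set A, (∀ m, Unb (R m)) ∧ ∃ v : Bool, ∀ s, (∃ g, IsLad g s) →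
      (∀ m, Lim (R m) s) → b s n = v := by
    intro n
    by_contra hn
    apply hcon
    refine ⟨{s | b s n = true}, ?_, ?_⟩
    · intro R hR
      by_contra h3
      push Not at h3
      apply hn
      refine ⟨R, hR, false, fun s hg hs => ?_⟩
      by_contra h4
      have h5 : b s n = true := by simpa using h4
      obtain ⟨m, hm⟩ := h3 s h5 hg
      exact hm (hs m)
    · intro R hR
      by_contra h3
      push Not at h3
      apply hn
      refine ⟨R, hR, true, fun s hg hs => ?_⟩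
      by_contra h4
      obtain ⟨m, hm⟩ := h3 s h4 hg
      exact hm (hs m)
  choose R hR v hv using h1
  have hI : ∀ f : ℕ × ℕ → A, ∃ b, ∀ i, f i < b := by
    intro f
    obtain ⟨b, hb⟩ := hN (fun n => f (Nat.unpair n))
    refine ⟨b, fun i => ?_⟩
    have := hb (Nat.pair i.1 i.2)
    rwa [Nat.unpair_pair] at this
  obtain ⟨a⟩ := (inferInstance : Nonempty A)
  obtain ⟨s1, -, hg1, hs1⟩ := closing hI hN (fun i => R i.1 i.2) (fun i => hR i.1 i.2) a
  obtain ⟨s2, h12, hg2, hs2⟩ := closing hI hN (fun i => R i.1 i.2) (fun i => hR i.1 i.2) s1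
  have e1 : ∀ n, b s1 n = v n := fun n => hv n s1 hg1 fun m => hs1 (n, m)
  have e2 : ∀ n, b s2 n = v n := fun n => hv n s2 hg2 fun m => hs2 (n, m)
  have : s1 = s2 := hb (funext fun n => (e1 n).trans (e2 n).symm)
  exact absurd this h12.ne

/-- sequences with no bound give ladders -/
theorem lad_of_cof {f : ℕ → A} {d : A} (h1 : ∀ n, f n < d) (h2 : ∀ b < d, ∃ n, b < f n) :
    ∃ g, IsLad g d := by
  choose! p hp using h2
  set s : ℕ → A := fun n => Nat.rec (f 0) (fun n y => f (p (max y (f n)))) n with hs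
  have hs1 : ∀ n, s (n + 1) = f (p (max (s n) (f n))) := fun n => rfl
  have hlt : ∀ n, s n < d := by
    intro n
    cases n with
    | zero => exact h1 0
    | succ n => rw [hs1]; exact h1 _
  have hst : ∀ n, max (s n) (f n) < s (n + 1) := by
    intro n
    rw [hs1]
    exact hp _ (max_lt (hlt n) (h1 n))
  refine ⟨s, strictMono_nat_of_lt_succ fun n => (le_max_left _ _).trans_lt (hst n), hlt, ?_⟩
  intro e he
  refine ⟨p e + 1, (hp e he).trans ((le_max_right _ _).trans_lt (hst _))⟩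

/-- cofinal subsets contain ladders -/
theorem lad_in {c : ℕ → A} {d : A} (hc : IsLad c d) (T : Set A) (hT : ∀ a ∈ T, a < d)
    (hcof : ∀ e < d, ∃ a ∈ T, e < a) : ∃ g, IsLad g d ∧ ∀ n, g n ∈ T := by
  classical
  choose! p hp hp' using hcof
  set s : ℕ → A := fun n => Nat.rec (p (c 0)) (fun n y => p (max y (c (n + 1)))) n with hs
  have hs0 : s 0 = p (c 0) := rfl
  have hs1 : ∀ n, s (n + 1) = p (max (s n) (c (n + 1))) := fun n => rfl
  have hmem : ∀ n, s n ∈ T := by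
    intro n
    induction n with
    | zero => rw [hs0]; exact hp _ (hc.2.1 0)
    | succ n ih => rw [hs1]; exact hp _ (max_lt (hT _ ih) (hc.2.1 _))
  refine ⟨s, ⟨strictMono_nat_of_lt_succ fun n => ?_, fun n => hT _ (hmem n), fun e he => ?_⟩, hmem⟩
  · rw [hs1]
    exact lt_of_le_of_lt (le_max_left _ _) (hp' _ (max_lt (hT _ (hmem n)) (hc.2.1 _)))
  · obtain ⟨n, hn⟩ := hc.2.2 e he
    refine ⟨n + 1, hn.trans ?_⟩
    rw [hs1]
    refine lt_trans (hc.1 (Nat.lt_succ_self n)) ?_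
    exact lt_of_le_of_lt (le_max_right _ _) (hp' _ (max_lt (hT _ (hmem n)) (hc.2.1 _)))

/-- the largest element of `E` that is at most `x` -/
def Top (E : Set A) (x e : A) : Prop := e ∈ E ∧ e ≤ x ∧ ∀ e' ∈ E, e' ≤ x → e' ≤ e

theorem exists_top [WellFoundedLT A] {E : Set A} (hE : ∀ a, Lim E a → a ∈ E) (x : A)
    (hx : ∃ e ∈ E, e ≤ x) : ∃ e, Top E x e := by
  have hne : {y : A | ∀ e ∈ E, e ≤ x → e ≤ y}.Nonempty := ⟨x, fun e _ h => h⟩
  set y := wellFounded_lt.min _ hne with hy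
  have hy1 : ∀ e ∈ E, e ≤ x → e ≤ y := wellFounded_lt.min_mem _ hne
  have hy2 : y ≤ x := by
    by_contra hcon
    push Not at hcon
    exact wellFounded_lt.not_lt_min {y : A | ∀ e ∈ E, e ≤ x → e ≤ y}
      (show x ∈ {y : A | ∀ e ∈ E, e ≤ x → e ≤ y} from fun e _ h => h) hcon
  by_cases hyE : y ∈ E
  · exact ⟨y, hyE, hy2, hy1⟩
  exfalso
  apply hyE
  apply hE
  have key : ∀ b < y, ∃ e ∈ E, b < e ∧ e < y := by
    intro b hb
    have h3 : b ∉ {y : A | ∀ e ∈ E, e ≤ x → e ≤ y} :=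
      fun h => wellFounded_lt.not_lt_min {y : A | ∀ e ∈ E, e ≤ x → e ≤ y} h hb
    rw [Set.mem_ofPred_eq] at h3
    push Not at h3
    obtain ⟨e, he, hex, hbe⟩ := h3
    refine ⟨e, he, hbe, lt_of_le_of_ne (hy1 e he hex) ?_⟩
    rintro rfl
    exact hyE he
  refine ⟨?_, key⟩
  obtain ⟨e, he, hex⟩ := hx
  exact ⟨e, he, lt_of_le_of_ne (hy1 e he hex) (fun h => hyE (h ▸ he))⟩

end order

end Pool.Agent.Helper416.AR
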