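import Pool.Agent.Helper416.AR9

set_option autoImplicit false

namespace Pool.Agent.Helper416.AR

open Topology Filter

/-! ### scattered, and not bisequential -/

/-- every nonempty subset has a relatively isolated point -/
def ScatteredSpace (X : Type) [TopologicalSpace X] : Prop :=
  ∀ A : Set X, A.Nonempty → ∃ x ∈ A, ∃ U : Set X, IsOpen U ∧ U ∩ A = {x}

/-- every ultrafilter converging to a point contains a decreasing sequence converging to it -/
def Bisequential (X : Type) [TopologicalSpace X] : Prop :=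
  ∀ (x : X) (F : Ultrafilter X), (F : Filter X) ≤ 𝓝 x →
    ∃ A : ℕ → Set X, Antitone A ∧ (∀ n, A n ∈ F) ∧ ∀ U ∈ 𝓝 x, ∃ n, A n ⊆ U

variable {K W : Type} [LinearOrder K] [LinearOrder W] {D : Dat K W}

theorem Dat.OK.hK (hD : D.OK) : ∀ a : K, ∃ b, a < b := fun a => by
  obtain ⟨b, hb⟩ := hD.hN (fun _ => a)
  exact ⟨b, hb 0⟩

theorem large_iInter [WellFoundedLT K] (hD : D.OK) (T : ℕ → Set (Sp D))
    (hTc : ∀ m, IsClosed (T m)) (hT : ∀ m, Large (T m)) : Large (⋂ m, T m) := by
  by_contra hL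
  have := hD.neK
  obtain ⟨F, h1, h2, h3⟩ := not_large hD.hK hD.hW hD.hWK _ hL
  obtain ⟨z, hz⟩ := large_inter hD.hN hD.hWK hD.guess hD.S1 hD.hg
    (fun m => Nat.casesOn m F fun m => T m)
    (fun m => by cases m with
      | zero => exact h1
      | succ m => exact hTc m)
    (fun m => by cases m with
      | zero => exact h2
      | succ m => exact hT m)
  exact h3 z (Set.mem_iInter.2 fun m => hz (m + 1)) (hz 0)

theorem Large.mono {S T : Set (Sp D)} (h : S ⊆ T) (hS : Large S) : Large T := by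
  intro a
  obtain ⟨b, hb, hab⟩ := hS a
  refine ⟨b, ?_, hab⟩
  intro k
  obtain ⟨k', ⟨z, hz, hz1, hz2⟩, hk⟩ := hb k
  exact ⟨k', ⟨z, h hz, hz1, hz2⟩, hk⟩

/-- the filter generated by the large closed sets -/
def largeFilter [WellFoundedLT K] (hD : D.OK) : Filter (Sp D) where
  sets := {A | ∃ T, IsClosed T ∧ Large T ∧ T ⊆ A}
  univ_sets := ⟨Set.univ, isClosed_univ, by
    obtain ⟨s, -, -⟩ := hD.S1 (fun _ => Set.univ) (fun _ a => by
      obtain ⟨b, hb⟩ := hD.hW a
      exact ⟨b, trivial, hb⟩)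
    exact (large_tail hD.hK hD.hW s hD.neK.some).mono (Set.subset_univ _), subset_rfl⟩
  sets_of_superset := by
    rintro A B ⟨T, h1, h2, h3⟩ hAB
    exact ⟨T, h1, h2, h3.trans hAB⟩
  inter_sets := by
    rintro A B ⟨T, h1, h2, h3⟩ ⟨T', h1', h2', h3'⟩
    refine ⟨⋂ m : ℕ, (if m = 0 then T else T'), isClosed_iInter fun m => ?_,
      large_iInter hD _ (fun m => ?_) (fun m => ?_), ?_⟩
    · split_ifs <;> assumption
    · split_ifs <;> assumption
    · split_ifs <;> assumption
    · intro z hz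
      rw [Set.mem_iInter] at hz
      exact ⟨h3 (by simpa using hz 0), h3' (by simpa using hz 1)⟩

theorem Large.nonempty [Nonempty W] [Nonempty K] {T : Set (Sp D)} (h : Large T) : T.Nonempty := by
  obtain ⟨a, ha, -⟩ := h (Classical.arbitrary W)
  obtain ⟨k, ⟨z, hz, -⟩, -⟩ := ha (Classical.arbitrary K)
  exact ⟨z, hz⟩

theorem Dat.OK.neW (hD : D.OK) : Nonempty W := by
  obtain ⟨s, -, -⟩ := hD.S1 (fun _ => Set.univ) (fun _ a => by
    obtain ⟨b, hb⟩ := hD.hW a
    exact ⟨b, trivial, hb⟩)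
  exact ⟨s⟩

theorem compact_lv [WellFoundedLT K] (hD : D.OK) {C : Set (Sp D)} (hC : IsCompact C) :
    ∃ b : K, ∀ w ∈ C, lv w ≤ b := by
  have := hD.neK
  obtain ⟨t, ht⟩ := hC.elim_directed_cover (fun b : K => {w : Sp D | lv w ≤ b})
    (fun b => open_l_le b) (fun w _ => Set.mem_iUnion.2 ⟨lv w, le_refl _⟩)
    (fun a b => ⟨max a b, fun w hw => le_trans hw (le_max_left a b),
      fun w hw => le_trans hw (le_max_right a b)⟩)
  exact ⟨t, fun w hw => ht hw⟩

theorem not_bisequential [WellFoundedLT K] (hD : D.OK) : ¬ Bisequential (OnePoint (Sp D)) := by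
  classical
  intro hB
  have := hD.neK
  have := hD.neW
  have hemb : IsOpenEmbedding (fun z : Sp D => (z : OnePoint (Sp D))) :=
    OnePoint.isOpenEmbedding_coe
  have hne : (largeFilter hD).NeBot := by
    refine ⟨fun h => ?_⟩
    have h1 : (∅ : Set (Sp D)) ∈ largeFilter hD := by rw [h]; exact Filter.mem_bot
    obtain ⟨T, -, h2, h3⟩ := h1
    obtain ⟨z, hz⟩ := h2.nonempty
    exact h3 hz
  set 𝒰 : Ultrafilter (Sp D) := Ultrafilter.of (largeFilter hD) with h𝒰
  have hU : (𝒰 : Filter (Sp D)) ≤ largeFilter hD := Ultrafilter.of_le _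
  obtain ⟨A, -, hA, hconv⟩ := hB OnePoint.infty (𝒰.map fun z : Sp D => (z : OnePoint (Sp D))) (by
    intro O hO
    obtain ⟨C, ⟨hCc, hCk⟩, hCO⟩ := OnePoint.hasBasis_nhds_infty.mem_iff.1 hO
    obtain ⟨b, hb⟩ := compact_lv hD hCk
    apply hU
    refine ⟨_, closed_tail (Classical.arbitrary W) b, large_tail hD.hK hD.hW _ _, ?_⟩
    rintro w ⟨-, hw⟩
    apply hCO
    left
    refine ⟨w, ?_, rfl⟩
    intro hwC
    exact absurd (hb w hwC) (not_le.2 hw))
  -- closures are large
  have hL : ∀ n, Large (closure ((fun z : Sp D => (z : OnePoint (Sp D))) ⁻¹' A n)) := by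
    intro n
    by_contra hL
    obtain ⟨F, h1, h2, h3⟩ := not_large hD.hK hD.hW hD.hWK _ hL
    have h4 : F ∈ (𝒰 : Filter (Sp D)) := hU ⟨F, h1, h2, subset_rfl⟩
    have h5 : (fun z : Sp D => (z : OnePoint (Sp D))) ⁻¹' A n ∈ (𝒰 : Filter (Sp D)) := hA n
    obtain ⟨z, hz1, hz2⟩ := Filter.nonempty_of_mem (Filter.inter_mem h4 h5)
    exact h3 z (subset_closure hz2) hz1
  obtain ⟨z, hz⟩ := large_inter hD.hN hD.hWK hD.guess hD.S1 hD.hg _
    (fun n => isClosed_closure) hL
  have h6 : ((fun z : Sp D => (z : OnePoint (Sp D))) '' Nb z)ᶜ ∈ 𝓝 (OnePoint.infty) := by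
    apply IsOpen.mem_nhds
    · exact ((compact_N z).image hemb.continuous).isClosed.isOpen_compl
    · rintro ⟨w, -, hw⟩
      exact OnePoint.coe_ne_infty w hw
  obtain ⟨n, hn⟩ := hconv _ h6
  have h7 := hz n
  rw [mem_closure_iff] at h7
  obtain ⟨w, hw1, hw2⟩ := h7 (Nb z) (open_N z) (mem_N z)
  exact hn hw2 ⟨w, hw1, rfl⟩

theorem scattered [WellFoundedLT K] : ScatteredSpace (OnePoint (Sp D)) := by
  classical
  intro A hA
  have hemb : IsOpenEmbedding (fun z : Sp D => (z : OnePoint (Sp D))) :=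
    OnePoint.isOpenEmbedding_coe
  by_cases h : ∃ z : Sp D, (z : OnePoint (Sp D)) ∈ A
  · have hne : (lv '' {z : Sp D | (z : OnePoint (Sp D)) ∈ A}).Nonempty := by
      obtain ⟨z, hz⟩ := h
      exact ⟨lv z, z, hz, rfl⟩
    obtain ⟨z, hz, hzl⟩ := wellFounded_lt.min_mem _ hne
    refine ⟨z, hz, (fun z : Sp D => (z : OnePoint (Sp D))) '' Nb z,
      hemb.isOpenMap _ (open_N z), ?_⟩
    ext x
    constructor
    · rintro ⟨⟨w, hw, rfl⟩, hwA⟩
      rcases mem_le hw with rfl | h2
      · rfl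
      · exfalso
        have h3 := h2.1
        rw [hzl] at h3
        exact wellFounded_lt.not_lt_min (lv '' {z : Sp D | (z : OnePoint (Sp D)) ∈ A})
          ⟨w, hwA, rfl⟩ h3
    · rintro rfl
      exact ⟨⟨z, mem_N z, rfl⟩, hz⟩
  · push Not at h
    have hA' : A = {OnePoint.infty} := by
      obtain ⟨x, hx⟩ := hA
      have key : ∀ y ∈ A, y = OnePoint.infty := by
        intro y hy
        induction y using OnePoint.rec with
        | infty => rfl
        | coe z => exact absurd hy (h z)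
      ext y
      constructor
      · intro hy
        exact key y hy
      · intro hy
        rw [Set.mem_singleton_iff] at hy
        rw [hy, ← key x hx]
        exact hx
    refine ⟨OnePoint.infty, by rw [hA']; rfl, Set.univ, isOpen_univ, ?_⟩
    rw [Set.univ_inter, hA']

end Pool.Agent.Helper416.AR
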