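import Pool.Agent.Helper416.AR6

set_option autoImplicit false

namespace Pool.Agent.Helper416.AR

/-! ### property wD of the locally compact space -/

variable {K W : Type} [LinearOrder K] [LinearOrder W] {D : Dat K W}

/-- `E0` has no accumulation points -/
def LocFin (E : Set (Sp D)) : Prop :=
  ∀ y : Sp D, ∃ O : Set (Sp D), IsOpen O ∧ y ∈ O ∧ ∀ w ∈ O, w ∈ E → w = y

/-- expansion of an infinite subset to a discrete family of open sets -/
def Expands (E : Set (Sp D)) : Prop :=
  ∃ (I : Type) (e : I → Sp D) (U : I → Set (Sp D)), Infinite I ∧ Function.Injective e ∧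
    (∀ i, e i ∈ E) ∧ (∀ i, IsOpen (U i) ∧ e i ∈ U i) ∧
    ∀ y : Sp D, ∃ O : Set (Sp D), IsOpen O ∧ y ∈ O ∧
      ∀ i j, (U i ∩ O).Nonempty → (U j ∩ O).Nonempty → i = j

theorem Expands.mono {E E' : Set (Sp D)} (h : E' ⊆ E) (hE : Expands E') : Expands E := by
  obtain ⟨I, e, U, h1, h2, h3, h4⟩ := hE
  exact ⟨I, e, U, h1, h2, fun i => h (h3 i), h4⟩

/-- expansion along the intervals of a ladder -/
theorem expands_Wn {E : Set (Sp D)} {d : K} (hd : IsLad (D.L d) d) (N : Set ℕ) (hN : N.Infinite)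
    (V : ℕ → Set (Sp D)) (hV : ∀ n ∈ N, IsOpen (V n)) (hVW : ∀ n ∈ N, V n ⊆ Wn (D.L d) n)
    (hE : ∀ n ∈ N, ∃ w ∈ E, w ∈ V n)
    (hloc : ∀ y : Sp D, lv y = d → ∃ O : Set (Sp D), IsOpen O ∧ y ∈ O ∧ ∀ n ∈ N, ∀ w ∈ O,
      w ∉ V n) : Expands E := by
  classical
  have : Nonempty (Sp D) := by
    obtain ⟨n, hn⟩ := hN.nonempty
    obtain ⟨w, -⟩ := hE n hn
    exact ⟨w⟩
  choose! e he1 he2 using hE
  refine ⟨N, fun n => e n, fun n => V n, hN.to_subtype, ?_, fun n => he1 n n.2,
    fun n => ⟨hV n n.2, he2 n n.2⟩, ?_⟩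
  · intro n m h
    have h1 := hVW n n.2 (he2 n n.2)
    have h2 := hVW m m.2 (he2 m m.2)
    have h3 : e (n : ℕ) = e (m : ℕ) := h
    rw [h3] at h1
    exact Subtype.ext (lad_idx hd.1 h1.1 h1.2 h2.1 h2.2)
  · intro y
    rcases lt_trichotomy (lv y) d with h | h | h
    · rcases lad_cases hd h with h0 | ⟨m, hm⟩
      · refine ⟨{w | lv w ≤ D.L d 0}, open_l_le _, h0, ?_⟩
        rintro i j ⟨w, hw1, hw2⟩
        have h1 := (hVW i i.2 hw1).1
        exact absurd (h1.trans_le hw2) (not_lt.2 (hd.1.monotone (Nat.zero_le _)))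
      · refine ⟨Wn (D.L d) m, (clopen_Wn _ _).isOpen, hm, ?_⟩
        have key : ∀ i : N, (V i ∩ Wn (D.L d) m).Nonempty → (i : ℕ) = m := by
          rintro i ⟨w, hw1, hw2⟩
          have h1 := hVW i i.2 hw1
          exact lad_idx hd.1 h1.1 h1.2 hw2.1 hw2.2
        intro i j hi hj
        exact Subtype.ext ((key i hi).trans (key j hj).symm)
    · obtain ⟨O, hO, hyO, h2⟩ := hloc y h
      refine ⟨O, hO, hyO, ?_⟩
      rintro i j ⟨w, hw1, hw2⟩
      exact absurd hw1 (h2 i i.2 w hw2)
    · refine ⟨{w | d < lv w}, open_l_gt _, h, ?_⟩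
      rintro i j ⟨w, hw1, hw2⟩
      have h1 := (hVW i i.2 hw1).2
      exact absurd (lt_of_lt_of_le (show d < lv w from hw2) h1) (not_lt.2 (hd.2.1 _).le)

theorem U_Wn {z w : Sp D} {m : ℕ} (h : w ∈ Ub z m) (hz : Good z) {n : ℕ}
    (hw : w ∈ (Wn (D.L (lv z)) n : Set (Sp D))) : ∃ j ≥ m, n = cd (bc z) j := by
  rcases h with rfl | ⟨j, hj, hwj⟩
  · exact absurd hw.2 (not_le.2 (hz.lad.2.1 _))
  · exact ⟨j, hj, (lad_idx hz.lad.1 hwj.2.1 (B_hi hz hwj) hw.1 hw.2).symm⟩

/-- the case where a level contains infinitely many points -/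
theorem expands_level {E : Set (Sp D)} (hloc : LocFin E) {d : K}
    (hinf : {z | z ∈ E ∧ lv z = d}.Infinite) : Expands E := by
  classical
  by_cases hbad : {z | z ∈ E ∧ lv z = d ∧ ¬ Good z}.Infinite
  · refine ⟨{z | z ∈ E ∧ lv z = d ∧ ¬ Good z}, fun z => z, fun z => {(z : Sp D)},
      hbad.to_subtype, Subtype.val_injective, fun z => z.2.1,
      fun z => ⟨open_single z.2.2.2, rfl⟩, ?_⟩
    intro y
    obtain ⟨O, hO, hyO, h⟩ := hloc y
    refine ⟨O, hO, hyO, ?_⟩
    rintro i j ⟨w, hw1, hw2⟩ ⟨v, hv1, hv2⟩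
    rw [Set.mem_singleton_iff] at hw1 hv1
    subst hw1 hv1
    exact Subtype.ext ((h _ hw2 i.2.1).trans (h _ hv2 j.2.1).symm)
  -- infinitely many good points
  have hgood : {z | z ∈ E ∧ lv z = d ∧ Good z}.Infinite := by
    intro hfin
    apply hinf
    refine (hfin.union (Set.not_infinite.1 hbad)).subset ?_
    rintro z ⟨h1, h2⟩
    by_cases hz : Good z
    · exact Or.inl ⟨h1, h2, hz⟩
    · exact Or.inr ⟨h1, h2, hz⟩
  set G : Set (Sp D) := {z | z ∈ E ∧ lv z = d ∧ Good z} with hG
  have hinj : Set.InjOn bc G := by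
    intro z hz w hw h
    exact good_unique hz.2.2 hw.2.2 (hz.2.1.trans hw.2.1.symm) h
  have hC : (bc '' G).Infinite := hgood.image hinj
  -- an accumulation point of the branches
  obtain ⟨c, hc⟩ : ∃ c : ℕ → Bool, ∀ k, ∃ c' ∈ bc '' G, c' ≠ c ∧ ∀ i < k, c' i = c i := by
    obtain ⟨c, -, hc⟩ := hC.exists_accPt_of_subset_isCompact (isCompact_univ) (Set.subset_univ _)
    refine ⟨c, fun k => ?_⟩
    rw [accPt_iff_nhds] at hc
    obtain ⟨c', ⟨h1, h2⟩, h3⟩ := hc {c' | ∀ i < k, c' i = c i} (by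
      apply IsOpen.mem_nhds
      · have : {c' : ℕ → Bool | ∀ i < k, c' i = c i} =
            ⋂ i ∈ Set.Iio k, {c' : ℕ → Bool | c' i = c i} := by
          ext c'; simp
        rw [this]
        refine (Set.finite_Iio k).isOpen_biInter fun i _ => ?_
        have h5 : IsOpen ((fun c' : ℕ → Bool => c' i) ⁻¹' {b : Bool | b = c i}) :=
          (isOpen_discrete {b : Bool | b = c i}).preimage (continuous_apply i)
        exact h5
      · intro i _; rfl)
    exact ⟨c', h2, h3, h1⟩
  -- splitting level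
  have hsplit : ∀ k, ∃ z ∈ G, ∃ m, k ≤ m ∧ bc z m ≠ c m ∧ ∀ i < m, bc z i = c i := by
    intro k
    obtain ⟨_, ⟨z, hz, rfl⟩, hne, hag⟩ := hc k
    have hex : ∃ m, bc z m ≠ c m := Function.ne_iff.1 hne
    refine ⟨z, hz, Nat.find hex, ?_, Nat.find_spec hex, fun i hi => ?_⟩
    · by_contra hlt
      push Not at hlt
      exact Nat.find_spec hex (hag _ hlt)
    · have := Nat.find_min hex hi
      push Not at this
      exact this
  choose zz hzz mm hmm1 hmm2 hmm3 using hsplit
  -- recursive choice with increasing splitting levels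
  set kk : ℕ → ℕ := fun n => Nat.rec 0 (fun _ k => mm k + 1) n with hkk
  have hkk1 : ∀ n, kk (n + 1) = mm (kk n) + 1 := fun n => rfl
  have hmono : StrictMono fun n => mm (kk n) := strictMono_nat_of_lt_succ fun n => by
    have := hmm1 (kk (n + 1))
    rw [hkk1 n] at this
    rw [hkk1 n]
    omega
  have hd : IsLad (D.L d) d := by
    have h1 := (hzz 0).2.2.lad
    rwa [(hzz 0).2.1] at h1
  -- two branches through the same node
  have hnode : ∀ n m : ℕ, ∀ j > mm (kk n), ∀ j' > mm (kk m),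
      cd (bc (zz (kk n))) j = cd (bc (zz (kk m))) j' → n = m := by
    intro n m j hj j' hj' h
    obtain ⟨rfl, h2⟩ := cd_inj h
    have h3 := h2 _ hj
    have h4 := h2 _ hj'
    rcases lt_trichotomy n m with h5 | h5 | h5
    · exfalso
      have h6 := hmono h5
      apply hmm2 (kk n)
      rw [h3]
      exact hmm3 (kk m) _ h6
    · exact h5
    · exfalso
      have h6 := hmono h5
      apply hmm2 (kk m)
      rw [← h4]
      exact hmm3 (kk n) _ h6
  refine ⟨ℕ, fun n => zz (kk n), fun n => Ub (zz (kk n)) (mm (kk n) + 1), inferInstance, ?_,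
    fun n => (hzz _).1, fun n => ⟨open_U _, mem_U _ _⟩, ?_⟩
  · intro n m h
    have h' : zz (kk n) = zz (kk m) := h
    by_contra hne
    apply hne
    rcases lt_trichotomy n m with h5 | h5 | h5
    · exfalso
      apply hmm2 (kk n)
      rw [h']
      exact hmm3 (kk m) _ (hmono h5)
    · exact h5
    · exfalso
      apply hmm2 (kk m)
      rw [← h']
      exact hmm3 (kk n) _ (hmono h5)
  · intro y
    have hlv : ∀ n, lv (zz (kk n)) = d := fun n => (hzz _).2.1
    have hUl : ∀ n w, w ∈ Ub (zz (kk n)) (mm (kk n) + 1) → w = zz (kk n) ∨ lv w < d := by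
      rintro n w (rfl | ⟨j, -, hw⟩)
      · exact Or.inl rfl
      · right
        have := B_l (hzz _).2.2 hw
        rwa [hlv] at this
    have hUn : ∀ n w i, w ∈ Ub (zz (kk n)) (mm (kk n) + 1) → w ∈ (Wn (D.L d) i : Set (Sp D)) →
        ∃ j > mm (kk n), i = cd (bc (zz (kk n))) j := by
      intro n w i h1 h2
      rw [← hlv n] at h2
      obtain ⟨j, hj, h3⟩ := U_Wn h1 (hzz _).2.2 h2
      exact ⟨j, hj, h3⟩
    rcases lt_trichotomy (lv y) d with h | h | h
    · rcases lad_cases hd h with h0 | ⟨m, hm⟩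
      · refine ⟨{w | lv w ≤ D.L d 0}, open_l_le _, h0, ?_⟩
        rintro i j ⟨w, hw1, hw2⟩
        exfalso
        rcases hw1 with rfl | ⟨k, -, hk⟩
        · have h5 : lv (zz (kk i)) ≤ D.L d 0 := hw2
          rw [hlv] at h5
          exact absurd h5 (not_le.2 (hd.2.1 0))
        · have h5 := hk.2.1
          rw [hlv] at h5
          exact absurd (h5.trans_le hw2) (not_lt.2 (hd.1.monotone (Nat.zero_le _)))
      · refine ⟨Wn (D.L d) m, (clopen_Wn _ _).isOpen, hm, ?_⟩
        rintro i j ⟨w, hw1, hw2⟩ ⟨v, hv1, hv2⟩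
        obtain ⟨a, ha, ha'⟩ := hUn i w m hw1 hw2
        obtain ⟨b, hb, hb'⟩ := hUn j v m hv1 hv2
        exact hnode i j a ha b hb (ha'.symm.trans hb')
    · by_cases hy : Good y
      · refine ⟨Nb y, open_N y, mem_N y, ?_⟩
        -- the splitting level of the branch of y determines the index
        have key : ∀ i, (Ub (zz (kk i)) (mm (kk i) + 1) ∩ Nb y).Nonempty →
            bc y (mm (kk i)) ≠ c (mm (kk i)) ∧ ∀ k < mm (kk i), bc y k = c k := by
          rintro i ⟨w, hw1, hw2⟩
          rcases mem_cases hw2 with rfl | ⟨-, j, hj⟩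
          · rcases hUl i w hw1 with h5 | h5
            · rw [h5]
              exact ⟨hmm2 _, hmm3 _⟩
            · exact absurd h h5.ne
          · have hwW : w ∈ (Wn (D.L d) (cd (bc y) j) : Set (Sp D)) := by
              rw [← h]
              exact ⟨hj.2.1, B_hi hy hj⟩
            obtain ⟨a, ha, ha'⟩ := hUn i w _ hw1 hwW
            obtain ⟨rfl, h6⟩ := cd_inj ha'
            refine ⟨?_, fun k hk => ?_⟩
            · rw [h6 _ ha]; exact hmm2 _
            · rw [h6 _ (hk.trans ha)]; exact hmm3 _ _ hk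
        intro i j hi hj
        have h1 := key i hi
        have h2 := key j hj
        rcases lt_trichotomy i j with h5 | h5 | h5
        · exact absurd (h2.2 _ (hmono h5)) h1.1
        · exact h5
        · exact absurd (h1.2 _ (hmono h5)) h2.1
      · refine ⟨{y}, open_single hy, rfl, ?_⟩
        rintro i j ⟨w, hw1, hw2⟩
        rw [Set.mem_singleton_iff] at hw2
        subst hw2
        exfalso
        rcases hUl i w hw1 with h5 | h5
        · rw [h5] at hy
          exact hy (hzz _).2.2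
        · exact absurd h h5.ne
    · refine ⟨{w | d < lv w}, open_l_gt _, h, ?_⟩
      rintro i j ⟨w, hw1, hw2⟩
      exfalso
      have h6 : d < lv w := hw2
      rcases hUl i w hw1 with h5 | h5
      · rw [h5, hlv] at h6
        exact lt_irrefl _ h6
      · exact lt_irrefl _ (h6.trans h5)

/-- the space satisfies wD -/
theorem expands_of_locFin [WellFoundedLT K] (hN : ∀ f : ℕ → K, ∃ b, ∀ n, f n < b)
    (hlad : ∀ d, (∃ g, IsLad g d) → IsLad (D.L d) d)
    {E : Set (Sp D)} (hinf : E.Infinite) (hloc : LocFin E) : Expands E := by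
  classical
  -- a level below which there are infinitely many points
  have hex : ∃ b : K, (E ∩ {w | lv w ≤ b}).Infinite := by
    set e := hinf.natEmbedding with he
    obtain ⟨b, hb⟩ := hN (fun n => lv (e n : Sp D))
    refine ⟨b, ?_⟩
    apply (Set.infinite_range_of_injective (f := fun n => (e n : Sp D))
      (Subtype.val_injective.comp e.injective)).mono
    rintro _ ⟨n, rfl⟩
    exact ⟨(e n).2, (hb n).le⟩
  set d := wellFounded_lt.min {b : K | (E ∩ {w | lv w ≤ b}).Infinite} hex with hd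
  have hd1 : (E ∩ {w | lv w ≤ d}).Infinite :=
    wellFounded_lt.min_mem {b : K | (E ∩ {w | lv w ≤ b}).Infinite} hex
  have hd2 : ∀ b < d, (E ∩ {w | lv w ≤ b}).Finite := by
    intro b hb
    by_contra h
    exact wellFounded_lt.not_lt_min {b : K | (E ∩ {w | lv w ≤ b}).Infinite} h hb
  by_cases hlev : {z | z ∈ E ∧ lv z = d}.Infinite
  · exact expands_level hloc hlev
  have hlt : {z | z ∈ E ∧ lv z < d}.Infinite := by
    intro hfin
    apply hd1
    refine (hfin.union (Set.not_infinite.1 hlev)).subset ?_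
    rintro z ⟨h1, h2⟩
    rcases lt_or_eq_of_le (show lv z ≤ d from h2) with h | h
    · exact Or.inl ⟨h1, h⟩
    · exact Or.inr ⟨h1, h⟩
  -- a ladder
  have hld : IsLad (D.L d) d := by
    apply hlad
    set e := hlt.natEmbedding with he
    apply lad_of_cof (f := fun n => lv (e n : Sp D)) (fun n => (e n).2.2)
    intro b hb
    by_contra hcon
    push Not at hcon
    apply Set.infinite_range_of_injective (f := fun n => (e n : Sp D))
      (Subtype.val_injective.comp e.injective)
    refine (hd2 b hb).subset ?_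
    rintro _ ⟨n, rfl⟩
    exact ⟨(e n).2.1, hcon n⟩
  set N : Set ℕ := {n | ∃ w ∈ E, w ∈ (Wn (D.L d) n : Set (Sp D))} with hNdef
  have hNinf : N.Infinite := by
    intro hfin
    obtain ⟨M, hM⟩ := hfin.bddAbove
    apply hlt
    refine (hd2 _ (hld.2.1 (M + 1))).subset ?_
    rintro z ⟨hz, hzd⟩
    refine ⟨hz, ?_⟩
    rcases lad_cases hld hzd with h0 | ⟨n, hn⟩
    · exact h0.trans (hld.1.monotone (Nat.zero_le _))
    · have : n ≤ M := hM ⟨z, hz, hn⟩
      exact hn.2.trans (hld.1.monotone (by omega))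
  rcases nowhere_mad N Set.univ with ⟨D0, hD0f, -, hfin⟩ | ⟨N', hN'N, hN'inf, hN'⟩
  swap
  · apply expands_Wn hld N' hN'inf (fun n => Wn (D.L d) n)
      (fun n _ => (clopen_Wn _ _).isOpen) (fun n _ => subset_rfl)
      (fun n hn => by
        obtain ⟨w, hw, hwn⟩ := hN'N hn
        exact ⟨w, hw, hwn⟩)
    intro y hy
    by_cases hg : Good y
    · obtain ⟨M, hM⟩ := (hN' (bc y) trivial).bddAbove
      obtain ⟨m, hm⟩ := cd_large (bc y) M
      refine ⟨Ub y m, open_U m, mem_U y m, ?_⟩
      intro n hn w hw hwn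
      rw [← hy] at hwn
      obtain ⟨j, hj, rfl⟩ := U_Wn hw hg hwn
      exact absurd (hM ⟨hn, ⟨j, rfl⟩⟩) (not_le.2 (hm j hj))
    · refine ⟨{y}, open_single hg, rfl, ?_⟩
      intro n _ w hw hwn
      rw [Set.mem_singleton_iff] at hw
      subst hw
      have h3 := hwn.2
      rw [hy] at h3
      exact absurd h3 (not_le.2 (hld.2.1 _))
  -- a branch meeting `N` in an infinite set
  obtain ⟨c, hc⟩ : ∃ c ∈ D0, (N ∩ Br c).Infinite := by
    by_contra hcon
    push Not at hcon
    apply hNinf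
    refine (hfin.union (hD0f.biUnion hcon)).subset ?_
    intro n hn
    by_cases h : n ∈ ⋃ c ∈ D0, Br c
    · right
      obtain ⟨c, hc, hnc⟩ := Set.mem_iUnion₂.1 h
      exact Set.mem_iUnion₂.2 ⟨c, hc, hn, hnc⟩
    · exact Or.inl ⟨hn, h⟩
  have hcinf := hc.2
  by_cases hz : ∃ z : Sp D, lv z = d ∧ Good z ∧ bc z = c
  · obtain ⟨z, hzd, hzg, rfl⟩ := hz
    obtain ⟨O, hO, hzO, hOE⟩ := hloc z
    obtain ⟨m, hm⟩ := hO z hzO hzg
    have hN2 : (N ∩ Br (bc z)) \ (cd (bc z) '' Set.Iio m) |>.Infinite :=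
      hcinf.sdiff ((Set.finite_Iio m).image _)
    apply expands_Wn hld _ hN2 (fun n => Wn (D.L d) n \ Nb z)
      (fun n _ => (clopen_Wn _ _).isOpen.sdiff (closed_N z)) (fun n _ => Set.sdiff_subset)
    · rintro n ⟨⟨⟨w, hw, hwn⟩, ⟨j, hj⟩⟩, hnm⟩
      refine ⟨w, hw, hwn, ?_⟩
      intro hwz
      have hjm : m ≤ j := by
        by_contra hlt
        exact hnm ⟨j, not_le.1 hlt, hj⟩
      rcases mem_cases hwz with rfl | ⟨-, i, hi⟩
      · have h3 := hwn.2
        rw [hzd] at h3
        exact absurd h3 (not_le.2 (hld.2.1 _))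
      · have hi2 := hi.2.1
        have hi3 := B_hi hzg hi
        rw [hzd] at hi2 hi3
        have h4 := lad_idx hld.1 hi2 hi3 hwn.1 hwn.2
        have h5 : i = j := cd_injective _ (h4.trans hj.symm)
        subst h5
        have h6 := hOE w (hm i hjm hi) hw
        have h7 := B_l hzg hi
        rw [h6] at h7
        exact lt_irrefl _ h7
    · intro y hy
      by_cases hg : Good y
      · by_cases hyc : bc y = bc z
        · have : y = z := good_unique hg hzg (hy.trans hzd.symm) hyc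
          subst this
          exact ⟨Nb y, open_N y, mem_N y, fun n _ w hw hwn => hwn.2 hw⟩
        · obtain ⟨m', hm'⟩ := cd_ad hyc
          refine ⟨Ub y m', open_U m', mem_U y m', ?_⟩
          intro n hn w hw hwn
          have hwn' := hwn.1
          rw [← hy] at hwn'
          obtain ⟨j, hj, rfl⟩ := U_Wn hw hg hwn'
          exact hm' j hj hn.1.2
      · refine ⟨{y}, open_single hg, rfl, ?_⟩
        intro n _ w hw hwn
        rw [Set.mem_singleton_iff] at hw
        subst hw
        have h3 := hwn.1.2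
        rw [hy] at h3
        exact absurd h3 (not_le.2 (hld.2.1 _))
  · apply expands_Wn hld _ hcinf (fun n => Wn (D.L d) n)
      (fun n _ => (clopen_Wn _ _).isOpen) (fun n _ => subset_rfl)
      (fun n hn => by
        obtain ⟨w, hw, hwn⟩ := hn.1
        exact ⟨w, hw, hwn⟩)
    intro y hy
    by_cases hg : Good y
    · have hyc : bc y ≠ c := fun h => hz ⟨y, hy, hg, h⟩
      obtain ⟨m', hm'⟩ := cd_ad hyc
      refine ⟨Ub y m', open_U m', mem_U y m', ?_⟩
      intro n hn w hw hwn
      rw [← hy] at hwn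
      obtain ⟨j, hj, rfl⟩ := U_Wn hw hg hwn
      exact hm' j hj hn.2
    · refine ⟨{y}, open_single hg, rfl, ?_⟩
      intro n _ w hw hwn
      rw [Set.mem_singleton_iff] at hw
      subst hw
      have h3 := hwn.2
      rw [hy] at h3
      exact absurd h3 (not_le.2 (hld.2.1 _))

end Pool.Agent.Helper416.AR
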