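import Pool.Agent.Helper416.AR10
import Pool.Agent.Helper416.AR11

set_option autoImplicit false

namespace Pool.Agent.Helper416.AR

open Topology

/-! ### the compactification is hereditarily wD -/

/-- `Y` satisfies property wD: every infinite closed discrete set `E` has an infinite subset `E'`
which expands to a discrete family of open sets -/
def PropertyWD (Y : Type) [TopologicalSpace Y] : Prop :=
  ∀ E : Set Y, E.Infinite → IsClosed E → DiscreteTopology E →
    ∃ E' ⊆ E, E'.Infinite ∧ ∃ U : Y → Set Y,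
      (∀ d ∈ E', IsOpen (U d) ∧ d ∈ U d) ∧
      ∀ y : Y, ∃ O : Set Y, IsOpen O ∧ y ∈ O ∧
        ∀ d ∈ E', ∀ d' ∈ E', (U d ∩ O).Nonempty → (U d' ∩ O).Nonempty → d = d'

theorem wD_of_index {Y : Type} [TopologicalSpace Y] {E : Set Y} {I : Type} [Infinite I]
    (e : I → Y) (he : Function.Injective e) (heE : ∀ i, e i ∈ E) (U : I → Set Y)
    (hU : ∀ i, IsOpen (U i) ∧ e i ∈ U i)
    (hd : ∀ y, ∃ O : Set Y, IsOpen O ∧ y ∈ O ∧
      ∀ i j, (U i ∩ O).Nonempty → (U j ∩ O).Nonempty → i = j) :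
    ∃ E' ⊆ E, E'.Infinite ∧ ∃ U : Y → Set Y,
      (∀ d ∈ E', IsOpen (U d) ∧ d ∈ U d) ∧
      ∀ y : Y, ∃ O : Set Y, IsOpen O ∧ y ∈ O ∧
        ∀ d ∈ E', ∀ d' ∈ E', (U d ∩ O).Nonempty → (U d' ∩ O).Nonempty → d = d' := by
  classical
  refine ⟨Set.range e, ?_, Set.infinite_range_of_injective he,
    fun y => if h : ∃ i, e i = y then U h.choose else ∅, ?_, ?_⟩
  · rintro _ ⟨i, rfl⟩
    exact heE i
  · rintro _ ⟨i, rfl⟩
    have h : ∃ j, e j = e i := ⟨i, rfl⟩
    have h1 : h.choose = i := he h.choose_spec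
    simp only
    rw [dif_pos h, h1]
    exact hU i
  · intro y
    obtain ⟨O, hO, hy, h⟩ := hd y
    refine ⟨O, hO, hy, ?_⟩
    rintro _ ⟨i, rfl⟩ _ ⟨j, rfl⟩ hi hj
    have h1 : ∃ k, e k = e i := ⟨i, rfl⟩
    have h2 : ∃ k, e k = e j := ⟨j, rfl⟩
    have h3 : h1.choose = i := he h1.choose_spec
    have h4 : h2.choose = j := he h2.choose_spec
    simp only at hi hj
    rw [dif_pos h1, h3] at hi
    rw [dif_pos h2, h4] at hj
    rw [h i j hi hj]

variable {K W : Type} [LinearOrder K] [LinearOrder W] {D : Dat K W}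

theorem hereditarily_wD [WellFoundedLT K] (hD : D.OK) (S : Set (OnePoint (Sp D))) :
    PropertyWD S := by
  classical
  intro E hE hEc hEd
  have hemb : IsOpenEmbedding (fun z : Sp D => (z : OnePoint (Sp D))) :=
    OnePoint.isOpenEmbedding_coe
  -- points have neighbourhoods isolating them from `E`
  have hloc : ∀ y : S, ∃ O : Set (OnePoint (Sp D)), IsOpen O ∧ (y : OnePoint (Sp D)) ∈ O ∧
      ∀ w ∈ E, (w : OnePoint (Sp D)) ∈ O → w = y := by
    intro y
    by_cases hy : y ∈ E
    · have h1 : IsOpen ({⟨y, hy⟩} : Set E) := isOpen_discrete _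
      obtain ⟨U, hU, hU'⟩ := isOpen_induced_iff.1 h1
      obtain ⟨O, hO, rfl⟩ := isOpen_induced_iff.1 hU
      have h2 : (⟨y, hy⟩ : E) ∈ (Subtype.val ⁻¹' (Subtype.val ⁻¹' O) : Set E) := by
        rw [hU']; rfl
      refine ⟨O, hO, h2, ?_⟩
      intro w hw hwO
      have h3 : (⟨w, hw⟩ : E) ∈ (Subtype.val ⁻¹' (Subtype.val ⁻¹' O) : Set E) := hwO
      rw [hU', Set.mem_singleton_iff] at h3
      exact congrArg Subtype.val h3
    · obtain ⟨O, hO, hO'⟩ := isOpen_induced_iff.1 hEc.isOpen_compl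
      have h2 : y ∈ (Subtype.val ⁻¹' O : Set S) := by rw [hO']; exact hy
      refine ⟨O, hO, h2, ?_⟩
      intro w hw hwO
      have h3 : w ∈ (Subtype.val ⁻¹' O : Set S) := hwO
      rw [hO'] at h3
      exact absurd hw h3
  set E0 : Set (Sp D) := {z | ∃ h : (z : OnePoint (Sp D)) ∈ S, (⟨z, h⟩ : S) ∈ E} with hE0
  have hE0inf : E0.Infinite := by
    intro hfin
    apply hE
    have h1 : E ⊆ {y : S | (y : OnePoint (Sp D)) = OnePoint.infty} ∪
        {y : S | ∃ z ∈ E0, (z : OnePoint (Sp D)) = y} := by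
      rintro ⟨y, hyS⟩ hyE
      induction y using OnePoint.rec with
      | infty => exact Or.inl rfl
      | coe z => exact Or.inr ⟨z, ⟨hyS, hyE⟩, rfl⟩
    refine Set.Finite.subset (Set.Finite.union ?_ ?_) h1
    · apply Set.Subsingleton.finite
      intro a ha b hb
      exact Subtype.ext (ha.trans hb.symm)
    · have h2 : {y : S | ∃ z ∈ E0, (z : OnePoint (Sp D)) = y} =
          Subtype.val ⁻¹' ((fun z : Sp D => (z : OnePoint (Sp D))) '' E0) := by
        ext y; rfl
      rw [h2]
      exact (hfin.image _).preimage Subtype.val_injective.injOn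
  by_cases hacc : ∃ z : Sp D, ∀ O : Set (Sp D), IsOpen O → z ∈ O → ∃ w ∈ O, w ∈ E0 ∧ w ≠ z
  · -- an accumulation point in the locally compact part
    obtain ⟨z, hz⟩ := hacc
    have hzS : (z : OnePoint (Sp D)) ∉ S := by
      intro hzS
      obtain ⟨O, hO, hzO, h⟩ := hloc ⟨z, hzS⟩
      obtain ⟨w, hw, ⟨hwS, hwE⟩, hne⟩ := hz _ (hO.preimage hemb.continuous) hzO
      have := congrArg Subtype.val (h ⟨w, hwS⟩ hwE hw)
      exact hne (OnePoint.coe_injective this)
    have hzg : Good z := by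
      by_contra hbad
      obtain ⟨w, hw, -, hne⟩ := hz {z} (open_single hbad) rfl
      exact hne hw
    set J : Set ℕ := {j | ∃ w ∈ E0, w ∈ (Bk z j : Set (Sp D))} with hJ
    have hJinf : J.Infinite := by
      intro hfin
      obtain ⟨M, hM⟩ := hfin.bddAbove
      obtain ⟨w, hw, hwE, hne⟩ := hz (Ub z (M + 1)) (open_U _) (mem_U _ _)
      rcases hw with h | ⟨j, hj, hw⟩
      · exact hne h
      · have h1 : j ≤ M := hM ⟨w, hwE, hw⟩
        omega
    have : Infinite J := hJinf.to_subtype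
    have hdisj : ∀ i j w, w ∈ (Bk z i : Set (Sp D)) → w ∈ (Bk z j : Set (Sp D)) → i = j := by
      intro i j w h1 h2
      exact cd_injective _ (lad_idx hzg.lad.1 h1.2.1 (B_hi hzg h1) h2.2.1 (B_hi hzg h2))
    choose e he1 he2 using fun j : J => j.2
    choose he3 he4 using he1
    refine wD_of_index (fun j : J => (⟨e j, he3 j⟩ : S)) ?_ he4
      (fun j => Subtype.val ⁻¹' ((fun z : Sp D => (z : OnePoint (Sp D))) '' Bk z j)) ?_ ?_
    · intro i j h
      have h1 : e i = e j := OnePoint.coe_injective (congrArg Subtype.val h)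
      have h2 := he2 i
      rw [h1] at h2
      exact Subtype.ext (hdisj _ _ _ h2 (he2 j))
    · intro j
      exact ⟨(hemb.isOpenMap _ (open_B z j)).preimage continuous_subtype_val, e j, he2 j, rfl⟩
    · rintro ⟨y, hyS⟩
      by_cases hy : y ∈ (fun z : Sp D => (z : OnePoint (Sp D))) '' Nb z
      · obtain ⟨v, hv, rfl⟩ := hy
        rcases mem_cases hv with rfl | ⟨-, k, hk⟩
        · exact absurd hyS hzS
        · refine ⟨Subtype.val ⁻¹' ((fun z : Sp D => (z : OnePoint (Sp D))) '' Bk z k),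
            (hemb.isOpenMap _ (open_B z k)).preimage continuous_subtype_val, ⟨v, hk, rfl⟩, ?_⟩
          have key : ∀ i : J, ((Subtype.val ⁻¹'
              ((fun z : Sp D => (z : OnePoint (Sp D))) '' Bk z i) : Set S) ∩
              Subtype.val ⁻¹' ((fun z : Sp D => (z : OnePoint (Sp D))) '' Bk z k)).Nonempty →
              (i : ℕ) = k := by
            rintro i ⟨x, ⟨a, ha, hax⟩, ⟨b, hb, hbx⟩⟩
            have h1 : a = b := OnePoint.coe_injective (hax.trans hbx.symm)
            subst h1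
            exact hdisj _ _ _ ha hb
          intro i j hi hj
          exact Subtype.ext ((key i hi).trans (key j hj).symm)
      · refine ⟨Subtype.val ⁻¹' ((fun z : Sp D => (z : OnePoint (Sp D))) '' Nb z)ᶜ,
          (((compact_N z).image hemb.continuous).isClosed.isOpen_compl).preimage
            continuous_subtype_val, hy, ?_⟩
        rintro i j ⟨x, ⟨a, ha, hax⟩, hx⟩
        exact absurd ⟨a, B_sub hzg _ ha, hax⟩ hx
  · push Not at hacc
    have hlf : LocFin E0 := by
      intro y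
      obtain ⟨O, hO, hy, h⟩ := hacc y
      exact ⟨O, hO, hy, h⟩
    -- the point at infinity is not in the subspace
    have hinf : OnePoint.infty ∉ S := by
      intro hS
      obtain ⟨O, hO, hzO, h⟩ := hloc ⟨OnePoint.infty, hS⟩
      have hcomp : IsCompact ((fun z : Sp D => (z : OnePoint (Sp D))) ⁻¹' O)ᶜ := by
        have h1 := (OnePoint.isOpen_iff_of_mem hzO).1 hO
        exact h1.2
      have hsub : E0 ⊆ ((fun z : Sp D => (z : OnePoint (Sp D))) ⁻¹' O)ᶜ := by
        rintro w ⟨hwS, hwE⟩ hwO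
        have h2 := congrArg Subtype.val (h ⟨w, hwS⟩ hwE hwO)
        exact OnePoint.coe_ne_infty w h2
      obtain ⟨y, -, hy⟩ := hE0inf.exists_accPt_of_subset_isCompact hcomp hsub
      obtain ⟨O', hO', hyO', h'⟩ := hlf y
      rw [accPt_iff_nhds] at hy
      obtain ⟨w, ⟨hw1, hw2⟩, hw3⟩ := hy O' (hO'.mem_nhds hyO')
      exact hw3 (h' w hw1 hw2)
    obtain ⟨I, e, U, hI, he, heE, hU, hd⟩ := expands_of_locFin hD.hN hD.lad hE0inf hlf
    choose he3 he4 using heE
    refine wD_of_index (fun j : I => (⟨e j, he3 j⟩ : S)) ?_ he4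
      (fun j => Subtype.val ⁻¹' ((fun z : Sp D => (z : OnePoint (Sp D))) '' U j)) ?_ ?_
    · intro i j h
      exact he (OnePoint.coe_injective (congrArg Subtype.val h))
    · intro j
      exact ⟨(hemb.isOpenMap _ (hU j).1).preimage continuous_subtype_val, e j, (hU j).2, rfl⟩
    · rintro ⟨y, hyS⟩
      induction y using OnePoint.rec with
      | infty => exact absurd hyS hinf
      | coe y =>
        obtain ⟨O, hO, hyO, h⟩ := hd y
        refine ⟨Subtype.val ⁻¹' ((fun z : Sp D => (z : OnePoint (Sp D))) '' O),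
          (hemb.isOpenMap _ hO).preimage continuous_subtype_val, ⟨y, hyO, rfl⟩, ?_⟩
        have key : ∀ i : I, ((Subtype.val ⁻¹'
            ((fun z : Sp D => (z : OnePoint (Sp D))) '' U i) : Set S) ∩
            Subtype.val ⁻¹' ((fun z : Sp D => (z : OnePoint (Sp D))) '' O)).Nonempty →
            (U i ∩ O).Nonempty := by
          rintro i ⟨x, ⟨a, ha, hax⟩, ⟨b, hb, hbx⟩⟩
          have h1 : a = b := OnePoint.coe_injective (hax.trans hbx.symm)
          subst h1
          exact ⟨a, ha, hb⟩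
        intro i j hi hj
        exact h i j (key i hi) (key j hj)

theorem main_bi : ∃ (X : Type) (_ : TopologicalSpace X), CompactSpace X ∧ T2Space X ∧
    ScatteredSpace X ∧ (∀ S : Set X, PropertyWD S) ∧ ¬ Bisequential X := by
  obtain ⟨K, W, i1, i2, i3, i4, D, hD⟩ := exists_dat
  exact ⟨OnePoint (Sp D), inferInstance, inferInstance, inferInstance, scattered,
    hereditarily_wD hD, not_bisequential hD⟩

end Pool.Agent.Helper416.AR
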