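import Pool.Agent.Helper416.AR1

set_option autoImplicit false

namespace Pool.Agent.Helper416.AR

/-! ### club guessing at countable cofinality -/

theorem Top.unique {A : Type} [LinearOrder A] {E : Set A} {x e e' : A} (h : Top E x e)
    (h' : Top E x e') : e = e' :=
  le_antisymm (h'.2.2 e h.1 h.2.1) (h.2.2 e' h'.1 h'.2.1)

section cg

variable {K W : Type} [LinearOrder K] [WellFoundedLT K] [Nonempty K] [LinearOrder W]
  [WellFoundedLT W] [Nonempty W]

/-- the trace of `E` on the ladder `c` -/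
def Tr (c : ℕ → K) (E : Set K) : Set K := {e | ∃ n, Top E (c n) e}

omit [Nonempty K] in
theorem tr_lad {c : ℕ → K} {d : K} (hc : IsLad c d) {E : Set K} (hE : Club E) (hd : Lim E d) :
    ∃ g, IsLad g d ∧ ∀ n, g n ∈ Tr c E := by
  apply lad_in hc (Tr c E)
  · rintro a ⟨n, hn⟩
    exact lt_of_le_of_lt hn.2.1 (hc.2.1 n)
  · intro e he
    obtain ⟨x, hxE, hex, hxd⟩ := hd.2 e he
    obtain ⟨n, hn⟩ := hc.2.2 x hxd
    obtain ⟨t, ht⟩ := exists_top hE.2 (c n) ⟨x, hxE, hn.le⟩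
    exact ⟨t, ⟨n, ht⟩, lt_of_lt_of_le hex (ht.2.2 x hxE hn.le)⟩

theorem guess (hW : ∀ f : W → K, ∃ b, ∀ i, f i < b) (hN : ∀ f : ℕ → K, ∃ b, ∀ n, f n < b)
    (hWN : ∀ f : ℕ → W, ∃ b, ∀ n, f n < b) (c : K → ℕ → K)
    (hc : ∀ d, (∃ g, IsLad g d) → IsLad (c d) d) :
    ∃ E : Set K, Club E ∧ ∀ E' : Set K, Club E' →
      ∃ d, IsLad (c d) d ∧ Lim E d ∧ Tr (c d) E ⊆ E' := by
  classical
  by_contra hcon
  push Not at hcon
  have hcon' : ∀ E : Set K, ∃ E' : Set K, Club E' ∧ (Club E →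
      ∀ d, IsLad (c d) d → Lim E d → ¬ Tr (c d) E ⊆ E') := by
    intro E
    by_cases hE : Club E
    · obtain ⟨E', h1, h2⟩ := hcon E hE
      exact ⟨E', h1, fun _ => h2⟩
    · exact ⟨Set.univ, club_univ hN, fun h => absurd h hE⟩
  choose F hF1 hF2 using hcon'
  -- the decreasing sequence of clubs
  let EE : W → Set K := WellFounded.fix (wellFounded_lt (α := W))
    (fun ξ ih => {x | ∀ η (h : η < ξ), x ∈ ih η h ∧ x ∈ F (ih η h)})
  have hEE : ∀ ξ, EE ξ = {x | ∀ η, η < ξ → x ∈ EE η ∧ x ∈ F (EE η)} := by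
    intro ξ
    exact WellFounded.fix_eq _ _ _
  have hclub : ∀ ξ, Club (EE ξ) := by
    intro ξ
    induction ξ using WellFoundedLT.induction with
    | _ ξ ih =>
      have h1 : EE ξ = {x | ∀ η : W, x ∈ (if η < ξ then {x | ∀ b : Bool, x ∈
          (if b then EE η else F (EE η))} else Set.univ : Set K)} := by
        rw [hEE]
        ext x
        constructor
        · intro h η
          by_cases hη : η < ξ
          · rw [if_pos hη]
            intro b
            cases b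
            · simpa using (h η hη).2
            · simpa using (h η hη).1
          · rw [if_neg hη]; trivial
        · intro h η hη
          have h2 := h η
          rw [if_pos hη] at h2
          exact ⟨by simpa using h2 true, by simpa using h2 false⟩
      rw [h1]
      apply club_inter hW hN
      intro η
      split_ifs with hη
      · apply club_inter _ hN
        · intro b
          cases b
          · simpa using hF1 (EE η)
          · simpa using ih η hη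
        · intro f
          obtain ⟨b, hb⟩ := hN (fun n => if n = 0 then f true else f false)
          refine ⟨b, fun i => ?_⟩
          cases i
          · simpa using hb 1
          · simpa using hb 0
      · exact club_univ hN
  have hanti : ∀ η ξ, η ≤ ξ → EE ξ ⊆ EE η := by
    intro η ξ h
    rcases h.eq_or_lt with rfl | h
    · exact subset_rfl
    · intro x hx
      rw [hEE] at hx
      exact (hx η h).1
  have hstep : ∀ η ξ, η < ξ → EE ξ ⊆ F (EE η) := by
    intro η ξ h x hx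
    rw [hEE] at hx
    exact (hx η h).2
  have hinf : Club {x | ∀ ξ, x ∈ EE ξ} := club_inter hW hN EE hclub
  obtain ⟨k0⟩ := (inferInstance : Nonempty K)
  obtain ⟨d, -, hlad, hlim⟩ := closing (I := Unit) (fun f => by
    obtain ⟨b, hb⟩ := hN (fun _ => f ())
    exact ⟨b, fun _ => hb 0⟩) hN (fun _ => {x | ∀ ξ, x ∈ EE ξ}) (fun _ => hinf.1) k0
  have hd := hc d hlad
  have hlimE : ∀ ξ, Lim (EE ξ) d := fun ξ => (hlim ()).mono fun x (hx : ∀ ξ, x ∈ EE ξ) => hx ξ
  -- stabilisation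
  have hstab : ∀ n, ∃ ξ0 : W, ∀ ξ, ξ0 ≤ ξ → ∀ e, Top (EE ξ0) (c d n) e → Top (EE ξ) (c d n) e := by
    intro n
    by_cases hall : ∀ ξ, ∃ e, Top (EE ξ) (c d n) e
    · choose t ht using hall
      have hne : (Set.range t).Nonempty := by
        obtain ⟨w⟩ := (inferInstance : Nonempty W)
        exact ⟨t w, w, rfl⟩
      obtain ⟨ξ0, hξ0⟩ := wellFounded_lt.min_mem _ hne
      refine ⟨ξ0, fun ξ hξ e he => ?_⟩
      have e1 : e = t ξ0 := he.unique (ht ξ0)
      have h1 : t ξ ≤ t ξ0 := (ht ξ0).2.2 _ (hanti _ _ hξ (ht ξ).1) (ht ξ).2.1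
      have h2 : t ξ0 ≤ t ξ := by
        rw [hξ0]
        by_contra h
        push Not at h
        exact wellFounded_lt.not_lt_min (Set.range t) ⟨ξ, rfl⟩ h
      rw [e1, ← le_antisymm h1 h2]
      exact ht ξ
    · push Not at hall
      obtain ⟨ξ0, h0⟩ := hall
      exact ⟨ξ0, fun ξ _ e he => absurd he (h0 e)⟩
  choose ξs hξs using hstab
  obtain ⟨ξ1, hξ1⟩ := hWN ξs
  obtain ⟨ξ2, hξ2⟩ := hWN (fun _ => ξ1)
  refine hF2 (EE ξ1) (hclub ξ1) d hd (hlimE ξ1) ?_
  rintro e ⟨n, hn⟩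
  -- e is the top for all stages from ξs n on
  have h3 : ∃ e0, Top (EE (ξs n)) (c d n) e0 :=
    exists_top (hclub _).2 _ ⟨e, hanti _ _ (hξ1 n).le hn.1, hn.2.1⟩
  obtain ⟨e0, he0⟩ := h3
  have h4 := hξs n ξ1 (hξ1 n).le e0 he0
  have h5 : e = e0 := hn.unique h4
  have h6 := hξs n ξ2 ((hξ1 n).trans (hξ2 0)).le e0 he0
  rw [h5]
  exact hstep ξ1 ξ2 (hξ2 0) h6.1

theorem club_guess (hW : ∀ f : W → K, ∃ b, ∀ i, f i < b) (hN : ∀ f : ℕ → K, ∃ b, ∀ n, f n < b)
    (hWN : ∀ f : ℕ → W, ∃ b, ∀ n, f n < b) :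
    ∃ L : K → ℕ → K, (∀ d, (∃ g, IsLad g d) → IsLad (L d) d) ∧
      ∀ E : Set K, Club E → ∃ d, IsLad (L d) d ∧ ∀ n, L d n ∈ E := by
  classical
  have h0 : ∀ d : K, ∃ c : ℕ → K, (∃ g, IsLad g d) → IsLad c d := by
    intro d
    by_cases h : ∃ g, IsLad g d
    · obtain ⟨g, hg⟩ := h
      exact ⟨g, fun _ => hg⟩
    · obtain ⟨k0⟩ := (inferInstance : Nonempty K)
      exact ⟨fun _ => k0, fun h' => absurd h' h⟩
  choose c hc using h0
  obtain ⟨E, hE, hg⟩ := guess (W := W) hW hN hWN c hc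
  have h1 : ∀ d : K, ∃ g : ℕ → K, ((∃ g, IsLad g d) → IsLad g d) ∧
      (IsLad (c d) d → Lim E d → ∀ n, g n ∈ Tr (c d) E) := by
    intro d
    by_cases h : IsLad (c d) d ∧ Lim E d
    · obtain ⟨g, hg, hg'⟩ := tr_lad h.1 hE h.2
      exact ⟨g, fun _ => hg, fun _ _ => hg'⟩
    · refine ⟨c d, hc d, fun h2 h3 => absurd ⟨h2, h3⟩ h⟩
  choose L hL1 hL2 using h1
  refine ⟨L, hL1, fun E' hE' => ?_⟩
  obtain ⟨d, h2, h3, h4⟩ := hg E' hE'
  exact ⟨d, hL1 d ⟨_, h2⟩, fun n => h4 (hL2 d h2 h3 n)⟩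

end cg

end Pool.Agent.Helper416.AR
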