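import Mathlib

set_option autoImplicit false

namespace Pool.Agent.Helper416.AR

/-! ### branches of the binary tree coded by natural numbers -/

/-- initial segments -/
def pre (c : ℕ → Bool) (j : ℕ) : List Bool := (List.range j).map c

theorem pre_length (c : ℕ → Bool) (j : ℕ) : (pre c j).length = j := by simp [pre]

theorem pre_succ (c : ℕ → Bool) (j : ℕ) : pre c (j + 1) = pre c j ++ [c j] := by
  simp [pre, List.range_succ]

theorem pre_getElem (c : ℕ → Bool) (j i : ℕ) (h : i < (pre c j).length) :
    (pre c j)[i] = c i := by simp [pre]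

theorem pfx_pre {c c' : ℕ → Bool} {k j : ℕ} (h : pre c k <+: pre c' j) :
    k ≤ j ∧ ∀ i < k, c i = c' i := by
  have h1 := h.length_le
  rw [pre_length, pre_length] at h1
  refine ⟨h1, fun i hi => ?_⟩
  have h2 : i < (pre c k).length := by rwa [pre_length]
  have := h.getElem h2
  rwa [pre_getElem, pre_getElem] at this

/-- a bijection between nodes and natural numbers -/
noncomputable def eL : List Bool ≃ ℕ :=
  @Denumerable.eqv (List Bool) (Denumerable.ofEncodableOfInfinite (List Bool))

/-- the code of the `j`-th node on the branch `c` -/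
noncomputable def cd (c : ℕ → Bool) (j : ℕ) : ℕ := eL (pre c j)

theorem cd_inj {c c' : ℕ → Bool} {j i : ℕ} (h : cd c j = cd c' i) :
    j = i ∧ ∀ k < j, c k = c' k := by
  have h1 : pre c j = pre c' i := eL.injective h
  have h2 : j = i := by
    have := congrArg List.length h1
    rwa [pre_length, pre_length] at this
  refine ⟨h2, ?_⟩
  have h3 : pre c j <+: pre c' i := by rw [h1]
  exact (pfx_pre h3).2

theorem cd_injective (c : ℕ → Bool) : Function.Injective (cd c) := fun _ _ h => (cd_inj h).1

theorem cd_large (c : ℕ → Bool) (M : ℕ) : ∃ m, ∀ j ≥ m, M < cd c j := by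
  have h := (cd_injective c).nat_tendsto_atTop
  have h2 := h.eventually (Filter.eventually_gt_atTop M)
  exact Filter.eventually_atTop.1 h2

/-- the set of codes of nodes on `c` -/
def Br (c : ℕ → Bool) : Set ℕ := Set.range (cd c)

theorem br_ad {c c' : ℕ → Bool} (h : c ≠ c') : (Br c ∩ Br c').Finite := by
  obtain ⟨d, hd⟩ := Function.ne_iff.1 h
  refine (Set.Finite.image (cd c) (Set.finite_Iic d)).subset ?_
  rintro n ⟨⟨j, hj⟩, ⟨i, hi⟩⟩
  refine ⟨j, ?_, hj⟩
  have := (cd_inj (hj.trans hi.symm)).2
  by_contra hcon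
  rw [Set.mem_Iic, not_le] at hcon
  exact hd (this d hcon)

theorem cd_ad {c c' : ℕ → Bool} (h : c ≠ c') : ∃ m, ∀ j ≥ m, cd c j ∉ Br c' := by
  obtain ⟨d, hd⟩ := Function.ne_iff.1 h
  refine ⟨d + 1, fun j hj => ?_⟩
  rintro ⟨i, hi⟩
  exact hd ((cd_inj hi.symm).2 d hj)

/-- the family of branches is nowhere maximal almost disjoint -/
theorem nowhere_mad (N : Set ℕ) (D : Set (ℕ → Bool)) :
    (∃ D0 : Set (ℕ → Bool), D0.Finite ∧ D0 ⊆ D ∧ (N \ ⋃ c ∈ D0, Br c).Finite) ∨
    ∃ N' ⊆ N, N'.Infinite ∧ ∀ c ∈ D, (N' ∩ Br c).Finite := by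
  classical
  set cov : Set ℕ → Prop := fun M =>
    ∃ D0 : Set (ℕ → Bool), D0.Finite ∧ D0 ⊆ D ∧ (M \ ⋃ c ∈ D0, Br c).Finite with hcov
  by_cases h0 : cov N
  · exact Or.inl h0
  right
  set NN : List Bool → Set ℕ := fun s => {n ∈ N | s <+: eL.symm n} with hNN
  have hroot : ¬ cov (NN []) := by
    have : NN [] = N := by ext n; simp [hNN]
    rwa [this]
  have hstep : ∀ s, ¬ cov (NN s) → ∃ b : Bool, ¬ cov (NN (s ++ [b])) := by
    intro s hs
    by_contra hcon
    push Not at hcon
    apply hs
    obtain ⟨D1, hf1, hD1, h1⟩ := hcon true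
    obtain ⟨D2, hf2, hD2, h2⟩ := hcon false
    refine ⟨D1 ∪ D2, hf1.union hf2, Set.union_subset hD1 hD2, ?_⟩
    refine (((Set.finite_singleton (eL s)).union h1).union h2).subset ?_
    rintro n ⟨⟨hnN, hpre⟩, hn⟩
    rw [Set.mem_iUnion₂] at hn
    push Not at hn
    obtain ⟨t, ht⟩ := hpre
    rcases t with _ | ⟨b, t⟩
    · left; left
      rw [Set.mem_singleton_iff]
      rw [List.append_nil] at ht
      rw [ht]; simp
    · have hp : s ++ [b] <+: eL.symm n := ⟨t, by rw [← ht]; simp⟩
      cases b
      · right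
        refine ⟨⟨hnN, hp⟩, ?_⟩
        rw [Set.mem_iUnion₂]
        push Not
        exact fun c hc => hn c (Or.inr hc)
      · left; right
        refine ⟨⟨hnN, hp⟩, ?_⟩
        rw [Set.mem_iUnion₂]
        push Not
        exact fun c hc => hn c (Or.inl hc)
  choose! F hF using hstep
  set s : ℕ → List Bool := fun k => Nat.rec [] (fun _ l => l ++ [F l]) k with hs
  have hs1 : ∀ k, s (k + 1) = s k ++ [F (s k)] := fun k => rfl
  set c : ℕ → Bool := fun k => F (s k) with hc
  have hpre : ∀ k, pre c k = s k := by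
    intro k
    induction k with
    | zero => rfl
    | succ k ih => rw [pre_succ, ih, hs1]
  have hnc : ∀ k, ¬ cov (NN (s k)) := by
    intro k
    induction k with
    | zero => exact hroot
    | succ k ih => rw [hs1]; exact hF _ ih
  have hpick : ∀ k, ∃ t ∈ NN (s k), c ∈ D → t ∉ Br c := by
    intro k
    by_cases hcD : c ∈ D
    · by_contra hcon
      push Not at hcon
      apply hnc k
      refine ⟨{c}, Set.finite_singleton c, by simpa using hcD, ?_⟩
      convert Set.finite_empty
      ext n
      simp only [Set.mem_sdiff, Set.mem_singleton_iff, Set.iUnion_iUnion_eq_left,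
        Set.mem_empty_iff_false, iff_false, not_and, not_not]
      intro hn
      exact (hcon n hn).2
    · by_contra hcon
      push Not at hcon
      apply hnc k
      refine ⟨∅, Set.finite_empty, Set.empty_subset _, ?_⟩
      convert Set.finite_empty
      ext n
      simp only [Set.mem_sdiff, Set.mem_empty_iff_false, iff_false, not_and, not_not]
      intro hn
      exact absurd (hcon n hn).1 hcD
  choose t ht1 ht2 using hpick
  have hlen : ∀ k, k ≤ (eL.symm (t k)).length := by
    intro k
    have := (ht1 k).2.length_le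
    rwa [← hpre, pre_length] at this
  refine ⟨Set.range t, ?_, ?_, ?_⟩
  · rintro _ ⟨k, rfl⟩
    exact (ht1 k).1
  · intro hfin
    obtain ⟨B, hB⟩ := (hfin.image fun n => (eL.symm n).length).bddAbove
    have := hB ⟨t (B + 1), ⟨B + 1, rfl⟩, rfl⟩
    have h2 := hlen (B + 1)
    simp only at this
    omega
  · intro c' hc'
    by_cases hcc : c' = c
    · subst hcc
      convert Set.finite_empty
      ext n
      simp only [Set.mem_inter_iff, Set.mem_empty_iff_false, iff_false, not_and]
      rintro ⟨k, rfl⟩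
      exact ht2 k hc'
    · obtain ⟨d, hd⟩ := Function.ne_iff.1 hcc
      refine ((Set.finite_Iic d).image t).subset ?_
      rintro n ⟨⟨k, rfl⟩, ⟨j, hj⟩⟩
      refine ⟨k, ?_, rfl⟩
      by_contra hcon
      rw [Set.mem_Iic, not_le] at hcon
      have h3 : pre c k <+: pre c' j := by
        have h4 : eL.symm (t k) = pre c' j := by rw [← hj]; simp [cd]
        rw [← h4, hpre]
        exact (ht1 k).2
      exact hd ((pfx_pre h3).2 d hcon).symm

end Pool.Agent.Helper416.AR
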