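import Pool.Agent.Helper416.AR2
import Pool.Agent.Helper416.AR3

set_option autoImplicit false

namespace Pool.Agent.Helper416.AR

/-! ### the space -/

/-- points: level, rank, branch -/
@[ext] structure Pt (K W : Type) where
  l : K
  r : W
  c : ℕ → Bool

/-- the data of the construction -/
structure Dat (K W : Type) [LinearOrder K] [LinearOrder W] where
  S : Set W
  L : K → ℕ → K
  g : K → (ℕ → Bool) → ℕ → ℕ → Pt K W

variable {K W : Type} [LinearOrder K] [LinearOrder W]

/-- the space -/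
def Sp (_D : Dat K W) : Type := Pt K W

variable {D : Dat K W}

/-- the level -/
def lv (z : Sp D) : K := Pt.l z

/-- the rank -/
def rk (z : Sp D) : W := Pt.r z

/-- the branch -/
def bc (z : Sp D) : ℕ → Bool := Pt.c z

theorem sp_ext {z w : Sp D} (h1 : lv z = lv w) (h2 : rk z = rk w) (h3 : bc z = bc w) : z = w :=
  Pt.ext h1 h2 h3

/-- the sequence attached to a point -/
noncomputable def xs (z : Sp D) (j : ℕ) : Sp D := D.g (lv z) (bc z) j (cd (bc z) j)

/-- the points which are not isolated -/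
structure Good (z : Sp D) : Prop where
  lad : IsLad (D.L (lv z)) (lv z)
  rS : rk z ∈ D.S
  lo : ∀ j, D.L (lv z) (cd (bc z) j) < lv (xs z j)
  hi : ∀ j, lv (xs z j) ≤ D.L (lv z) (cd (bc z) j + 1)
  rmono : StrictMono fun j => rk (xs z j)
  rlt : ∀ j, rk (xs z j) < rk z
  rcof : ∀ a < rk z, ∃ j, a < rk (xs z j)

/-- `w` belongs to the compact neighbourhood of `z` -/
inductive Mem : Sp D → Sp D → Prop
  | refl (z : Sp D) : Mem z z
  | step (z w : Sp D) (j : ℕ) (hz : Good z) (hw : Mem (xs z j) w)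
      (hl : D.L (lv z) (cd (bc z) j) < lv w) (hr : ∀ i < j, rk (xs z i) < rk w) : Mem z w

/-- the blocks of the compact neighbourhood -/
def Bk (z : Sp D) (j : ℕ) : Set (Sp D) :=
  {w | Mem (xs z j) w ∧ D.L (lv z) (cd (bc z) j) < lv w ∧ ∀ i < j, rk (xs z i) < rk w}

instance : TopologicalSpace (Sp D) where
  IsOpen U := ∀ z ∈ U, Good z → ∃ m, ∀ j ≥ m, Bk z j ⊆ U
  isOpen_univ := fun _ _ _ => ⟨0, fun _ _ => Set.subset_univ _⟩
  isOpen_inter := by
    intro s t hs ht z hz hg
    obtain ⟨m1, h1⟩ := hs z hz.1 hg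
    obtain ⟨m2, h2⟩ := ht z hz.2 hg
    exact ⟨max m1 m2, fun j hj => Set.subset_inter (h1 j (le_trans (le_max_left _ _) hj))
      (h2 j (le_trans (le_max_right _ _) hj))⟩
  isOpen_sUnion := by
    intro s hs z hz hg
    obtain ⟨t, ht, hzt⟩ := hz
    obtain ⟨m, hm⟩ := hs t ht z hzt hg
    exact ⟨m, fun j hj => (hm j hj).trans (Set.subset_sUnion_of_mem ht)⟩

theorem isOpen_iff' {U : Set (Sp D)} :
    IsOpen U ↔ ∀ z ∈ U, Good z → ∃ m, ∀ j ≥ m, Bk z j ⊆ U := Iff.rfl

theorem Good.xl {z : Sp D} (hz : Good z) (j : ℕ) : lv (xs z j) < lv z :=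
  lt_of_le_of_lt (hz.hi j) (hz.lad.2.1 _)

theorem mem_le {z w : Sp D} (h : Mem z w) : w = z ∨ (lv w < lv z ∧ rk w < rk z) := by
  induction h with
  | refl z => exact Or.inl rfl
  | step z w j hz hw hl hr ih =>
    right
    rcases ih with rfl | ⟨h1, h2⟩
    · exact ⟨hz.xl j, hz.rlt j⟩
    · exact ⟨h1.trans (hz.xl j), h2.trans (hz.rlt j)⟩

theorem mem_l {z w : Sp D} (h : Mem z w) : lv w ≤ lv z := by
  rcases mem_le h with rfl | h
  · exact le_rfl
  · exact h.1.le

theorem mem_r {z w : Sp D} (h : Mem z w) : rk w ≤ rk z := by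
  rcases mem_le h with rfl | h
  · exact le_rfl
  · exact h.2.le

theorem B_l {z w : Sp D} (hz : Good z) {j : ℕ} (h : w ∈ Bk z j) : lv w < lv z :=
  lt_of_le_of_lt (mem_l h.1) (hz.xl j)

theorem B_hi {z w : Sp D} (hz : Good z) {j : ℕ} (h : w ∈ Bk z j) :
    lv w ≤ D.L (lv z) (cd (bc z) j + 1) := (mem_l h.1).trans (hz.hi j)

theorem B_r {z w : Sp D} (hz : Good z) {j : ℕ} (h : w ∈ Bk z j) : rk w < rk z :=
  lt_of_le_of_lt (mem_r h.1) (hz.rlt j)

theorem trunc_l {w : Sp D} (hw : Good w) {b : K} (hb : b < lv w) :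
    ∃ m, ∀ j ≥ m, ∀ v ∈ Bk w j, b < lv v := by
  obtain ⟨n, hn⟩ := hw.lad.2.2 b hb
  obtain ⟨m, hm⟩ := cd_large (bc w) n
  exact ⟨m, fun j hj v hv => (hn.trans (hw.lad.1 (hm j hj))).trans hv.2.1⟩

theorem trunc_r {w : Sp D} (hw : Good w) {a : W} (ha : a < rk w) :
    ∃ m, ∀ j ≥ m, ∀ v ∈ Bk w j, a < rk v := by
  obtain ⟨i, hi⟩ := hw.rcof a ha
  exact ⟨i + 1, fun j hj v hv => hi.trans (hv.2.2 i hj)⟩

theorem open_l_gt (b : K) : IsOpen {w : Sp D | b < lv w} := by
  intro z hz hg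
  exact trunc_l hg hz

theorem open_l_le (b : K) : IsOpen {w : Sp D | lv w ≤ b} := by
  intro z hz hg
  exact ⟨0, fun j _ v hv => (B_l hg hv).le.trans hz⟩

theorem open_r_gt (a : W) : IsOpen {w : Sp D | a < rk w} := by
  intro z hz hg
  exact trunc_r hg hz

theorem open_r_le (a : W) : IsOpen {w : Sp D | rk w ≤ a} := by
  intro z hz hg
  exact ⟨0, fun j _ v hv => (B_r hg hv).le.trans hz⟩

theorem open_r_ge (a : W) (ha : a ∉ D.S) : IsOpen {w : Sp D | a ≤ rk w} := by
  intro z hz hg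
  have h1 : a < rk z := lt_of_le_of_ne hz (by rintro rfl; exact ha hg.rS)
  obtain ⟨m, hm⟩ := trunc_r hg h1
  exact ⟨m, fun j hj v hv => (hm j hj v hv).le⟩

theorem closed_l_gt (b : K) : IsClosed {w : Sp D | b < lv w} := by
  rw [← isOpen_compl_iff]
  convert open_l_le b using 1
  ext w; simp

theorem closed_l_le (b : K) : IsClosed {w : Sp D | lv w ≤ b} := by
  rw [← isOpen_compl_iff]
  convert open_l_gt b using 1
  ext w; simp

theorem closed_r_gt (a : W) : IsClosed {w : Sp D | a < rk w} := by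
  rw [← isOpen_compl_iff]
  convert open_r_le a using 1
  ext w; simp

theorem closed_r_le (a : W) : IsClosed {w : Sp D | rk w ≤ a} := by
  rw [← isOpen_compl_iff]
  convert open_r_gt a using 1
  ext w; simp

/-- the compact neighbourhood -/
def Nb (z : Sp D) : Set (Sp D) := {w | Mem z w}

theorem open_N (y : Sp D) : IsOpen (Nb y) := by
  intro w hw hg
  have hw' : Mem y w := hw
  clear hw
  show ∃ m, ∀ j ≥ m, ∀ v ∈ Bk w j, Mem y v
  induction hw' with
  | refl z => exact ⟨0, fun j _ v hv => Mem.step z v j hg hv.1 hv.2.1 hv.2.2⟩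
  | step z w j hz hw hl hr ih =>
    obtain ⟨m1, h1⟩ := ih hg
    obtain ⟨m2, h2⟩ := trunc_l hg hl
    have h3 : ∃ m, ∀ k ≥ m, ∀ v ∈ Bk w k, ∀ i < j, rk (xs z i) < rk v := by
      rcases j with _ | j
      · exact ⟨0, fun k _ v _ i hi => absurd hi (Nat.not_lt_zero i)⟩
      · obtain ⟨m, hm⟩ := trunc_r hg (hr j (Nat.lt_succ_self j))
        refine ⟨m, fun k hk v hv i hi => lt_of_le_of_lt ?_ (hm k hk v hv)⟩
        exact hz.rmono.monotone (Nat.lt_succ_iff.1 hi)
    obtain ⟨m3, h3⟩ := h3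
    refine ⟨max m1 (max m2 m3), fun k hk v hv => ?_⟩
    have hk1 : m1 ≤ k := le_trans (le_max_left _ _) hk
    have hk2 : m2 ≤ k := le_trans (le_trans (le_max_left _ _) (le_max_right _ _)) hk
    have hk3 : m3 ≤ k := le_trans (le_trans (le_max_right _ _) (le_max_right _ _)) hk
    exact Mem.step z v j hz (h1 k hk1 v hv) (h2 k hk2 v hv) (h3 k hk3 v hv)

theorem B_eq (z : Sp D) (j : ℕ) : (Bk z j : Set (Sp D)) =
    Nb (xs z j) ∩ ({w : Sp D | D.L (lv z) (cd (bc z) j) < lv w} ∩
      ⋂ i ∈ Set.Iio j, {w : Sp D | rk (xs z i) < rk w}) := by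
  ext w
  simp only [Set.mem_inter_iff, Set.mem_iInter, Set.mem_Iio]
  rfl

theorem open_B (z : Sp D) (j : ℕ) : IsOpen (Bk z j : Set (Sp D)) := by
  rw [B_eq]
  refine (open_N _).inter ((open_l_gt _).inter ?_)
  exact (Set.finite_Iio j).isOpen_biInter fun _ _ => open_r_gt _

theorem closed_Bpart (z : Sp D) (j : ℕ) :
    IsClosed ({w : Sp D | D.L (lv z) (cd (bc z) j) < lv w} ∩
      ⋂ i ∈ Set.Iio j, {w : Sp D | rk (xs z i) < rk w}) :=
  (closed_l_gt _).inter (isClosed_biInter fun _ _ => closed_r_gt _)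

theorem N_bad {z : Sp D} (hz : ¬ Good z) : Nb z = {z} := by
  ext w
  constructor
  · intro h
    have h' : Mem z w := h
    cases h' with
    | refl => rfl
    | step _ _ j hz' => exact absurd hz' hz
  · rintro rfl
    exact Mem.refl _

theorem mem_cases {z w : Sp D} (h : Mem z w) : w = z ∨ (Good z ∧ ∃ j, w ∈ Bk z j) := by
  cases h with
  | refl => exact Or.inl rfl
  | step _ _ j hz hw hl hr => exact Or.inr ⟨hz, j, hw, hl, hr⟩

theorem B_sub {z : Sp D} (hz : Good z) (j : ℕ) : Bk z j ⊆ Nb z :=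
  fun w hw => Mem.step z w j hz hw.1 hw.2.1 hw.2.2

theorem compact_N [WellFoundedLT K] (z : Sp D) : IsCompact (Nb z) := by
  suffices h : ∀ k : K, ∀ z : Sp D, lv z = k → IsCompact (Nb z) from h _ z rfl
  intro k
  induction k using WellFoundedLT.induction with
  | _ k ih =>
    intro z hzk
    by_cases hg : Good z
    · apply isCompact_of_finite_subcover
      intro ι U hU hcov
      classical
      have hz : z ∈ Nb z := Mem.refl z
      obtain ⟨i0, hi0⟩ := Set.mem_iUnion.1 (hcov hz)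
      obtain ⟨m, hm⟩ := hU i0 z hi0 hg
      have hBc : ∀ j, IsCompact (Bk z j : Set (Sp D)) := by
        intro j
        rw [B_eq]
        exact (ih (lv (xs z j)) (hzk ▸ hg.xl j : lv (xs z j) < k) (xs z j) rfl).inter_right (closed_Bpart z j)
      have hT : IsCompact (⋃ j ∈ Finset.range m, (Bk z j : Set (Sp D))) :=
        (Finset.range m).isCompact_biUnion fun j _ => hBc j
      obtain ⟨t, ht⟩ := hT.elim_finite_subcover U hU (by
        refine (Set.iUnion₂_subset fun j _ => ?_)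
        exact (B_sub hg j).trans hcov)
      refine ⟨insert i0 t, ?_⟩
      intro w hw
      rw [Set.mem_iUnion₂]
      rcases mem_cases hw with rfl | ⟨-, j, hj⟩
      · exact ⟨i0, Finset.mem_insert_self _ _, hi0⟩
      · by_cases hjm : m ≤ j
        · exact ⟨i0, Finset.mem_insert_self _ _, hm j hjm hj⟩
        · push Not at hjm
          have h1 := ht (Set.mem_iUnion₂.2 ⟨j, Finset.mem_range.2 hjm, hj⟩)
          obtain ⟨i, hi, hwi⟩ := Set.mem_iUnion₂.1 h1
          exact ⟨i, Finset.mem_insert_of_mem hi, hwi⟩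
    · rw [N_bad hg]
      exact isCompact_singleton

/-- ladder intervals are disjoint -/
theorem lad_idx {A : Type} [LinearOrder A] {g : ℕ → A} (hg : StrictMono g) {a : A} {n m : ℕ}
    (h1 : g n < a) (h2 : a ≤ g (n + 1)) (h3 : g m < a) (h4 : a ≤ g (m + 1)) : n = m := by
  rcases lt_trichotomy n m with h | h | h
  · exact absurd (h2.trans (hg.monotone h)) (not_le.2 h3)
  · exact h
  · exact absurd (h4.trans (hg.monotone h)) (not_le.2 h1)

/-- basic neighbourhoods -/
def Ub (z : Sp D) (m : ℕ) : Set (Sp D) := {w | w = z ∨ ∃ j ≥ m, w ∈ Bk z j}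

theorem open_U {z : Sp D} (m : ℕ) : IsOpen (Ub z m) := by
  intro w hw hg
  rcases hw with rfl | ⟨j, hj, hw⟩
  · exact ⟨m, fun j hj v hv => Or.inr ⟨j, hj, hv⟩⟩
  · obtain ⟨m', hm'⟩ := open_B z j w hw hg
    exact ⟨m', fun k hk v hv => Or.inr ⟨j, hj, hm' k hk hv⟩⟩

theorem mem_U (z : Sp D) (m : ℕ) : z ∈ Ub z m := Or.inl rfl

theorem mem_N (z : Sp D) : z ∈ Nb z := Mem.refl z

theorem open_single {z : Sp D} (hz : ¬ Good z) : IsOpen ({z} : Set (Sp D)) := by
  rw [← N_bad hz]
  exact open_N z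

instance : T2Space (Sp D) := by
  refine ⟨fun z w hzw => ?_⟩
  rcases lt_trichotomy (lv z) (lv w) with h | h | h
  · exact ⟨{v | lv v ≤ lv z}, {v | lv z < lv v}, open_l_le _, open_l_gt _, le_rfl, h,
      Set.disjoint_left.2 fun v h1 h2 => not_lt.2 h1 h2⟩
  · rcases lt_trichotomy (rk z) (rk w) with h' | h' | h'
    · exact ⟨{v | rk v ≤ rk z}, {v | rk z < rk v}, open_r_le _, open_r_gt _, le_rfl, h',
        Set.disjoint_left.2 fun v h1 h2 => not_lt.2 h1 h2⟩
    · have hc : bc z ≠ bc w := fun hc => hzw (sp_ext h h' hc)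
      by_cases hgz : Good z
      · by_cases hgw : Good w
        · obtain ⟨m, hm⟩ := cd_ad hc
          refine ⟨Ub z m, Nb w, open_U m, open_N w, mem_U z m, mem_N w, ?_⟩
          rw [Set.disjoint_left]
          rintro v (rfl | ⟨j, hj, hv⟩) hvw
          · rcases mem_le hvw with h2 | h2
            · exact hzw h2
            · exact absurd h h2.1.ne
          · rcases mem_cases hvw with rfl | ⟨-, i, hi⟩
            · exact absurd h.symm (B_l hgz hv).ne
            · have h3 := hi.2.1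
              have h4 := B_hi hgw hi
              rw [← h] at h3 h4
              have := lad_idx hgz.lad.1 hv.2.1 (B_hi hgz hv) h3 h4
              exact hm j hj ⟨i, this.symm⟩
        · refine ⟨Nb z, {w}, open_N z, open_single hgw, mem_N z, rfl, ?_⟩
          rw [Set.disjoint_right]
          rintro v rfl hv
          rcases mem_le hv with h2 | h2
          · exact hzw h2.symm
          · exact absurd h.symm h2.1.ne
      · refine ⟨{z}, Nb w, open_single hgz, open_N w, rfl, mem_N w, ?_⟩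
        rw [Set.disjoint_left]
        rintro v rfl hv
        rcases mem_le hv with h2 | h2
        · exact hzw h2
        · exact absurd h h2.1.ne
    · exact ⟨{v | rk w < rk v}, {v | rk v ≤ rk w}, open_r_gt _, open_r_le _, h', le_rfl,
        Set.disjoint_left.2 fun v h1 h2 => not_lt.2 h2 h1⟩
  · exact ⟨{v | lv w < lv v}, {v | lv v ≤ lv w}, open_l_gt _, open_l_le _, h, le_rfl,
      Set.disjoint_left.2 fun v h1 h2 => not_lt.2 h2 h1⟩

instance [WellFoundedLT K] : WeaklyLocallyCompactSpace (Sp D) :=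
  ⟨fun z => ⟨Nb z, compact_N z, (open_N z).mem_nhds (mem_N z)⟩⟩

end Pool.Agent.Helper416.AR
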