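import Pool.Agent.Helper416.AR4

set_option autoImplicit false

namespace Pool.Agent.Helper416.AR

/-! ### pseudocompact closed subsets of the space are compact -/

variable {K W : Type} [LinearOrder K] [LinearOrder W] {D : Dat K W}

/-- locally constant functions are bounded -/
def PC (P : Set (Sp D)) : Prop :=
  ∀ φ : Sp D → ℕ, (∀ z ∈ P, ∃ O : Set (Sp D), IsOpen O ∧ z ∈ O ∧ ∀ w ∈ O, w ∈ P → φ w = φ z) →
    ∃ M, ∀ w ∈ P, φ w ≤ M

theorem good_unique {z w : Sp D} (hz : Good z) (hw : Good w) (h1 : lv z = lv w)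
    (h2 : bc z = bc w) : z = w := by
  have hx : ∀ j, xs z j = xs w j := by
    intro j
    unfold xs
    rw [h1, h2]
  refine sp_ext h1 ?_ h2
  rcases lt_trichotomy (rk z) (rk w) with h | h | h
  · obtain ⟨j, hj⟩ := hw.rcof _ h
    rw [← hx] at hj
    exact absurd (hz.rlt j) (not_lt.2 hj.le)
  · exact h
  · obtain ⟨j, hj⟩ := hz.rcof _ h
    rw [hx] at hj
    exact absurd (hw.rlt j) (not_lt.2 hj.le)

theorem closed_N [WellFoundedLT K] (z : Sp D) : IsClosed (Nb z) := (compact_N z).isClosed

/-- level intervals -/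
def Wn (g : ℕ → K) (n : ℕ) : Set (Sp D) := {w | g n < lv w ∧ lv w ≤ g (n + 1)}

theorem clopen_Wn (g : ℕ → K) (n : ℕ) : IsClopen (Wn g n : Set (Sp D)) :=
  ⟨(closed_l_gt _).inter (closed_l_le _), (open_l_gt _).inter (open_l_le _)⟩

/-- every level below the top of a ladder lies in an interval or below the first term -/
theorem lad_cases {g : ℕ → K} {d : K} (hg : IsLad g d) {a : K} (ha : a < d) :
    a ≤ g 0 ∨ ∃ n, g n < a ∧ a ≤ g (n + 1) := by
  classical
  by_cases h0 : a ≤ g 0
  · exact Or.inl h0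
  right
  have hex : ∃ n, a ≤ g n := by
    obtain ⟨n, hn⟩ := hg.2.2 a ha
    exact ⟨n, hn.le⟩
  have hspec := Nat.find_spec hex
  have hpos : Nat.find hex ≠ 0 := by
    intro h
    rw [h] at hspec
    exact h0 hspec
  obtain ⟨m, hm⟩ := Nat.exists_eq_succ_of_ne_zero hpos
  refine ⟨m, ?_, ?_⟩
  · have := Nat.find_min hex (m := m) (by omega)
    exact not_le.1 this
  · rw [hm] at hspec; exact hspec

/-- the general unboundedness argument at a level of countable cofinality -/
theorem fin_of_pc {P : Set (Sp D)} (hP : PC P) {g : ℕ → K} {d : K} (hg : IsLad g d)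
    (V : ℕ → Set (Sp D)) (hV : ∀ n, IsClopen (V n)) (hVW : ∀ n, V n ⊆ Wn g n)
    (hloc : ∀ z ∈ P, lv z = d → ∃ O : Set (Sp D), IsOpen O ∧ z ∈ O ∧ ∃ m, ∀ n ≥ m, ∀ w ∈ O,
      w ∉ V n) :
    {n | ∃ w ∈ P, w ∈ V n}.Finite := by
  classical
  set φ : Sp D → ℕ := fun w => if h : ∃ n, w ∈ V n then Nat.find h else 0 with hφ
  have huniq : ∀ w n m, w ∈ V n → w ∈ Wn g m → n = m := by
    intro w n m h1 h2
    have h3 := hVW n h1
    exact lad_idx hg.1 h3.1 h3.2 h2.1 h2.2
  have hval : ∀ w n, w ∈ V n → φ w = n := by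
    intro w n hw
    have h : ∃ n, w ∈ V n := ⟨n, hw⟩
    rw [hφ]
    simp only
    rw [dif_pos h]
    exact huniq w _ _ (Nat.find_spec h) (hVW n hw)
  have hval0 : ∀ w, (∀ n, w ∉ V n) → φ w = 0 := by
    intro w hw
    rw [hφ]
    simp only
    rw [dif_neg]
    push Not
    exact hw
  obtain ⟨M, hM⟩ := hP φ (by
    intro z hz
    rcases lt_trichotomy (lv z) d with h | h | h
    · rcases lad_cases hg h with h0 | ⟨m, hm⟩
      · refine ⟨{w | lv w ≤ g 0}, open_l_le _, h0, fun w hw _ => ?_⟩
        have key : ∀ w : Sp D, lv w ≤ g 0 → φ w = 0 := by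
          intro w hw
          apply hval0
          intro n hn
          have h1 := (hVW n hn).1
          exact absurd (h1.trans_le hw) (not_lt.2 (hg.1.monotone (Nat.zero_le n)))
        rw [key w hw, key z h0]
      · by_cases hzV : z ∈ V m
        · exact ⟨V m, (hV m).isOpen, hzV, fun w hw _ => by rw [hval w m hw, hval z m hzV]⟩
        · refine ⟨Wn g m \ V m, (clopen_Wn g m).isOpen.sdiff (hV m).isClosed, ⟨hm, hzV⟩, ?_⟩
          have key : ∀ w : Sp D, w ∈ Wn g m → w ∉ V m → φ w = 0 := by
            intro w hw hw'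
            apply hval0
            intro n hn
            have := huniq w n m hn hw
            subst this
            exact hw' hn
          intro w hw _
          rw [key w hw.1 hw.2, key z hm hzV]
    · obtain ⟨O, hO, hzO, m, hm⟩ := hloc z hz h
      refine ⟨O ∩ ⋂ n ∈ Set.Iio m, (V n)ᶜ, hO.inter
        ((Set.finite_Iio m).isOpen_biInter fun n _ => (hV n).isClosed.isOpen_compl), ?_, ?_⟩
      · refine ⟨hzO, ?_⟩
        simp only [Set.mem_iInter]
        intro n _ hn
        have h1 := (hVW n hn).2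
        rw [h] at h1
        exact absurd h1 (not_le.2 (hg.2.1 _))
      · have key : ∀ w ∈ O ∩ ⋂ n ∈ Set.Iio m, (V n)ᶜ, φ w = 0 := by
          intro w hw
          apply hval0
          intro n hn
          by_cases hnm : m ≤ n
          · exact hm n hnm w hw.1 hn
          · have := hw.2
            simp only [Set.mem_iInter] at this
            exact this n (not_le.1 hnm) hn
        intro w hw _
        rw [key w hw]
        symm
        apply hval0
        intro n hn
        have h1 := (hVW n hn).2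
        rw [h] at h1
        exact absurd h1 (not_le.2 (hg.2.1 _))
    · refine ⟨{w | d < lv w}, open_l_gt _, h, ?_⟩
      have key : ∀ w : Sp D, d < lv w → φ w = 0 := by
        intro w hw
        apply hval0
        intro n hn
        have h1 := (hVW n hn).2
        exact absurd (hw.trans_le h1) (not_lt.2 (hg.2.1 _).le)
      intro w hw _
      rw [key w hw, key z h])
  refine (Set.finite_Iic M).subset ?_
  rintro n ⟨w, hw, hwV⟩
  have := hM w hw
  rw [hval w n hwV] at this
  exact this

/-- the conclusion at a level, once the part below is under control -/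
theorem compact_level [WellFoundedLT K] {P : Set (Sp D)} (hPc : IsClosed P) (hP : PC P) (d : K)
    (T : Set (Sp D)) (hT : IsClopen T) (hTd : ∀ w ∈ T, lv w < d) (hTc : IsCompact (P ∩ T))
    (F : Set (Sp D)) (hF : F.Finite) (hFd : ∀ z ∈ F, lv z = d)
    (hcov : ∀ w ∈ P, lv w < d → w ∈ T ∨ ∃ z ∈ F, w ∈ Nb z) :
    IsCompact (P ∩ {w | lv w ≤ d}) := by
  classical
  have hfin : {z | z ∈ P ∧ lv z = d ∧ z ∉ F}.Finite := by
    by_contra hinf
    have hinf' : {z | z ∈ P ∧ lv z = d ∧ z ∉ F}.Infinite := hinf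
    set e := hinf'.natEmbedding with he
    set φ : Sp D → ℕ := fun w => if h : ∃ k, (e k : Sp D) = w then Nat.find h else 0 with hφ
    have hval : ∀ k, φ (e k) = k := by
      intro k
      have h : ∃ k', (e k' : Sp D) = e k := ⟨k, rfl⟩
      rw [hφ]
      simp only
      rw [dif_pos h]
      exact e.injective (Subtype.ext (Nat.find_spec h))
    have hval0 : ∀ w, ¬ (w ∈ P ∧ lv w = d ∧ w ∉ F) → φ w = 0 := by
      intro w hw
      rw [hφ]
      simp only
      rw [dif_neg]
      rintro ⟨k, hk⟩
      apply hw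
      rw [← hk]
      exact (e k).2
    obtain ⟨M, hM⟩ := hP φ (by
      intro z hz
      by_cases hG : lv z = d ∧ z ∉ F
      · refine ⟨Nb z ∩ (Tᶜ ∩ (⋃ y ∈ F, Nb y)ᶜ), ?_, ?_, ?_⟩
        · refine (open_N z).inter (hT.isClosed.isOpen_compl.inter ?_)
          exact (hF.isClosed_biUnion fun y _ => closed_N y).isOpen_compl
        · refine ⟨mem_N z, fun h => (hTd z h).ne hG.1, ?_⟩
          intro h
          obtain ⟨y, hy, hzy⟩ := Set.mem_iUnion₂.1 h
          rcases mem_le hzy with h2 | h2
          · exact hG.2 (h2 ▸ hy)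
          · have := h2.1
            rw [hFd y hy, hG.1] at this
            exact lt_irrefl _ this
        · rintro w ⟨hw1, hw2, hw3⟩ hwP
          rcases mem_le hw1 with h2 | h2
          · rw [h2]
          · exfalso
            rcases hcov w hwP (hG.1 ▸ h2.1) with h3 | ⟨y, hy, h3⟩
            · exact hw2 h3
            · exact hw3 (Set.mem_iUnion₂.2 ⟨y, hy, h3⟩)
      · have hz0 : φ z = 0 := hval0 z fun h => hG h.2
        rcases lt_trichotomy (lv z) d with h | h | h
        · refine ⟨{w | lv w ≤ lv z}, open_l_le _, le_refl (lv z), fun w hw _ => ?_⟩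
          rw [hz0]
          apply hval0
          rintro ⟨-, h2, -⟩
          have : lv w ≤ lv z := hw
          rw [h2] at this
          exact absurd h (not_lt.2 this)
        · have hzF : z ∈ F := by
            by_contra h3
            exact hG ⟨h, h3⟩
          refine ⟨Nb z, open_N z, mem_N z, fun w hw _ => ?_⟩
          rcases mem_le hw with h2 | h2
          · rw [h2]
          · rw [hz0]
            apply hval0
            rintro ⟨-, h3, -⟩
            have := h2.1
            rw [h3, h] at this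
            exact lt_irrefl _ this
        · refine ⟨{w | d < lv w}, open_l_gt _, h, fun w hw _ => ?_⟩
          rw [hz0]
          apply hval0
          rintro ⟨-, h3, -⟩
          have : d < lv w := hw
          rw [h3] at this
          exact lt_irrefl _ this)
    have h1 := hM (e (M + 1)) (e (M + 1)).2.1
    rw [hval] at h1
    omega
  have hbig : IsCompact ((P ∩ T) ∪ ((⋃ y ∈ F, Nb y) ∪ {z | z ∈ P ∧ lv z = d ∧ z ∉ F})) :=
    hTc.union ((hF.isCompact_biUnion fun y _ => compact_N y).union hfin.isCompact)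
  refine hbig.of_isClosed_subset (hPc.inter (closed_l_le d)) ?_
  rintro w ⟨hwP, hwd⟩
  rcases lt_or_eq_of_le (show lv w ≤ d from hwd) with h | h
  · rcases hcov w hwP h with h3 | ⟨y, hy, h3⟩
    · exact Or.inl ⟨hwP, h3⟩
    · exact Or.inr (Or.inl (Set.mem_iUnion₂.2 ⟨y, hy, h3⟩))
  · by_cases hwF : w ∈ F
    · exact Or.inr (Or.inl (Set.mem_iUnion₂.2 ⟨w, hwF, mem_N w⟩))
    · exact Or.inr (Or.inr ⟨hwP, h, hwF⟩)

theorem N_Wn {z w : Sp D} (h : w ∈ Nb z) {n : ℕ} (hw : w ∈ (Wn (D.L (lv z)) n : Set (Sp D)))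
    (hlad : IsLad (D.L (lv z)) (lv z)) : n ∈ Br (bc z) := by
  rcases mem_cases h with rfl | ⟨hg, j, hj⟩
  · exact absurd hw.2 (not_le.2 (hlad.2.1 _))
  · exact ⟨j, lad_idx hlad.1 hj.2.1 (B_hi hg hj) hw.1 hw.2⟩

/-- the case of a level with a ladder -/
theorem ladder_level [WellFoundedLT K] {P : Set (Sp D)} (hP : PC P) {d : K}
    (hd : IsLad (D.L d) d) :
    ∃ n0, ∃ F : Set (Sp D), F.Finite ∧ (∀ z ∈ F, lv z = d) ∧
      ∀ w ∈ P, lv w < d → lv w ≤ D.L d n0 ∨ ∃ z ∈ F, w ∈ Nb z := by
  classical
  set N : Set ℕ := {n | ∃ w ∈ P, w ∈ (Wn (D.L d) n : Set (Sp D))} with hN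
  set DD : Set (ℕ → Bool) := {c | ∃ z ∈ P, lv z = d ∧ Good z ∧ bc z = c} with hDD
  rcases nowhere_mad N DD with ⟨D0, hD0f, hD0, hfin⟩ | ⟨N', hN'N, hN'inf, hN'⟩
  swap
  · exfalso
    set V : ℕ → Set (Sp D) := fun n => if n ∈ N' then Wn (D.L d) n else ∅ with hV
    have h1 := fin_of_pc hP hd V (fun n => by
        rw [hV]; simp only; split_ifs
        · exact clopen_Wn _ _
        · exact isClopen_empty) (fun n => by
        rw [hV]; simp only; split_ifs
        · exact subset_rfl
        · exact Set.empty_subset _) (by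
      intro z hz hzd
      by_cases hg : Good z
      · have hf := hN' (bc z) ⟨z, hz, hzd, hg, rfl⟩
        obtain ⟨M, hM⟩ := hf.bddAbove
        refine ⟨Nb z, open_N z, mem_N z, M + 1, fun n hn w hw hwV => ?_⟩
        rw [hV] at hwV
        simp only at hwV
        split_ifs at hwV with hnN
        · subst hzd
          have h2 := N_Wn hw hwV hd
          have h3 := hM ⟨hnN, h2⟩
          omega
        · exact hwV
      · refine ⟨{z}, open_single hg, rfl, 0, fun n _ w hw hwV => ?_⟩
        rw [Set.mem_singleton_iff] at hw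
        subst hw
        rw [hV] at hwV
        simp only at hwV
        split_ifs at hwV with hnN
        · have h3 := hwV.2
          rw [hzd] at h3
          exact absurd h3 (not_le.2 (hd.2.1 _))
        · exact hwV)
    apply hN'inf
    refine h1.subset ?_
    intro n hn
    obtain ⟨w, hw, hwn⟩ := hN'N hn
    refine ⟨w, hw, ?_⟩
    rw [hV]
    simp only
    rw [if_pos hn]
    exact hwn
  set F : Set (Sp D) := {z | lv z = d ∧ Good z ∧ bc z ∈ D0} with hF
  have hFfin : F.Finite := by
    apply Set.Finite.of_finite_image (f := bc)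
    · refine hD0f.subset ?_
      rintro _ ⟨z, hz, rfl⟩
      exact hz.2.2
    · intro z hz w hw h
      exact good_unique hz.2.1 hw.2.1 (hz.1.trans hw.1.symm) h
  set N1 : Set ℕ := {n | ∃ w ∈ P, w ∈ (Wn (D.L d) n : Set (Sp D)) ∧ w ∉ ⋃ z ∈ F, Nb z} with hN1
  have hUcl : IsClopen (⋃ z ∈ F, (Nb z : Set (Sp D))) :=
    ⟨hFfin.isClosed_biUnion fun y _ => closed_N y, isOpen_biUnion fun y _ => open_N y⟩
  have hN1c : ∀ c ∈ D0, (N1 ∩ Br c).Finite := by
    intro c hc
    set V : ℕ → Set (Sp D) := fun n => if n ∈ Br c then Wn (D.L d) n \ ⋃ z ∈ F, Nb z else ∅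
      with hV
    have h1 := fin_of_pc hP hd V (fun n => by
        rw [hV]; simp only; split_ifs
        · exact (clopen_Wn _ _).diff hUcl
        · exact isClopen_empty) (fun n => by
        rw [hV]; simp only; split_ifs
        · exact Set.sdiff_subset
        · exact Set.empty_subset _) (by
      intro z hz hzd
      by_cases hg : Good z
      · by_cases hzD : bc z ∈ D0
        · refine ⟨Nb z, open_N z, mem_N z, 0, fun n _ w hw hwV => ?_⟩
          rw [hV] at hwV
          simp only at hwV
          split_ifs at hwV with hnN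
          · exact hwV.2 (Set.mem_iUnion₂.2 ⟨z, ⟨hzd, hg, hzD⟩, hw⟩)
          · exact hwV
        · have hne : c ≠ bc z := by rintro rfl; exact hzD hc
          obtain ⟨M, hM⟩ := (br_ad hne).bddAbove
          refine ⟨Nb z, open_N z, mem_N z, M + 1, fun n hn w hw hwV => ?_⟩
          rw [hV] at hwV
          simp only at hwV
          split_ifs at hwV with hnN
          · subst hzd
            have h2 := N_Wn hw hwV.1 hd
            have h3 := hM ⟨hnN, h2⟩
            omega
          · exact hwV
      · refine ⟨{z}, open_single hg, rfl, 0, fun n _ w hw hwV => ?_⟩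
        rw [Set.mem_singleton_iff] at hw
        subst hw
        rw [hV] at hwV
        simp only at hwV
        split_ifs at hwV with hnN
        · have h3 := hwV.1.2
          rw [hzd] at h3
          exact absurd h3 (not_le.2 (hd.2.1 _))
        · exact hwV)
    refine h1.subset ?_
    rintro n ⟨⟨w, hw, hwn, hwU⟩, hnc⟩
    refine ⟨w, hw, ?_⟩
    rw [hV]
    simp only
    rw [if_pos hnc]
    exact ⟨hwn, hwU⟩
  have hN1f : N1.Finite := by
    refine (hfin.union (hD0f.biUnion hN1c)).subset ?_
    intro n hn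
    by_cases h : n ∈ ⋃ c ∈ D0, Br c
    · right
      obtain ⟨c, hc, hnc⟩ := Set.mem_iUnion₂.1 h
      exact Set.mem_iUnion₂.2 ⟨c, hc, hn, hnc⟩
    · left
      obtain ⟨w, hw, hwn, -⟩ := hn
      exact ⟨⟨w, hw, hwn⟩, h⟩
  obtain ⟨M, hM⟩ := hN1f.bddAbove
  refine ⟨M + 1, F, hFfin, fun z hz => hz.1, fun w hw hwd => ?_⟩
  rcases lad_cases hd hwd with h0 | ⟨n, hn⟩
  · exact Or.inl (h0.trans (hd.1.monotone (Nat.zero_le _)))
  · by_cases hnM : n ≤ M
    · exact Or.inl (hn.2.trans (hd.1.monotone (by omega)))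
    · right
      by_contra hcon
      apply hnM
      apply hM
      refine ⟨w, hw, hn, ?_⟩
      intro h
      obtain ⟨z, hz, hwz⟩ := Set.mem_iUnion₂.1 h
      exact hcon ⟨z, hz, hwz⟩

end Pool.Agent.Helper416.AR
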