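import Pool.Agent.Helper416.AR5

set_option autoImplicit false

namespace Pool.Agent.Helper416.AR

/-! ### pseudocompact closed subsets are compact: end of the proof -/

variable {K W : Type} [LinearOrder K] [LinearOrder W] {D : Dat K W}

/-- the ranks of a pseudocompact closed set are bounded -/
theorem rk_bdd {P : Set (Sp D)} (hP : PC P)
    (hS : ∀ R : ℕ → Set W, (∀ m, Unb (R m)) → ∃ s, s ∉ D.S ∧ (∃ g, IsLad g s) ∧
      ∀ m, Lim (R m) s) : ∃ a, ∀ w ∈ P, rk w ≤ a := by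
  classical
  by_contra hcon
  push Not at hcon
  obtain ⟨s, hsS, ⟨g, hg⟩, hlim⟩ := hS (fun _ => {a | ∃ w ∈ P, rk w = a}) (by
    intro _ a
    obtain ⟨w, hw, h⟩ := hcon a
    exact ⟨rk w, ⟨w, hw, rfl⟩, h⟩)
  set φ : Sp D → ℕ := fun w => if h : ∃ n, rk w ≤ g n then Nat.find h else 0 with hφ
  obtain ⟨M, hM⟩ := hP φ (by
    intro z hz
    by_cases h : ∃ n, rk z ≤ g n
    · have hspec := Nat.find_spec h
      refine ⟨{w | rk w ≤ g (Nat.find h)} ∩ ⋂ n ∈ Set.Iio (Nat.find h), {w | g n < rk w},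
        (open_r_le _).inter ((Set.finite_Iio _).isOpen_biInter fun n _ => open_r_gt _), ?_, ?_⟩
      · refine ⟨hspec, ?_⟩
        simp only [Set.mem_iInter]
        intro n hn
        exact not_le.1 (Nat.find_min h hn)
      · rintro w ⟨hw1, hw2⟩ _
        simp only [Set.mem_iInter] at hw2
        have h' : ∃ n, rk w ≤ g n := ⟨_, hw1⟩
        rw [hφ]
        simp only
        rw [dif_pos h, dif_pos h']
        apply le_antisymm
        · exact Nat.find_min' h' hw1
        · by_contra hlt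
          push Not at hlt
          have h3 : g (Nat.find h') < rk w := hw2 _ hlt
          exact absurd (Nat.find_spec h') (not_le.2 h3)
    · have hge : s ≤ rk z := by
        by_contra hlt
        push Not at hlt
        obtain ⟨n, hn⟩ := hg.2.2 _ hlt
        exact h ⟨n, hn.le⟩
      refine ⟨{w | s ≤ rk w}, open_r_ge s hsS, hge, fun w hw _ => ?_⟩
      have key : ∀ v : Sp D, s ≤ rk v → ¬ ∃ n, rk v ≤ g n := by
        rintro v hv ⟨n, hn⟩
        exact absurd (hg.2.1 n) (not_lt.2 (hv.trans hn))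
      rw [hφ]
      simp only
      rw [dif_neg (key w hw), dif_neg h])
  obtain ⟨_, ⟨w, hw, rfl⟩, h1, h2⟩ := (hlim 0).2 (g M) (hg.2.1 M)
  have h3 := hM w hw
  have h4 : ∃ n, rk w ≤ g n := by
    obtain ⟨n, hn⟩ := hg.2.2 _ h2
    exact ⟨n, hn.le⟩
  rw [hφ] at h3
  simp only at h3
  rw [dif_pos h4] at h3
  have h5 := Nat.find_spec h4
  exact absurd (h5.trans (hg.1.monotone h3)) (not_le.2 h1)

/-- the case of uncountable cofinality -/
theorem bdd_level [WellFoundedLT K] [WellFoundedLT W] {P : Set (Sp D)}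
    (hcount : ∀ a : W, (Set.Iio a).Countable) (a0 : W) (ha0 : ∀ w ∈ P, rk w < a0)
    (Q : K → Prop) (hdown : ∀ a b, a ≤ b → Q b → Q a) (hne : ∃ e, Q e)
    (hQ : ∀ f : ℕ → K, (∀ n, Q (f n)) → ∃ b, Q b ∧ ∀ n, f n ≤ b)
    (hcpt : ∀ e, Q e → IsCompact (P ∩ {w | lv w ≤ e})) :
    ∃ e, Q e ∧ ∀ w ∈ P, Q (lv w) → lv w ≤ e := by
  classical
  -- countable families of bounds
  have hcb : ∀ C : Set W, C.Countable → (∀ a ∈ C, ∃ e, Q e ∧ ∀ w ∈ P, Q (lv w) → rk w = a →
      lv w ≤ e) → ∃ e, Q e ∧ ∀ w ∈ P, Q (lv w) → rk w ∈ C → lv w ≤ e := by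
    intro C hC h
    rcases C.eq_empty_or_nonempty with rfl | hne'
    · obtain ⟨e, he⟩ := hne
      exact ⟨e, he, fun w _ _ h => absurd h (Set.notMem_empty _)⟩
    · obtain ⟨f, rfl⟩ := hC.exists_eq_range hne'
      choose e he1 he2 using fun n => h (f n) ⟨n, rfl⟩
      obtain ⟨b, hb, hb'⟩ := hQ e he1
      refine ⟨b, hb, ?_⟩
      rintro w hw hQw ⟨n, hn⟩
      exact (he2 n w hw hQw hn.symm).trans (hb' n)
  by_contra hcon
  push Not at hcon
  have hex : ∃ a : W, ∀ e, Q e → ∃ w ∈ P, Q (lv w) ∧ rk w = a ∧ e < lv w := by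
    by_contra hno
    push Not at hno
    obtain ⟨e, he, he'⟩ := hcb (Set.Iio a0) (hcount a0) (fun a _ => by
      obtain ⟨e, he, he'⟩ := hno a
      exact ⟨e, he, he'⟩)
    obtain ⟨w, hw, hQw, hlt⟩ := hcon e he
    exact absurd (he' w hw hQw (ha0 w hw)) (not_le.2 hlt)
  set a := wellFounded_lt.min {a : W | ∀ e, Q e → ∃ w ∈ P, Q (lv w) ∧ rk w = a ∧ e < lv w} hex
    with ha
  have ha1 : ∀ e, Q e → ∃ w ∈ P, Q (lv w) ∧ rk w = a ∧ e < lv w :=
    wellFounded_lt.min_mem {a : W | ∀ e, Q e → ∃ w ∈ P, Q (lv w) ∧ rk w = a ∧ e < lv w} hex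
  have ha2 : ∀ a' < a, ∃ e, Q e ∧ ∀ w ∈ P, Q (lv w) → rk w = a' → lv w ≤ e := by
    intro a' ha'
    have : a' ∉ {a : W | ∀ e, Q e → ∃ w ∈ P, Q (lv w) ∧ rk w = a ∧ e < lv w} :=
      fun h => wellFounded_lt.not_lt_min _ h ha'
    rw [Set.mem_ofPred_eq] at this
    push Not at this
    exact this
  obtain ⟨b1, hb1, hb1'⟩ := hcb (Set.Iio a) (hcount a) ha2
  have : Nonempty (Sp D) := by
    obtain ⟨w, -⟩ := ha1 b1 hb1
    exact ⟨w⟩
  choose! p hp1 hp2 hp3 hp4 using ha1
  set s : ℕ → Sp D := fun n => Nat.rec (p b1) (fun _ y => p (lv y)) n with hs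
  have hs0 : s 0 = p b1 := rfl
  have hs1 : ∀ n, s (n + 1) = p (lv (s n)) := fun n => rfl
  have hsQ : ∀ n, Q (lv (s n)) := by
    intro n
    induction n with
    | zero => exact hp2 _ hb1
    | succ n ih => rw [hs1]; exact hp2 _ ih
  have hsP : ∀ n, s n ∈ P := by
    intro n
    cases n with
    | zero => exact hp1 _ hb1
    | succ n => rw [hs1]; exact hp1 _ (hsQ n)
  have hsr : ∀ n, rk (s n) = a := by
    intro n
    cases n with
    | zero => exact hp3 _ hb1
    | succ n => rw [hs1]; exact hp3 _ (hsQ n)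
  have hsm : StrictMono fun n => lv (s n) := strictMono_nat_of_lt_succ fun n => by
    have := hp4 _ (hsQ n)
    rwa [← hs1] at this
  have hsb : ∀ n, b1 < lv (s n) := by
    intro n
    exact (hp4 _ hb1).trans_le (hsm.monotone (Nat.zero_le n))
  obtain ⟨b2, hb2, hb2'⟩ := hQ (fun n => lv (s n)) hsQ
  set E : Set (Sp D) := (P ∩ {w | lv w ≤ b2}) ∩ ({w | b1 < lv w} ∩ {w | rk w ≤ a}) with hE
  have hEc : IsCompact E :=
    (hcpt b2 hb2).inter_right ((closed_l_gt _).inter (closed_r_le _))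
  obtain ⟨t, ht1, ht2, ht3⟩ := hEc.elim_finite_subcover_image (b := E) (c := fun w => Nb w)
    (fun w _ => open_N w) (fun w hw => Set.mem_iUnion₂.2 ⟨w, hw, mem_N w⟩)
  have hEt : E ⊆ t := by
    intro v hv
    obtain ⟨w, hw, hvw⟩ := Set.mem_iUnion₂.1 (ht3 hv)
    rcases mem_le hvw with h | h
    · rw [h]; exact hw
    · exfalso
      have h1 : rk v < a := h.2.trans_le (ht1 hw).2.2
      have h2 := hb1' v hv.1.1 (hdown _ _ hv.1.2 hb2) h1
      exact absurd hv.2.1 (not_lt.2 h2)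
  have hinj : Function.Injective s := fun m n h => hsm.injective (congrArg lv h)
  apply Set.infinite_range_of_injective hinj
  refine (ht2.subset hEt).subset ?_
  rintro _ ⟨n, rfl⟩
  exact ⟨⟨hsP n, hb2' n⟩, hsb n, (hsr n).le⟩

/-- pseudocompact closed subsets are compact -/
theorem compact_of_pc [WellFoundedLT K] [WellFoundedLT W] [Nonempty K]
    (hN : ∀ f : ℕ → K, ∃ b, ∀ n, f n < b) (hW : ∀ a : W, ∃ b, a < b)
    (hcount : ∀ a : W, (Set.Iio a).Countable)
    (hlad : ∀ d, (∃ g, IsLad g d) → IsLad (D.L d) d)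
    (hS : ∀ R : ℕ → Set W, (∀ m, Unb (R m)) → ∃ s, s ∉ D.S ∧ (∃ g, IsLad g s) ∧
      ∀ m, Lim (R m) s)
    {P : Set (Sp D)} (hPc : IsClosed P) (hP : PC P) : IsCompact P := by
  obtain ⟨a, ha⟩ := rk_bdd hP hS
  obtain ⟨a0, ha0⟩ := hW a
  have ha0' : ∀ w ∈ P, rk w < a0 := fun w hw => (ha w hw).trans_lt ha0
  have hall : ∀ d : K, IsCompact (P ∩ {w | lv w ≤ d}) := by
    intro d
    induction d using WellFoundedLT.induction with
    | _ d ih =>
      by_cases h1 : ∃ w ∈ P, lv w < d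
      · by_cases hl : ∃ g, IsLad g d
        · have hd := hlad d hl
          obtain ⟨n0, F, hF, hFd, hcov⟩ := ladder_level hP hd
          exact compact_level hPc hP d {w | lv w ≤ D.L d n0} ⟨closed_l_le _, open_l_le _⟩
            (fun w hw => lt_of_le_of_lt hw (hd.2.1 n0)) (ih _ (hd.2.1 n0)) F hF hFd hcov
        · have hQ : ∀ f : ℕ → K, (∀ n, f n < d) → ∃ b, b < d ∧ ∀ n, f n ≤ b := by
            intro f hf
            by_contra hcon
            push Not at hcon
            exact hl (lad_of_cof hf hcon)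
          obtain ⟨w0, -, hw0⟩ := h1
          obtain ⟨e, he, he'⟩ := bdd_level hcount a0 ha0' (fun x => x < d)
            (fun a b hab hb => hab.trans_lt hb) ⟨lv w0, hw0⟩ hQ ih
          exact compact_level hPc hP d {w | lv w ≤ e} ⟨closed_l_le _, open_l_le _⟩
            (fun w hw => lt_of_le_of_lt hw he) (ih e he) ∅ Set.finite_empty (by simp)
            (fun w hw hwd => Or.inl (he' w hw hwd))
      · push Not at h1
        refine compact_level hPc hP d ∅ isClopen_empty (by simp) (by simp) ∅ Set.finite_empty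
          (by simp) (fun w hw hwd => absurd hwd (not_lt.2 (h1 w hw)))
  obtain ⟨k0⟩ := (inferInstance : Nonempty K)
  obtain ⟨e, -, he⟩ := bdd_level hcount a0 ha0' (fun _ => True) (fun _ _ _ _ => trivial)
    ⟨k0, trivial⟩ (fun f _ => by
      obtain ⟨b, hb⟩ := hN f
      exact ⟨b, trivial, fun n => (hb n).le⟩) (fun e _ => hall e)
  have : P = P ∩ {w | lv w ≤ e} := by
    ext w
    exact ⟨fun h => ⟨h, he w h trivial⟩, fun h => h.1⟩
  rw [this]
  exact hall e

end Pool.Agent.Helper416.AR
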