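import Pool.Agent.Helper416.AR4

set_option autoImplicit false

namespace Pool.Agent.Helper416.AR

/-! ### large closed sets form a free ultrafilter of closed sets -/

variable {K W : Type} [LinearOrder K] [LinearOrder W] {D : Dat K W}

/-- large sets -/
def Large (T : Set (Sp D)) : Prop := Unb {a : W | Unb {k : K | ∃ z ∈ T, rk z = a ∧ lv z = k}}

/-- countably many large closed sets have a common point -/
theorem large_inter [WellFoundedLT K]
    (hN : ∀ f : ℕ → K, ∃ b, ∀ n, f n < b) (hWK : ∀ f : W → K, ∃ b, ∀ i, f i < b)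
    (hguess : ∀ E : Set K, Club E → ∃ d, IsLad (D.L d) d ∧ ∀ n, D.L d n ∈ E)
    (hS : ∀ R : ℕ → Set W, (∀ m, Unb (R m)) → ∃ s ∈ D.S, (∃ g, IsLad g s) ∧
      ∀ m, Lim (R m) s)
    (hg : ∀ (d : K) (y : ℕ → ℕ → Pt K W), (∀ j n, (y j n).l < d) → ∃ c, D.g d c = y)
    (T : ℕ → Set (Sp D)) (hTc : ∀ m, IsClosed (T m)) (hT : ∀ m, Large (T m)) :
    ∃ z, ∀ m, z ∈ T m := by
  classical
  set R : ℕ → Set W := fun m => {a | Unb {k : K | ∃ z ∈ T m, rk z = a ∧ lv z = k}} with hR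
  obtain ⟨s, hsS, ⟨g, hgl⟩, hlim⟩ := hS R hT
  -- the club of common limits
  set A : ℕ × W → Set K := fun p =>
    if p.2 ∈ R p.1 then {k : K | ∃ z ∈ T p.1, rk z = p.2 ∧ lv z = k} else Set.univ with hA
  have hAu : ∀ p, Unb (A p) := by
    intro p
    rw [hA]
    simp only
    split_ifs with h
    · exact h
    · exact (club_univ hN).1
  have hJ : ∀ f : ℕ × W → K, ∃ b, ∀ i, f i < b := by
    intro f
    choose b hb using fun n => hWK (fun a => f (n, a))
    obtain ⟨b', hb'⟩ := hN b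
    exact ⟨b', fun i => (hb i.1 i.2).trans (hb' i.1)⟩
  obtain ⟨d, hd, hdE⟩ := hguess _ (club_lim hJ hN A hAu)
  -- ranks
  have hpick : ∀ m b, b < s → ∃ x ∈ R m, b < x ∧ x < s := fun m b hb => (hlim m).2 b hb
  choose! p hp1 hp2 hp3 using hpick
  set mm : ℕ → ℕ := fun j => (Nat.unpair j).1 with hmm
  set al : ℕ → W := fun n =>
    Nat.rec (p (mm 0) (g 0)) (fun n y => p (mm (n + 1)) (max y (g (n + 1)))) n with hal
  have hal0 : al 0 = p (mm 0) (g 0) := rfl
  have hal1 : ∀ n, al (n + 1) = p (mm (n + 1)) (max (al n) (g (n + 1))) := fun n => rfl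
  have hals : ∀ n, al n < s := by
    intro n
    induction n with
    | zero => rw [hal0]; exact hp3 _ _ (hgl.2.1 0)
    | succ n ih => rw [hal1]; exact hp3 _ _ (max_lt ih (hgl.2.1 _))
  have halR : ∀ n, al n ∈ R (mm n) := by
    intro n
    cases n with
    | zero => rw [hal0]; exact hp1 _ _ (hgl.2.1 0)
    | succ n => rw [hal1]; exact hp1 _ _ (max_lt (hals n) (hgl.2.1 _))
  have halm : StrictMono al := strictMono_nat_of_lt_succ fun n => by
    rw [hal1]
    exact (le_max_left _ _).trans_lt (hp2 _ _ (max_lt (hals n) (hgl.2.1 _)))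
  have halg : ∀ n, g n < al n := by
    intro n
    cases n with
    | zero => rw [hal0]; exact hp2 _ _ (hgl.2.1 0)
    | succ n => rw [hal1]; exact (le_max_right _ _).trans_lt (hp2 _ _ (max_lt (hals n) (hgl.2.1 _)))
  -- the points
  have hy : ∀ j n, ∃ y : Sp D, y ∈ T (mm j) ∧ rk y = al j ∧ D.L d n < lv y ∧
      lv y < D.L d (n + 1) := by
    intro j n
    have h1 : Lim (A (mm j, al j)) (D.L d (n + 1)) := hdE (n + 1) (mm j, al j)
    obtain ⟨k, hk, h2, h3⟩ := h1.2 (D.L d n) (hd.1 (Nat.lt_succ_self n))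
    rw [hA] at hk
    simp only at hk
    rw [if_pos (halR j)] at hk
    obtain ⟨z, hz, hzr, hzk⟩ := hk
    exact ⟨z, hz, hzr, hzk ▸ h2, hzk ▸ h3⟩
  choose y hy1 hy2 hy3 hy4 using hy
  obtain ⟨c, hc⟩ := hg d y fun j n => (hy4 j n).trans (hd.2.1 _)
  set z : Sp D := (⟨d, s, c⟩ : Pt K W) with hz
  have hxs : ∀ j, xs z j = y j (cd c j) := by
    intro j
    show D.g d c j (cd c j) = _
    rw [hc]
  have hgood : Good z := by
    refine ⟨hd, hsS, fun j => ?_, fun j => ?_, ?_, fun j => ?_, fun a ha => ?_⟩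
    · rw [hxs]; exact hy3 _ _
    · rw [hxs]; exact (hy4 _ _).le
    · have : (fun j => rk (xs z j)) = al := by
        funext j
        rw [hxs, hy2]
      rw [this]
      exact halm
    · rw [hxs, hy2]; exact hals j
    · obtain ⟨n, hn⟩ := hgl.2.2 a ha
      refine ⟨n, ?_⟩
      rw [hxs, hy2]
      exact hn.trans (halg n)
  refine ⟨z, fun m => ?_⟩
  rw [← (hTc m).closure_eq, mem_closure_iff]
  intro O hO hzO
  obtain ⟨m0, hm0⟩ := hO z hzO hgood
  have hj : m0 ≤ Nat.pair m m0 := Nat.right_le_pair m m0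
  refine ⟨xs z (Nat.pair m m0), hm0 _ hj ⟨Mem.refl _, hgood.lo _, fun i hi => hgood.rmono hi⟩, ?_⟩
  rw [hxs]
  have : mm (Nat.pair m m0) = m := by rw [hmm]; simp
  have h5 := hy1 (Nat.pair m m0) (cd c (Nat.pair m m0))
  rwa [this] at h5

theorem closed_tail (a : W) (b : K) : IsClosed {w : Sp D | a < rk w ∧ b < lv w} :=
  (closed_r_gt a).inter (closed_l_gt b)

theorem large_tail (hK : ∀ a : K, ∃ b, a < b) (hW : ∀ a : W, ∃ b, a < b) (a : W) (b : K) :
    Large {w : Sp D | a < rk w ∧ b < lv w} := by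
  intro a1
  obtain ⟨a2, ha2⟩ := hW (max a a1)
  refine ⟨a2, ?_, (le_max_right _ _).trans_lt ha2⟩
  intro k
  obtain ⟨k2, hk2⟩ := hK (max b k)
  refine ⟨k2, ⟨(⟨k2, a2, fun _ => false⟩ : Pt K W), ⟨?_, ?_⟩, rfl, rfl⟩, ?_⟩
  · exact (le_max_left _ _).trans_lt ha2
  · exact (le_max_left _ _).trans_lt hk2
  · exact (le_max_right _ _).trans_lt hk2

/-- a set that is not large misses a large closed set -/
theorem not_large [Nonempty K] (hK : ∀ a : K, ∃ b, a < b) (hW : ∀ a : W, ∃ b, a < b)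
    (hWK : ∀ f : W → K, ∃ b, ∀ i, f i < b) (T : Set (Sp D)) (hT : ¬ Large T) :
    ∃ F : Set (Sp D), IsClosed F ∧ Large F ∧ ∀ z ∈ T, z ∉ F := by
  classical
  unfold Large Unb at hT
  push Not at hT
  obtain ⟨a0, ha0⟩ := hT
  have h1 : ∀ a : W, ∃ k : K, a0 < a → ∀ z ∈ T, rk z = a → lv z ≤ k := by
    intro a
    by_cases ha : a0 < a
    · by_contra hcon
      push Not at hcon
      apply absurd (ha0 a ?_) (not_le.2 ha)
      intro k
      obtain ⟨-, z, hz, hza, hlt⟩ := hcon k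
      exact ⟨lv z, ⟨z, hz, hza, rfl⟩, hlt⟩
    · exact ⟨Classical.arbitrary K, fun h => absurd h ha⟩
  choose k hk using h1
  obtain ⟨b, hb⟩ := hWK k
  refine ⟨_, closed_tail a0 b, large_tail hK hW a0 b, ?_⟩
  rintro z hz ⟨h2, h3⟩
  exact absurd ((hk (rk z) h2 z hz rfl).trans_lt (hb _)) (not_lt.2 h3.le)

end Pool.Agent.Helper416.AR
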