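import Pool.Agent.Helper416.AR6
import Pool.Agent.Helper416.AR7

set_option autoImplicit false

namespace Pool.Agent.Helper416.AR

open Topology

/-! ### the compactification -/

variable {K W : Type} [LinearOrder K] [LinearOrder W]

/-- all properties of the data used in the proof -/
structure Dat.OK (D : Dat K W) : Prop where
  neK : Nonempty K
  hN : ∀ f : ℕ → K, ∃ b, ∀ n, f n < b
  hWK : ∀ f : W → K, ∃ b, ∀ i, f i < b
  hW : ∀ a : W, ∃ b, a < b
  count : ∀ a : W, (Set.Iio a).Countable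
  lad : ∀ d, (∃ g, IsLad g d) → IsLad (D.L d) d
  guess : ∀ E : Set K, Club E → ∃ d, IsLad (D.L d) d ∧ ∀ n, D.L d n ∈ E
  S1 : ∀ R : ℕ → Set W, (∀ m, Unb (R m)) → ∃ s ∈ D.S, (∃ g, IsLad g s) ∧ ∀ m, Lim (R m) s
  S2 : ∀ R : ℕ → Set W, (∀ m, Unb (R m)) → ∃ s, s ∉ D.S ∧ (∃ g, IsLad g s) ∧ ∀ m, Lim (R m) s
  hg : ∀ (d : K) (y : ℕ → ℕ → Pt K W), (∀ j n, (y j n).l < d) → ∃ c, D.g d c = y

variable {D : Dat K W}

theorem loc_const_bdd {X : Type} [TopologicalSpace X] {P : Set X}
    (hP : ∀ f : P → ℝ, Continuous f → ∃ M : ℝ, ∀ x : P, |f x| ≤ M) (φ : X → ℕ)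
    (hφ : ∀ x ∈ P, ∃ O : Set X, IsOpen O ∧ x ∈ O ∧ ∀ y ∈ O, y ∈ P → φ y = φ x) :
    ∃ M, ∀ x ∈ P, φ x ≤ M := by
  have h1 : IsLocallyConstant (fun x : P => (φ x : ℝ)) := by
    rw [IsLocallyConstant.iff_exists_open]
    intro x
    obtain ⟨O, hO, hxO, h⟩ := hφ x x.2
    refine ⟨Subtype.val ⁻¹' O, hO.preimage continuous_subtype_val, hxO, fun y hy => ?_⟩
    rw [h y hy y.2]
  obtain ⟨M, hM⟩ := hP _ h1.continuous
  obtain ⟨n, hn⟩ := exists_nat_ge M
  refine ⟨n, fun x hx => ?_⟩
  have := (le_abs_self _).trans ((hM ⟨x, hx⟩).trans hn)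
  exact_mod_cast this

/-- pseudocompact subspaces of the compactification are compact -/
theorem compact_of_pseudo [WellFoundedLT K] [WellFoundedLT W] (hD : D.OK)
    (P : Set (OnePoint (Sp D)))
    (hP : ∀ f : P → ℝ, Continuous f → ∃ M : ℝ, ∀ x : P, |f x| ≤ M) : IsCompact P := by
  classical
  have := hD.neK
  set P0 : Set (Sp D) := (fun z : Sp D => (z : OnePoint (Sp D))) ⁻¹' P with hP0
  have hemb : IsOpenEmbedding (fun z : Sp D => (z : OnePoint (Sp D))) :=
    OnePoint.isOpenEmbedding_coe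
  -- `P0` is closed
  have hclosed : IsClosed P0 := by
    rw [← closure_subset_iff_isClosed]
    intro z hz
    by_contra hzP
    have hgood : Good z := by
      by_contra hbad
      rw [mem_closure_iff] at hz
      obtain ⟨w, hw1, hw2⟩ := hz {z} (open_single hbad) rfl
      rw [Set.mem_singleton_iff] at hw1
      exact hzP (hw1 ▸ hw2)
    set V : ℕ → Set (Sp D) := fun n => Nb z ∩ Wn (D.L (lv z)) n with hV
    have hVo : ∀ n, IsClopen (V n) := fun n =>
      IsClopen.inter ⟨closed_N z, open_N z⟩ (clopen_Wn _ _)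
    have hVu : ∀ w n m, w ∈ V n → w ∈ V m → n = m := fun w n m h1 h2 =>
      lad_idx hgood.lad.1 h1.2.1 h1.2.2 h2.2.1 h2.2.2
    set φ : OnePoint (Sp D) → ℕ := fun x =>
      if h : ∃ n, ∃ w ∈ V n, (w : OnePoint (Sp D)) = x then Nat.find h else 0 with hφ
    have hval : ∀ n, ∀ w ∈ V n, φ (w : OnePoint (Sp D)) = n := by
      intro n w hw
      have h : ∃ n, ∃ w' ∈ V n, (w' : OnePoint (Sp D)) = w := ⟨n, w, hw, rfl⟩
      rw [hφ]
      simp only
      rw [dif_pos h]
      obtain ⟨w', hw', he⟩ := Nat.find_spec h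
      have : w' = w := OnePoint.coe_injective he
      subst this
      exact hVu w' _ _ hw' hw
    have hval0 : ∀ x, (∀ n, ∀ w ∈ V n, (w : OnePoint (Sp D)) ≠ x) → φ x = 0 := by
      intro x hx
      rw [hφ]
      simp only
      rw [dif_neg]
      rintro ⟨n, w, hw, he⟩
      exact hx n w hw he
    obtain ⟨M, hM⟩ := loc_const_bdd hP φ (by
      intro x hx
      by_cases h : ∃ n, ∃ w ∈ V n, (w : OnePoint (Sp D)) = x
      · obtain ⟨n, w, hw, rfl⟩ := h
        refine ⟨_, hemb.isOpenMap _ (hVo n).isOpen, ⟨w, hw, rfl⟩, ?_⟩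
        rintro _ ⟨v, hv, rfl⟩ _
        rw [hval n v hv, hval n w hw]
      · push Not at h
        refine ⟨((fun z : Sp D => (z : OnePoint (Sp D))) '' Nb z)ᶜ, ?_, ?_, ?_⟩
        · exact ((compact_N z).image hemb.continuous).isClosed.isOpen_compl
        · rintro ⟨w, hw, rfl⟩
          have hwP : w ∈ P0 := hx
          rcases mem_cases hw with rfl | ⟨-, j, hj⟩
          · exact hzP hwP
          · exact h (cd (bc z) j) w ⟨hw, hj.2.1, B_hi hgood hj⟩ rfl
        · intro y hy _
          rw [hval0 x h]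
          apply hval0
          rintro n w hw rfl
          exact hy ⟨w, hw.1, rfl⟩)
    obtain ⟨m, hm⟩ := cd_large (bc z) M
    rw [mem_closure_iff] at hz
    obtain ⟨w, hw1, hw2⟩ := hz (Ub z m) (open_U m) (mem_U z m)
    rcases hw1 with rfl | ⟨j, hj, hw⟩
    · exact hzP hw2
    · have h1 := hM _ hw2
      have h2 : w ∈ V (cd (bc z) j) := ⟨B_sub hgood j hw, hw.2.1, B_hi hgood hw⟩
      rw [hval _ w h2] at h1
      exact absurd (hm j hj) (not_lt.2 h1)
  by_cases hinf : (OnePoint.infty : OnePoint (Sp D)) ∈ P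
  · have : IsClosed P := by
      rw [← isOpen_compl_iff, OnePoint.isOpen_iff_of_notMem (by simpa using hinf)]
      exact hclosed.isOpen_compl
    exact this.isCompact
  · have hPe : P = (fun z : Sp D => (z : OnePoint (Sp D))) '' P0 := by
      ext x
      constructor
      · intro hx
        induction x using OnePoint.rec with
        | infty => exact absurd hx hinf
        | coe z => exact ⟨z, hx, rfl⟩
      · rintro ⟨z, hz, rfl⟩
        exact hz
    have hPC : PC P0 := by
      intro φ hφ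
      set ψ : OnePoint (Sp D) → ℕ := fun x =>
        if h : ∃ z : Sp D, (z : OnePoint (Sp D)) = x then φ h.choose else 0 with hψ
      have hval : ∀ z : Sp D, ψ (z : OnePoint (Sp D)) = φ z := by
        intro z
        have h : ∃ z' : Sp D, (z' : OnePoint (Sp D)) = z := ⟨z, rfl⟩
        rw [hψ]
        simp only
        rw [dif_pos h]
        rw [OnePoint.coe_injective h.choose_spec]
      obtain ⟨M, hM⟩ := loc_const_bdd hP ψ (by
        intro x hx
        rw [hPe] at hx
        obtain ⟨z, hz, rfl⟩ := hx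
        obtain ⟨O, hO, hzO, h⟩ := hφ z hz
        refine ⟨_, hemb.isOpenMap _ hO, ⟨z, hzO, rfl⟩, ?_⟩
        rintro _ ⟨w, hw, rfl⟩ hwP
        simp only
        rw [hval, hval]
        exact h w hw hwP)
      refine ⟨M, fun w hw => ?_⟩
      rw [← hval]
      exact hM _ hw
    rw [hPe]
    exact (compact_of_pc hD.hN hD.hW hD.count hD.lad hD.S2 hclosed hPC).image hemb.continuous

/-- the space is not hereditarily alpha-realcompact -/
theorem not_alpha [WellFoundedLT K] [WellFoundedLT W] (hD : D.OK) :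
    ¬ (∀ S : Set (OnePoint (Sp D)), ∀ F : Set (Set S),
          Maximal (fun G : Set (Set S) =>
              (∀ A ∈ G, IsClosed A) ∧
              ∀ H : Finset (Set S), (↑H : Set (Set S)) ⊆ G →
                (⋂₀ (↑H : Set (Set S))).Nonempty) F →
          (∀ H : Set (Set S), H ⊆ F → H.Countable → (⋂₀ H).Nonempty) →
          (⋂₀ F).Nonempty) := by
  classical
  have := hD.neK
  have hK : ∀ a : K, ∃ b, a < b := fun a => by
    obtain ⟨b, hb⟩ := hD.hN (fun _ => a)
    exact ⟨b, hb 0⟩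
  intro hcon
  have hemb : IsOpenEmbedding (fun z : Sp D => (z : OnePoint (Sp D))) :=
    OnePoint.isOpenEmbedding_coe
  set S : Set (OnePoint (Sp D)) := Set.range (fun z : Sp D => (z : OnePoint (Sp D))) with hS
  set e : Sp D ≃ₜ S := hemb.isEmbedding.toHomeomorph with he
  set F : Set (Set S) := {A | IsClosed A ∧ Large (e ⁻¹' A)} with hF
  have hcount : ∀ H : Set (Set S), H ⊆ F → H.Countable → (⋂₀ H).Nonempty := by
    intro H hH hc
    rcases H.eq_empty_or_nonempty with rfl | hne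
    · obtain ⟨a⟩ : Nonempty W := by
        obtain ⟨s, -, -⟩ := hD.S1 (fun _ => Set.univ) (fun _ a => by
          obtain ⟨b, hb⟩ := hD.hW a
          exact ⟨b, trivial, hb⟩)
        exact ⟨s⟩
      rw [Set.sInter_empty]
      exact ⟨e (⟨Classical.arbitrary K, a, fun _ => false⟩ : Pt K W), trivial⟩
    · obtain ⟨T, rfl⟩ := hc.exists_eq_range hne
      obtain ⟨z, hz⟩ := large_inter hD.hN hD.hWK hD.guess hD.S1 hD.hg (fun m => e ⁻¹' (T m))
        (fun m => (hH ⟨m, rfl⟩).1.preimage e.continuous) (fun m => (hH ⟨m, rfl⟩).2)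
      refine ⟨e z, ?_⟩
      rintro _ ⟨m, rfl⟩
      exact hz m
  have hmem : ∀ F0 : Set (Sp D), IsClosed F0 → Large F0 → e.symm ⁻¹' F0 ∈ F := by
    intro F0 h1 h2
    refine ⟨h1.preimage e.symm.continuous, ?_⟩
    have : e ⁻¹' (e.symm ⁻¹' F0) = F0 := by
      ext z; simp
    rw [this]
    exact h2
  have hmax : Maximal (fun G : Set (Set S) =>
              (∀ A ∈ G, IsClosed A) ∧
              ∀ H : Finset (Set S), (↑H : Set (Set S)) ⊆ G →
                (⋂₀ (↑H : Set (Set S))).Nonempty) F := by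
    refine ⟨⟨fun A hA => hA.1, fun H hH => hcount _ hH H.countable_toSet⟩, ?_⟩
    intro G hG hFG A hA
    refine ⟨hG.1 A hA, ?_⟩
    by_contra hL
    obtain ⟨F0, h1, h2, h3⟩ := not_large hK hD.hW hD.hWK _ hL
    have h4 := hFG (hmem F0 h1 h2)
    obtain ⟨x, hx⟩ := hG.2 {A, e.symm ⁻¹' F0} (by
      intro B hB
      rw [Finset.coe_insert, Finset.coe_singleton] at hB
      rcases hB with rfl | hB
      · exact hA
      · rw [Set.mem_singleton_iff] at hB
        rw [hB]
        exact h4)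
    have hx1 : x ∈ A := hx A (by simp)
    have hx2 : x ∈ e.symm ⁻¹' F0 := hx _ (by simp)
    exact h3 (e.symm x) (by
      show e (e.symm x) ∈ A
      rwa [e.apply_symm_apply]) hx2
  obtain ⟨x, hx⟩ := hcon S F hmax hcount
  have h5 := hx _ (hmem _ (closed_tail (rk (e.symm x)) (lv (e.symm x)))
    (large_tail hK hD.hW _ _))
  exact lt_irrefl _ (show rk (e.symm x) < rk (e.symm x) from h5.1)

end Pool.Agent.Helper416.AR
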