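import Pool.Agent.Helper416.AR8

set_option autoImplicit false

namespace Pool.Agent.Helper416.AR

open Cardinal

/-! ### existence of the data -/

set_option linter.deprecated false in
theorem exists_reg (μ : Cardinal.{0}) (hμ : ℵ₀ ≤ μ) :
    ∃ (A : Type) (_ : LinearOrder A) (_ : WellFoundedLT A), Nonempty A ∧ #A = Order.succ μ ∧
      (∀ a : A, #(Set.Iio a) ≤ μ) ∧
      ∀ (I : Type) (f : I → A), #I ≤ μ → ∃ b, ∀ i, f i < b := by
  let A := (Order.succ μ).ord.ToType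
  have hA : #A = Order.succ μ := mk_ord_toType _
  have hne : Nonempty A := by
    rw [← mk_ne_zero_iff, hA]
    exact (Order.succ_ne_bot μ)
  have hI : ∀ a : A, #(Set.Iio a) ≤ μ := fun a =>
    Order.lt_succ_iff.1 (mk_Iio_toType_ord_lt a)
  have hI' : ∀ a : A, #(Set.Iic a) ≤ μ := fun a => by
    rw [← Set.Iio_insert]
    refine (mk_insert_le).trans ?_
    exact add_le_of_le hμ (hI a) (one_le_aleph0.trans hμ)
  refine ⟨A, inferInstance, inferInstance, hne, hA, hI, ?_⟩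
  intro I f hIμ
  by_contra hcon
  push Not at hcon
  have h1 : (Set.univ : Set A) ⊆ ⋃ i, Set.Iic (f i) := by
    intro b _
    obtain ⟨i, hi⟩ := hcon b
    exact Set.mem_iUnion.2 ⟨i, hi⟩
  have h2 : #A ≤ μ := by
    rw [← mk_univ]
    refine (mk_le_mk_of_subset h1).trans ?_
    refine (mk_iUnion_le _).trans ?_
    refine (mul_le_mul' hIμ (ciSup_le' fun i => hI' (f i))).trans ?_
    exact (mul_eq_self hμ).le
  rw [hA] at h2
  exact absurd h2 (not_le.2 (Order.lt_succ μ))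

theorem mk_pi_le {X : Type} (h : #X ≤ 𝔠) : #(ℕ → X) ≤ 𝔠 := by
  rw [← power_def]
  calc #X ^ #ℕ ≤ 𝔠 ^ #ℕ := power_le_power_right h
    _ = 𝔠 := by rw [mk_nat, continuum_power_aleph0]

theorem mk_prod_le {X Y : Type} (h : #X ≤ 𝔠) (h' : #Y ≤ 𝔠) : #(X × Y) ≤ 𝔠 := by
  rw [mk_prod, lift_id, lift_id]
  exact (mul_le_mul' h h').trans continuum_mul_self.le

theorem mk_cantor : #(ℕ → Bool) = 𝔠 := by
  rw [← power_def]
  simp

theorem exists_dat : ∃ (K W : Type) (_ : LinearOrder K) (_ : LinearOrder W)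
    (_ : WellFoundedLT K) (_ : WellFoundedLT W) (D : Dat K W), D.OK := by
  classical
  obtain ⟨W, i1, i2, hW1, hW2, hW3, hW4⟩ := exists_reg ℵ₀ le_rfl
  obtain ⟨K, j1, j2, hK1, hK2, hK3, hK4⟩ := exists_reg 𝔠 aleph0_le_continuum
  have hWc : #W ≤ 𝔠 := by
    rw [hW2]
    exact Order.succ_le_of_lt aleph0_lt_continuum
  obtain ⟨b, hb⟩ : ∃ b : W → ℕ → Bool, Function.Injective b := by
    rw [← mk_cantor] at hWc
    obtain ⟨f⟩ := hWc
    exact ⟨f, f.injective⟩
  have hWN : ∀ f : ℕ → W, ∃ b, ∀ n, f n < b := fun f => hW4 ℕ f (by simp)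
  have hKN : ∀ f : ℕ → K, ∃ b, ∀ n, f n < b := fun f =>
    hK4 ℕ f (by rw [mk_nat]; exact aleph0_le_continuum)
  have hWK : ∀ f : W → K, ∃ b, ∀ i, f i < b := fun f => hK4 W f hWc
  obtain ⟨S, hS1, hS2⟩ := bistat hWN b hb
  obtain ⟨L, hL1, hL2⟩ := club_guess (W := W) hWK hKN hWN
  have hg : ∀ d : K, ∃ g : (ℕ → Bool) → ℕ → ℕ → Pt K W,
      ∀ y : ℕ → ℕ → Pt K W, (∀ j n, (y j n).l < d) → ∃ c, g c = y := by
    intro d
    have h1 : #{p : Pt K W // p.l < d} ≤ 𝔠 := by
      have h2 : #(Set.Iio d × W × (ℕ → Bool)) ≤ 𝔠 :=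
        mk_prod_le (hK3 d) (mk_prod_le hWc mk_cantor.le)
      refine le_trans ?_ h2
      refine mk_le_of_injective (f := fun p => (⟨p.1.l, p.2⟩, p.1.r, p.1.c)) ?_
      intro p q he
      apply Subtype.ext
      have e1 : p.1.l = q.1.l := congrArg Subtype.val (congrArg Prod.fst he)
      have e2 : p.1.r = q.1.r := congrArg Prod.fst (congrArg Prod.snd he)
      have e3 : p.1.c = q.1.c := congrArg Prod.snd (congrArg Prod.snd he)
      exact Pt.ext e1 e2 e3
    have h3 : #(ℕ → ℕ → {p : Pt K W // p.l < d}) ≤ #(ℕ → Bool) := by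
      rw [mk_cantor]
      exact mk_pi_le (mk_pi_le h1)
    obtain ⟨ι⟩ := h3
    refine ⟨fun c => if h : ∃ y, ι y = c then fun j n => (h.choose j n).1 else
      fun _ _ => ⟨d, Classical.choice hW1, c⟩, ?_⟩
    intro y hy
    refine ⟨ι fun j n => ⟨y j n, hy j n⟩, ?_⟩
    have h : ∃ y', ι y' = ι fun j n => ⟨y j n, hy j n⟩ := ⟨_, rfl⟩
    simp only
    rw [dif_pos h]
    have := ι.injective h.choose_spec
    rw [this]
  choose g hg using hg
  refine ⟨K, W, j1, i1, j2, i2, ⟨S, L, g⟩, ?_⟩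
  exact
    { neK := hK1
      hN := hKN
      hWK := hWK
      hW := fun a => by
        obtain ⟨b, hb⟩ := hWN (fun _ => a)
        exact ⟨b, hb 0⟩
      count := fun a => by
        have := hW3 a
        rwa [mk_le_aleph0_iff, ← Set.countable_coe_iff] at *
      lad := hL1
      guess := hL2
      S1 := hS1
      S2 := hS2
      hg := hg }

theorem main :
    ∃ (X : Type) (_ : TopologicalSpace X), CompactSpace X ∧ T2Space X ∧
      (∀ S : Set X,
        (∀ f : S → ℝ, Continuous f → ∃ M : ℝ, ∀ x : S, |f x| ≤ M) → IsCompact S) ∧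
      ¬ (∀ S : Set X, ∀ F : Set (Set S),
          Maximal (fun G : Set (Set S) =>
              (∀ A ∈ G, IsClosed A) ∧
              ∀ H : Finset (Set S), (↑H : Set (Set S)) ⊆ G →
                (⋂₀ (↑H : Set (Set S))).Nonempty) F →
          (∀ H : Set (Set S), H ⊆ F → H.Countable → (⋂₀ H).Nonempty) →
          (⋂₀ F).Nonempty) := by
  obtain ⟨K, W, i1, i2, i3, i4, D, hD⟩ := exists_dat
  exact ⟨OnePoint (Sp D), inferInstance, inferInstance, inferInstance, compact_of_pseudo hD,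
    not_alpha hD⟩

end Pool.Agent.Helper416.AR
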