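import Mathlib
import Pool.Agent.Helper135.MS5
set_option autoImplicit false
namespace Pool.Agent.Helper416.MSU
open Finset Pool.Agent.Helper135.MS

variable {V : Type*} [Fintype V] [DecidableEq V] {G : SimpleGraph V} [DecidableRel G.Adj]

/-- certificate: `N(b) ∩ N(t) = {a}`, `b` and `t` not adjacent -/
def C2 (G : SimpleGraph V) (b a t : V) : Prop :=
  G.Adj a t ∧ ¬ G.Adj b t ∧ b ≠ t ∧ ∀ x, G.Adj b x → G.Adj x t → x = a

/-- demand units -/
def TT (G : SimpleGraph V) [DecidableRel G.Adj] (v : V) : Finset (V × V × V) :=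
  (Wf G v ×ˢ (Wf G v ×ˢ G.neighborFinset v)).filter (fun s => G.Adj s.1 s.2.1)

def UU (G : SimpleGraph V) [DecidableRel G.Adj] (v : V) (K : Finset (V × V)) : Finset (V × V) :=
  (G.neighborFinset v ×ˢ Wf G v).filter (fun p => ¬ G.Adj p.1 p.2 ∧ p ∉ K)

/-- discharging relation -/
def RR (G : SimpleGraph V) [DecidableRel G.Adj] (v : V) (K : Finset (V × V)) (z : V × V → V)
    (s : V × V × V) (p : V × V) : Prop :=
  (s.1 = p.2 ∧ s.2.2 = p.1) ∨
  (s.2.1 = p.2 ∧ ((s.2.2 = p.1 ∧ (p.1, s.1) ∈ K) ∨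
    ((s.2.2, s.1) ∈ K ∧ (s.2.2, p.2) ∈ K ∧ z (s.2.2, s.1) = p.1))) ∨
  (s.2.1 = p.2 ∧ s.2.2 = p.1 ∧ G.Adj s.1 p.1) ∨
  (s.2.2 = p.1 ∧ G.Adj s.1 p.1 ∧ G.Adj s.2.1 p.1 ∧ C2 G s.1 s.2.1 p.2) ∨
  (s.2.2 = p.1 ∧ G.Adj s.1 p.1 ∧ G.Adj s.2.1 p.1 ∧ C2 G s.2.1 s.1 p.2) ∨
  (G.Adj s.1 s.2.2 ∧ G.Adj s.2.1 s.2.2 ∧ (∀ t ∈ Wf G v, ¬ C2 G s.1 s.2.1 t ∧ ¬ C2 G s.2.1 s.1 t) ∧
    ((s.1 = p.2 ∧ C2 G s.1 s.2.1 p.1) ∨ (s.2.1 = p.2 ∧ C2 G s.2.1 s.1 p.1)))

lemma mem_TT {v w w' y : V} : (w, w', y) ∈ TT G v ↔ w ∈ Wf G v ∧ w' ∈ Wf G v ∧ G.Adj v y ∧ G.Adj w w' := by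
  simp only [TT, mem_filter, mem_product, SimpleGraph.mem_neighborFinset]
  tauto

lemma mem_UU {v y w : V} {K : Finset (V × V)} :
    (y, w) ∈ UU G v K ↔ G.Adj v y ∧ w ∈ Wf G v ∧ ¬ G.Adj y w ∧ (y, w) ∉ K := by
  simp only [UU, mem_filter, mem_product, SimpleGraph.mem_neighborFinset]
  tauto

lemma not_far {v x : V} (hx : x ∈ Wf G v) : ¬ G.Adj v x := by
  simp only [Wf, mem_filter] at hx
  exact hx.2.2

lemma exists_target (hc : CritC G) {v : V} {K : Finset (V × V)} {z : V × V → V} (hg : Good G v K z)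
    (s : V × V × V) (hs : s ∈ TT G v) : ∃ p ∈ UU G v K, RR G v K z s p := by
  obtain ⟨w, w', y⟩ := s
  rw [mem_TT] at hs
  obtain ⟨hw, hw', hy, hadj⟩ := hs
  by_cases h1 : G.Adj w y
  · by_cases h2 : G.Adj w' y
    · rcases hc w w' hadj with h | ⟨t, ht⟩
      · exact absurd ⟨h1, h2.symm⟩ (h y)
      · have ht' : C2 G w w' t ∨ C2 G w' w t := by
          rcases ht with ⟨a1, a2, a3, a4⟩ | ⟨a1, a2, a3, a4⟩
          · exact Or.inl ⟨a1, a2, a3, a4⟩
          · exact Or.inr ⟨a1, a2, a3, a4⟩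
        by_cases hII : ∃ t ∈ Wf G v, C2 G w w' t ∨ C2 G w' w t
        · obtain ⟨t, htW, hC⟩ := hII
          refine ⟨(y, t), ?_, ?_⟩
          · rw [mem_UU]
            refine ⟨hy, htW, ?_, ?_⟩
            · intro hyt
              rcases hC with ⟨a1, a2, a3, a4⟩ | ⟨a1, a2, a3, a4⟩
              · have := a4 y h1 hyt
                subst this
                exact not_far hw' hy
              · have := a4 y h2 hyt
                subst this
                exact not_far hw hy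
            · intro hK
              rcases hC with ⟨a1, a2, a3, a4⟩ | ⟨a1, a2, a3, a4⟩
              · exact K_not_adj hg hK hw' a1.symm h2
              · exact K_not_adj hg hK hw a1.symm h1
          · rcases hC with hC | hC
            · exact Or.inr (Or.inr (Or.inr (Or.inl ⟨rfl, h1, h2, hC⟩)))
            · exact Or.inr (Or.inr (Or.inr (Or.inr (Or.inl ⟨rfl, h1, h2, hC⟩))))
        · have hno : ∀ t ∈ Wf G v, ¬ C2 G w w' t ∧ ¬ C2 G w' w t := by
            intro t ht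
            exact ⟨fun h => hII ⟨t, ht, Or.inl h⟩, fun h => hII ⟨t, ht, Or.inr h⟩⟩
          rcases ht' with hC | hC
          · have hvt : G.Adj v t := by
              by_contra hvt
              have htv : t ≠ v := by
                rintro rfl
                exact not_far hw' hC.1.symm
              exact (hno t (by simp [Wf, htv, hvt])).1 hC
            refine ⟨(t, w), ?_, ?_⟩
            · rw [mem_UU]
              refine ⟨hvt, hw, fun h => hC.2.1 h.symm, ?_⟩
              intro hK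
              exact K_not_adj hg hK hw' hadj hC.1
            · exact Or.inr (Or.inr (Or.inr (Or.inr (Or.inr ⟨h1, h2, hno, Or.inl ⟨rfl, hC⟩⟩))))
          · have hvt : G.Adj v t := by
              by_contra hvt
              have htv : t ≠ v := by
                rintro rfl
                exact not_far hw hC.1.symm
              exact (hno t (by simp [Wf, htv, hvt])).2 hC
            refine ⟨(t, w'), ?_, ?_⟩
            · rw [mem_UU]
              refine ⟨hvt, hw', fun h => hC.2.1 h.symm, ?_⟩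
              intro hK
              exact K_not_adj hg hK hw hadj.symm hC.1
            · exact Or.inr (Or.inr (Or.inr (Or.inr (Or.inr ⟨h1, h2, hno, Or.inr ⟨rfl, hC⟩⟩))))
    · refine ⟨(y, w'), ?_, ?_⟩
      · rw [mem_UU]
        refine ⟨hy, hw', fun h => h2 h.symm, ?_⟩
        intro hK
        exact K_not_adj hg hK hw hadj.symm h1
      · exact Or.inr (Or.inr (Or.inl ⟨rfl, rfl, h1⟩))
  · by_cases hK : (y, w) ∈ K
    · have a1 := K_not_adj hg hK hw' hadj
      by_cases hK' : (y, w') ∈ K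
      · refine ⟨(z (y, w), w'), ?_, ?_⟩
        · rw [mem_UU]
          refine ⟨hg.h4 _ _ hK, hw', ?_, ?_⟩
          · intro hzw
            have e1 := hg.h7 y w' hK' (z (y, w)) (hg.h5 _ _ hK) hzw
            have e2 := hg.h8 y w w' hK hK' e1
            subst e2
            exact G.loopless.irrefl _ hadj
          · intro hzK
            exact K_not_adj hg hzK hw hadj.symm (hg.h6 _ _ hK).symm
        · exact Or.inr (Or.inl ⟨rfl, Or.inr ⟨hK, hK', rfl⟩⟩)
      · refine ⟨(y, w'), ?_, ?_⟩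
        · rw [mem_UU]
          exact ⟨hy, hw', fun h => a1 h.symm, hK'⟩
        · exact Or.inr (Or.inl ⟨rfl, Or.inl ⟨rfl, hK⟩⟩)
    · refine ⟨(y, w), ?_, ?_⟩
      · rw [mem_UU]
        exact ⟨hy, hw, fun h => h1 h.symm, hK⟩
      · exact Or.inl ⟨rfl, rfl⟩

end Pool.Agent.Helper416.MSU
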