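import Mathlib
import Pool.Agent.Helper416.MSU
set_option autoImplicit false
namespace Pool.Agent.Helper416.MSU
open Finset Pool.Agent.Helper135.MS

variable {V : Type*} [Fintype V] [DecidableEq V] {G : SimpleGraph V} [DecidableRel G.Adj]

open Classical in
lemma fib1 {v y0 w0 : V} :
    #((TT G v).filter (fun s => s.1 = w0 ∧ s.2.2 = y0)) ≤ df G v w0 := by
  unfold df
  apply Finset.card_le_card_of_injOn (fun s => s.2.1)
  · rintro ⟨w, w', y⟩ hs
    simp only [coe_filter, Set.mem_setOf_eq, mem_TT] at hs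
    obtain ⟨⟨a, b, c, d⟩, rfl, rfl⟩ := hs
    simp only [coe_filter, Set.mem_setOf_eq]
    exact ⟨b, d⟩
  · rintro ⟨w, w', y⟩ hs ⟨w2, w2', y2⟩ hs2 h
    simp only [coe_filter, Set.mem_setOf_eq] at hs hs2
    obtain ⟨_, rfl, rfl⟩ := hs
    obtain ⟨_, rfl, rfl⟩ := hs2
    simp only at h
    rw [h]

open Classical in
lemma fib2 {v y0 w0 : V} {K : Finset (V × V)} {z : V × V → V} (hg : Good G v K z)
    (h9 : ∀ y w y' w', (y, w) ∈ K → (y', w') ∈ K → s(y, z (y, w)) = s(y', z (y', w')) → y = y' ∧ w = w') :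
    #((TT G v).filter (fun s => s.2.1 = w0 ∧ ((s.2.2 = y0 ∧ (y0, s.1) ∈ K) ∨
    ((s.2.2, s.1) ∈ K ∧ (s.2.2, w0) ∈ K ∧ z (s.2.2, s.1) = y0))))
      ≤ #((G.neighborFinset v).filter (fun x => G.Adj y0 x)) := by
  apply Finset.card_le_card_of_injOn (fun s => if s.2.2 = y0 then z (y0, s.1) else s.2.2)
  · rintro ⟨w, w', y⟩ hs
    simp only [coe_filter, Set.mem_setOf_eq, mem_TT] at hs
    obtain ⟨⟨a, b, c, d⟩, rfl, h⟩ := hs
    simp only [coe_filter, Set.mem_setOf_eq, SimpleGraph.mem_neighborFinset]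
    by_cases hy : y = y0
    · subst hy
      simp only [if_true]
      have hK : (y, w) ∈ K := by
        rcases h with h | h
        · exact h.2
        · exact h.1
      exact ⟨hg.h4 _ _ hK, hg.h5 _ _ hK⟩
    · simp only [hy, if_false]
      rcases h with h | h
      · exact absurd h.1 hy
      · refine ⟨c, ?_⟩
        rw [← h.2.2]
        exact (hg.h5 _ _ h.1).symm
  · rintro ⟨w, w', y⟩ hs ⟨w2, w2', y2⟩ hs2 h
    simp only [coe_filter, Set.mem_setOf_eq] at hs hs2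
    obtain ⟨_, rfl, hh⟩ := hs
    obtain ⟨_, rfl, hh2⟩ := hs2
    have key : ∀ {y w : V}, (y = y0 ∧ (y0, w) ∈ K ∨ (y, w) ∈ K ∧ (y, w2') ∈ K ∧ z (y, w) = y0) → 
        (y = y0 → (y0, w) ∈ K) ∧ (¬ y = y0 → (y, w) ∈ K ∧ z (y, w) = y0) := by
      intro y w hyp
      rcases hyp with ⟨rfl, h1⟩ | ⟨h1, h2, h3⟩
      · exact ⟨fun _ => h1, fun h => absurd rfl h⟩
      · refine ⟨fun h => ?_, fun _ => ⟨h1, h3⟩⟩
        rw [← h]; exact h1
    have k1 := key hh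
    have k2 := key hh2
    simp only at h
    by_cases e1 : y = y0
    · by_cases e2 : y2 = y0
      · rw [if_pos e1, if_pos e2] at h
        have := hg.h8 y0 w w2 (k1.1 e1) (k2.1 e2) h
        rw [this, e1, e2]
      · rw [if_pos e1, if_neg e2] at h
        have q1 := k1.1 e1
        obtain ⟨q2, q3⟩ := k2.2 e2
        have := h9 y0 w y2 w2 q1 q2 (by rw [h, q3]; exact Sym2.eq_swap)
        exact absurd this.1.symm e2
    · by_cases e2 : y2 = y0
      · rw [if_neg e1, if_pos e2] at h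
        have q1 := k2.1 e2
        obtain ⟨q2, q3⟩ := k1.2 e1
        have := h9 y w y0 w2 q2 q1 (by rw [← h, q3]; exact Sym2.eq_swap)
        exact absurd this.1 e1
      · rw [if_neg e1, if_neg e2] at h
        obtain ⟨q2, q3⟩ := k1.2 e1
        obtain ⟨q4, q5⟩ := k2.2 e2
        subst h
        have := hg.h8 y w w2 q2 q4 (by rw [q3, q5])
        rw [this]

open Classical in
lemma fib3 {v y0 w0 : V} :
    #((TT G v).filter (fun s => s.2.1 = w0 ∧ s.2.2 = y0 ∧ G.Adj s.1 y0))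
      ≤ #((Wf G v).filter (fun x => G.Adj y0 x ∧ G.Adj w0 x)) := by
  apply Finset.card_le_card_of_injOn (fun s => s.1)
  · rintro ⟨w, w', y⟩ hs
    simp only [coe_filter, Set.mem_setOf_eq, mem_TT] at hs
    obtain ⟨⟨a, b, c, d⟩, rfl, rfl, h⟩ := hs
    simp only [coe_filter, Set.mem_setOf_eq]
    exact ⟨a, h.symm, d.symm⟩
  · rintro ⟨w, w', y⟩ hs ⟨w2, w2', y2⟩ hs2 h
    simp only [coe_filter, Set.mem_setOf_eq] at hs hs2
    obtain ⟨_, rfl, rfl, _⟩ := hs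
    obtain ⟨_, rfl, rfl, _⟩ := hs2
    simp only at h
    rw [h]

open Classical in
lemma fib4 {v y0 w0 : V} :
    #((TT G v).filter (fun s => s.2.2 = y0 ∧ G.Adj s.1 y0 ∧ G.Adj s.2.1 y0 ∧ C2 G s.1 s.2.1 w0))
      ≤ #((Wf G v).filter (fun x => G.Adj y0 x ∧ ¬ G.Adj w0 x)) := by
  apply Finset.card_le_card_of_injOn (fun s => s.1)
  · rintro ⟨w, w', y⟩ hs
    simp only [coe_filter, Set.mem_setOf_eq, mem_TT] at hs
    obtain ⟨⟨a, b, c, d⟩, rfl, h1, h2, h3⟩ := hs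
    simp only [coe_filter, Set.mem_setOf_eq]
    exact ⟨a, h1.symm, fun h => h3.2.1 h.symm⟩
  · rintro ⟨w, w', y⟩ hs ⟨w2, w2', y2⟩ hs2 h
    simp only [coe_filter, Set.mem_setOf_eq, mem_TT] at hs hs2
    obtain ⟨⟨_, _, _, d1⟩, rfl, _, _, c1⟩ := hs
    obtain ⟨⟨_, _, _, d2⟩, rfl, _, _, c2⟩ := hs2
    simp only at h
    subst h
    have := c1.2.2.2 w2' d2 c2.1
    rw [this]

open Classical in
lemma fib5 {v y0 w0 : V} :
    #((TT G v).filter (fun s => s.2.2 = y0 ∧ G.Adj s.1 y0 ∧ G.Adj s.2.1 y0 ∧ C2 G s.2.1 s.1 w0))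
      ≤ #((Wf G v).filter (fun x => G.Adj y0 x ∧ ¬ G.Adj w0 x)) := by
  apply Finset.card_le_card_of_injOn (fun s => s.2.1)
  · rintro ⟨w, w', y⟩ hs
    simp only [coe_filter, Set.mem_setOf_eq, mem_TT] at hs
    obtain ⟨⟨a, b, c, d⟩, rfl, h1, h2, h3⟩ := hs
    simp only [coe_filter, Set.mem_setOf_eq]
    exact ⟨b, h2.symm, fun h => h3.2.1 h.symm⟩
  · rintro ⟨w, w', y⟩ hs ⟨w2, w2', y2⟩ hs2 h
    simp only [coe_filter, Set.mem_setOf_eq, mem_TT] at hs hs2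
    obtain ⟨⟨_, _, _, d1⟩, rfl, _, _, c1⟩ := hs
    obtain ⟨⟨_, _, _, d2⟩, rfl, _, _, c2⟩ := hs2
    simp only at h
    subst h
    have := c1.2.2.2 w2 d2.symm c2.1
    rw [this]

end Pool.Agent.Helper416.MSU
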