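import Mathlib
import Pool.Agent.Helper416.MSF
set_option autoImplicit false
namespace Pool.Agent.Helper416.MSU
open Finset Pool.Agent.Helper135.MS

variable {V : Type*} [Fintype V] [DecidableEq V] {G : SimpleGraph V} [DecidableRel G.Adj]

open Classical in
lemma fib6a {v y0 w0 : V} :
    #((TT G v).filter (fun s => G.Adj s.1 s.2.2 ∧ s.1 = w0 ∧ C2 G s.1 s.2.1 y0)) ≤ #(Af G v w0) := by
  apply Finset.card_le_card_of_injOn (fun s => s.2.2)
  · rintro ⟨w, w', y⟩ hs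
    simp only [coe_filter, Set.mem_ofPred_eq, mem_TT] at hs
    obtain ⟨⟨a, b, c, d⟩, h1, rfl, h3⟩ := hs
    simp only [Af, coe_filter, Set.mem_ofPred_eq, SimpleGraph.mem_neighborFinset]
    exact ⟨c, h1⟩
  · rintro ⟨w, w', y⟩ hs ⟨w2, w2', y2⟩ hs2 h
    simp only [coe_filter, Set.mem_ofPred_eq, mem_TT] at hs hs2
    obtain ⟨⟨_, _, _, d1⟩, _, rfl, c1⟩ := hs
    obtain ⟨⟨_, _, _, d2⟩, _, rfl, c2⟩ := hs2
    simp only at h
    subst h
    have := c1.2.2.2 w2' d2 c2.1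
    rw [this]

open Classical in
lemma fib6b {v y0 w0 : V} :
    #((TT G v).filter (fun s => G.Adj s.2.1 s.2.2 ∧ s.2.1 = w0 ∧ C2 G s.2.1 s.1 y0)) ≤ #(Af G v w0) := by
  apply Finset.card_le_card_of_injOn (fun s => s.2.2)
  · rintro ⟨w, w', y⟩ hs
    simp only [coe_filter, Set.mem_ofPred_eq, mem_TT] at hs
    obtain ⟨⟨a, b, c, d⟩, h1, rfl, h3⟩ := hs
    simp only [Af, coe_filter, Set.mem_ofPred_eq, SimpleGraph.mem_neighborFinset]
    exact ⟨c, h1⟩
  · rintro ⟨w, w', y⟩ hs ⟨w2, w2', y2⟩ hs2 h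
    simp only [coe_filter, Set.mem_ofPred_eq, mem_TT] at hs hs2
    obtain ⟨⟨_, _, _, d1⟩, _, rfl, c1⟩ := hs
    obtain ⟨⟨_, _, _, d2⟩, _, rfl, c2⟩ := hs2
    simp only at h
    subst h
    have := c1.2.2.2 w2 d2.symm c2.1
    rw [this]

lemma card_filter_or_le {α : Type*} [DecidableEq α] (S : Finset α) (P Q : α → Prop) [DecidablePred P] [DecidablePred Q] :
    #(S.filter (fun s => P s ∨ Q s)) ≤ #(S.filter P) + #(S.filter Q) := by
  rw [filter_or]; exact card_union_le _ _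

lemma split_y (v y0 w0 : V) :
    #((Wf G v).filter (fun x => G.Adj y0 x)) = #((Wf G v).filter (fun x => G.Adj y0 x ∧ G.Adj w0 x))
      + #((Wf G v).filter (fun x => G.Adj y0 x ∧ ¬ G.Adj w0 x)) := by
  rw [← Finset.card_filter_add_card_filter_not (s := (Wf G v).filter (fun x => G.Adj y0 x)) (p := fun x => G.Adj w0 x)]
  rw [filter_filter, filter_filter]

lemma d_add_le (v y0 w0 : V) (hw0 : w0 ∈ Wf G v) (hn : ¬ G.Adj y0 w0) :
    df G v w0 + #((Wf G v).filter (fun x => G.Adj y0 x ∧ ¬ G.Adj w0 x)) + 1 ≤ #(Wf G v) := by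
  unfold df
  rw [← card_union_of_disjoint]
  · have : ((Wf G v).filter (fun x => G.Adj w0 x)) ∪ ((Wf G v).filter (fun x => G.Adj y0 x ∧ ¬ G.Adj w0 x)) ⊆ (Wf G v).erase w0 := by
      intro x hx
      simp only [mem_union, mem_filter] at hx
      rw [mem_erase]
      rcases hx with hx | hx
      · refine ⟨?_, hx.1⟩
        rintro rfl
        exact G.loopless.irrefl _ hx.2
      · refine ⟨?_, hx.1⟩
        rintro rfl
        exact hn hx.2.1
    have h2 := card_le_card this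
    rw [card_erase_of_mem hw0] at h2
    have h3 : 0 < #(Wf G v) := card_pos.2 ⟨w0, hw0⟩
    omega
  · rw [Finset.disjoint_left]
    intro x hx hx'
    simp only [mem_filter] at hx hx'
    exact hx'.2.2 hx.2

open Classical in
lemma load {v : V} {K : Finset (V × V)} {z : V × V → V} (hg : Good G v K z)
    (h9 : ∀ y w y' w', (y, w) ∈ K → (y', w') ∈ K → s(y, z (y, w)) = s(y', z (y', w')) → y = y' ∧ w = w')
    (hmax : ∀ x, G.degree x ≤ G.degree v) (hn : Fintype.card V ≤ 2 * G.degree v)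
    {p : V × V} (hp : p ∈ UU G v K) :
    #((TT G v).filter (fun s => RR G v K z s p)) ≤ 2 * G.degree v := by
  obtain ⟨y0, w0⟩ := p
  rw [mem_UU] at hp
  obtain ⟨hy0, hw0, hnadj, hnK⟩ := hp
  have hdeg := degree_near (G := G) hy0
  have hsplit := split_y (G := G) v y0 w0
  have hd := d_add_le (G := G) v y0 w0 hw0 hnadj
  have hW := card_W (G := G) v
  have hy := hmax y0
  have f1 := fib1 (G := G) (v := v) (y0 := y0) (w0 := w0)
  have f2 := fib2 (y0 := y0) (w0 := w0) hg h9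
  have f3 := fib3 (G := G) (v := v) (y0 := y0) (w0 := w0)
  have f4 := fib4 (G := G) (v := v) (y0 := y0) (w0 := w0)
  have f5 := fib5 (G := G) (v := v) (y0 := y0) (w0 := w0)
  have hsub : #((TT G v).filter (fun s => RR G v K z s (y0, w0))) ≤
      #((TT G v).filter (fun s => s.1 = w0 ∧ s.2.2 = y0)) +
      (#((TT G v).filter (fun s => s.2.1 = w0 ∧ ((s.2.2 = y0 ∧ (y0, s.1) ∈ K) ∨
        ((s.2.2, s.1) ∈ K ∧ (s.2.2, w0) ∈ K ∧ z (s.2.2, s.1) = y0)))) +
      (#((TT G v).filter (fun s => s.2.1 = w0 ∧ s.2.2 = y0 ∧ G.Adj s.1 y0)) +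
      (#((TT G v).filter (fun s => s.2.2 = y0 ∧ G.Adj s.1 y0 ∧ G.Adj s.2.1 y0 ∧ C2 G s.1 s.2.1 w0)) +
      (#((TT G v).filter (fun s => s.2.2 = y0 ∧ G.Adj s.1 y0 ∧ G.Adj s.2.1 y0 ∧ C2 G s.2.1 s.1 w0)) +
       #((TT G v).filter (fun s => G.Adj s.1 s.2.2 ∧ G.Adj s.2.1 s.2.2 ∧
        (∀ t ∈ Wf G v, ¬ C2 G s.1 s.2.1 t ∧ ¬ C2 G s.2.1 s.1 t) ∧
        ((s.1 = w0 ∧ C2 G s.1 s.2.1 y0) ∨ (s.2.1 = w0 ∧ C2 G s.2.1 s.1 y0)))))))) := by
    refine le_trans (card_le_card (t := ((TT G v).filter (fun s => s.1 = w0 ∧ s.2.2 = y0)) ∪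
      (((TT G v).filter (fun s => s.2.1 = w0 ∧ ((s.2.2 = y0 ∧ (y0, s.1) ∈ K) ∨
        ((s.2.2, s.1) ∈ K ∧ (s.2.2, w0) ∈ K ∧ z (s.2.2, s.1) = y0)))) ∪
      (((TT G v).filter (fun s => s.2.1 = w0 ∧ s.2.2 = y0 ∧ G.Adj s.1 y0)) ∪
      (((TT G v).filter (fun s => s.2.2 = y0 ∧ G.Adj s.1 y0 ∧ G.Adj s.2.1 y0 ∧ C2 G s.1 s.2.1 w0)) ∪
      (((TT G v).filter (fun s => s.2.2 = y0 ∧ G.Adj s.1 y0 ∧ G.Adj s.2.1 y0 ∧ C2 G s.2.1 s.1 w0)) ∪
       ((TT G v).filter (fun s => G.Adj s.1 s.2.2 ∧ G.Adj s.2.1 s.2.2 ∧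
        (∀ t ∈ Wf G v, ¬ C2 G s.1 s.2.1 t ∧ ¬ C2 G s.2.1 s.1 t) ∧
        ((s.1 = w0 ∧ C2 G s.1 s.2.1 y0) ∨ (s.2.1 = w0 ∧ C2 G s.2.1 s.1 y0))))))))) ?_) ?_
    · intro s hs
      rw [mem_filter] at hs
      obtain ⟨hs1, hs2⟩ := hs
      simp only [mem_union, mem_filter]
      unfold RR at hs2
      rcases hs2 with h | h | h | h | h | h
      · exact Or.inl ⟨hs1, h⟩
      · exact Or.inr (Or.inl ⟨hs1, h⟩)
      · exact Or.inr (Or.inr (Or.inl ⟨hs1, h⟩))
      · exact Or.inr (Or.inr (Or.inr (Or.inl ⟨hs1, h⟩)))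
      · exact Or.inr (Or.inr (Or.inr (Or.inr (Or.inl ⟨hs1, h⟩))))
      · exact Or.inr (Or.inr (Or.inr (Or.inr (Or.inr ⟨hs1, h⟩))))
    · refine (card_union_le _ _).trans (Nat.add_le_add_left ?_ _)
      refine (card_union_le _ _).trans (Nat.add_le_add_left ?_ _)
      refine (card_union_le _ _).trans (Nat.add_le_add_left ?_ _)
      refine (card_union_le _ _).trans (Nat.add_le_add_left ?_ _)
      exact card_union_le _ _
  by_cases hB : ∃ s ∈ TT G v, G.Adj s.1 s.2.2 ∧ G.Adj s.2.1 s.2.2 ∧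
        (∀ t ∈ Wf G v, ¬ C2 G s.1 s.2.1 t ∧ ¬ C2 G s.2.1 s.1 t) ∧
        ((s.1 = w0 ∧ C2 G s.1 s.2.1 y0) ∨ (s.2.1 = w0 ∧ C2 G s.2.1 s.1 y0))
  · obtain ⟨w1, hw1, hadj1, hC, hno⟩ : ∃ w1 ∈ Wf G v, G.Adj w0 w1 ∧ C2 G w0 w1 y0 ∧ ∀ t ∈ Wf G v, ¬ C2 G w0 w1 t := by
      obtain ⟨⟨w, w', y⟩, hs, h1, h2, h3, h4⟩ := hB
      rw [mem_TT] at hs
      rcases h4 with ⟨h4, h5⟩ | ⟨h4, h5⟩
      · simp only at h4 h5 h3
        subst h4
        exact ⟨w', hs.2.1, hs.2.2.2, h5, fun t ht => (h3 t ht).1⟩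
      · simp only at h4 h5 h3
        subst h4
        exact ⟨w, hs.1, hs.2.2.2.symm, h5, fun t ht => (h3 t ht).2⟩
    have e4 : #((TT G v).filter (fun s => s.2.2 = y0 ∧ G.Adj s.1 y0 ∧ G.Adj s.2.1 y0 ∧ C2 G s.1 s.2.1 w0)) = 0 := by
      rw [card_eq_zero, filter_eq_empty_iff]
      rintro ⟨b, a, y⟩ hs ⟨h1, h2, h3, h4⟩
      simp only at h1 h2 h3 h4
      rw [mem_TT] at hs
      have ha : a = w1 := hC.2.2.2 a h4.1.symm h3
      subst ha
      refine hno b hs.1 ⟨hs.2.2.2.symm, fun h => h4.2.1 h.symm, fun h => h4.2.2.1 h.symm, ?_⟩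
      intro x hx hxb
      exact h4.2.2.2 x hxb.symm hx.symm
    have e5 : #((TT G v).filter (fun s => s.2.2 = y0 ∧ G.Adj s.1 y0 ∧ G.Adj s.2.1 y0 ∧ C2 G s.2.1 s.1 w0)) = 0 := by
      rw [card_eq_zero, filter_eq_empty_iff]
      rintro ⟨a, b, y⟩ hs ⟨h1, h2, h3, h4⟩
      simp only at h1 h2 h3 h4
      rw [mem_TT] at hs
      have ha : a = w1 := hC.2.2.2 a h4.1.symm h2
      subst ha
      refine hno b hs.2.1 ⟨hs.2.2.2, fun h => h4.2.1 h.symm, fun h => h4.2.2.1 h.symm, ?_⟩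
      intro x hx hxb
      exact h4.2.2.2 x hxb.symm hx.symm
    have e3 : #((Wf G v).filter (fun x => G.Adj y0 x ∧ G.Adj w0 x)) ≤ 1 := by
      rw [card_le_one]
      intro a ha b hb
      rw [mem_filter] at ha hb
      rw [hC.2.2.2 a ha.2.2 ha.2.1.symm, hC.2.2.2 b hb.2.2 hb.2.1.symm]
    have e2 : #((G.neighborFinset v).filter (fun x => G.Adj y0 x)) + 1 ≤ #(Hf G v w0) := by
      have hmem : y0 ∈ Hf G v w0 := by
        simp only [Hf, mem_filter, SimpleGraph.mem_neighborFinset]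
        exact ⟨hy0, fun h => hnadj h.symm⟩
      have hs : (G.neighborFinset v).filter (fun x => G.Adj y0 x) ⊆ (Hf G v w0).erase y0 := by
        intro x hx
        simp only [mem_filter, SimpleGraph.mem_neighborFinset] at hx
        simp only [Hf, mem_erase, mem_filter, SimpleGraph.mem_neighborFinset]
        refine ⟨?_, hx.1, ?_⟩
        · rintro rfl
          exact G.loopless.irrefl _ hx.2
        · intro hwx
          have := hC.2.2.2 x hwx hx.2.symm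
          subst this
          exact not_far hw1 hx.1
      have h2 := card_le_card hs
      rw [card_erase_of_mem hmem] at h2
      have h3 : 0 < #(Hf G v w0) := card_pos.2 ⟨y0, hmem⟩
      omega
    have hdh := d_le_h hmax hw0
    have hAH := card_A_add_H (G := G) v w0
    have f6a := fib6a (G := G) (v := v) (y0 := y0) (w0 := w0)
    have f6b := fib6b (G := G) (v := v) (y0 := y0) (w0 := w0)
    have f6 : #((TT G v).filter (fun s => G.Adj s.1 s.2.2 ∧ G.Adj s.2.1 s.2.2 ∧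
        (∀ t ∈ Wf G v, ¬ C2 G s.1 s.2.1 t ∧ ¬ C2 G s.2.1 s.1 t) ∧
        ((s.1 = w0 ∧ C2 G s.1 s.2.1 y0) ∨ (s.2.1 = w0 ∧ C2 G s.2.1 s.1 y0)))) ≤ #(Af G v w0) + #(Af G v w0) := by
      refine le_trans ?_ (Nat.add_le_add f6a f6b)
      refine le_trans (card_le_card ?_) (card_filter_or_le _ _ _)
      intro s hs
      rw [mem_filter] at hs ⊢
      refine ⟨hs.1, ?_⟩
      rcases hs.2.2.2.2 with h | h
      · exact Or.inl ⟨hs.2.1, h⟩
      · exact Or.inr ⟨hs.2.2.1, h⟩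
    omega
  · have e6 : #((TT G v).filter (fun s => G.Adj s.1 s.2.2 ∧ G.Adj s.2.1 s.2.2 ∧
        (∀ t ∈ Wf G v, ¬ C2 G s.1 s.2.1 t ∧ ¬ C2 G s.2.1 s.1 t) ∧
        ((s.1 = w0 ∧ C2 G s.1 s.2.1 y0) ∨ (s.2.1 = w0 ∧ C2 G s.2.1 s.1 y0)))) = 0 := by
      rw [card_eq_zero, filter_eq_empty_iff]
      intro s hs h
      exact hB ⟨s, hs, h⟩
    omega

/-- **Murty-Simon, main inequality**: twice the number of edges inside `W` is at most twice the number of
unused nonadjacent pairs. -/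
theorem sum_d_le_two_U (hc : CritC G) {v : V} {K : Finset (V × V)} {z : V × V → V} (hg : Good G v K z)
    (h9 : ∀ y w y' w', (y, w) ∈ K → (y', w') ∈ K → s(y, z (y, w)) = s(y', z (y', w')) → y = y' ∧ w = w')
    (hmax : ∀ x, G.degree x ≤ G.degree v) (hn : Fintype.card V ≤ 2 * G.degree v) :
    ∑ w ∈ Wf G v, df G v w ≤ 2 * ∑ w ∈ Wf G v, #(Uf G v K w) := by
  classical
  have hmain : #(TT G v) * 1 ≤ #(UU G v K) * (2 * G.degree v) := by
    apply Finset.card_mul_le_card_mul (RR G v K z)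
    · intro s hs
      obtain ⟨p, hp, hr⟩ := exists_target hc hg s hs
      rw [Nat.one_le_iff_ne_zero, ← Nat.pos_iff_ne_zero, card_pos]
      exact ⟨p, by rw [Finset.mem_bipartiteAbove]; exact ⟨hp, hr⟩⟩
    · intro p hp
      exact load hg h9 hmax hn hp
  have hT : #(TT G v) = (∑ w ∈ Wf G v, df G v w) * G.degree v := by
    unfold TT
    rw [Finset.card_filter, Finset.sum_product, Finset.sum_mul]
    apply Finset.sum_congr rfl
    intro w _
    rw [Finset.sum_product]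
    simp only
    unfold df
    rw [Finset.card_filter, Finset.sum_mul]
    apply Finset.sum_congr rfl
    intro w' _
    by_cases h : G.Adj w w' <;> simp [h]
  have hU : #(UU G v K) = ∑ w ∈ Wf G v, #(Uf G v K w) := by
    unfold UU
    rw [Finset.card_filter, Finset.sum_product_right]
    apply Finset.sum_congr rfl
    intro w _
    unfold Uf Hf
    rw [filter_filter, Finset.card_filter]
    apply Finset.sum_congr rfl
    intro y _
    simp only [G.adj_comm]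
  rw [hT, hU, mul_one] at hmain
  have hD : 0 < G.degree v := by
    have := card_W (G := G) v
    omega
  have : (∑ w ∈ Wf G v, df G v w) * G.degree v ≤ (2 * ∑ w ∈ Wf G v, #(Uf G v K w)) * G.degree v := by
    calc _ ≤ _ := hmain
      _ = _ := by ring
  exact Nat.le_of_mul_le_mul_right this hD

end Pool.Agent.Helper416.MSU
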