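import Mathlib
import Pool.Agent.Helper416.MSL
import Pool.Agent.Helper416.MSG
set_option autoImplicit false
namespace Pool.Agent.Helper416.MSU
open Finset Pool.Agent.Helper135.MS

variable {V : Type*} [Fintype V] [DecidableEq V] {G : SimpleGraph V} [DecidableRel G.Adj]

lemma count_ineq {v : V} {K : Finset (V × V)} {z : V × V → V} (hg : Good G v K z)
    (hcount : ∑ y ∈ G.neighborFinset v, #((G.neighborFinset v).filter (fun x => G.Adj y x)) ≤ 2 * #K) :
    2 * #G.edgeFinset + 2 * ∑ w ∈ Wf G v, #(Uf G v K w) ≤ 2 * (G.degree v) + 2 * (#(Wf G v) * G.degree v) + ∑ w ∈ Wf G v, df G v w := by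
  have h1 : ∑ x, G.degree x = 2 * #G.edgeFinset := G.sum_degrees_eq_twice_card_edges
  have h2 := sum_split (G := G) v
  have h3 : ∑ y ∈ G.neighborFinset v, G.degree y = G.degree v + ∑ y ∈ G.neighborFinset v, #((G.neighborFinset v).filter (fun x => G.Adj y x)) + ∑ w ∈ Wf G v, #(Af G v w) := by
    rw [← cross_sum v]
    have : ∀ y ∈ G.neighborFinset v, G.degree y = 1 + #((G.neighborFinset v).filter (fun x => G.Adj y x)) + #((Wf G v).filter (fun x => G.Adj y x)) := by
      intro y hy
      exact degree_near ((SimpleGraph.mem_neighborFinset _ _ _).1 hy)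
    rw [Finset.sum_congr rfl this, Finset.sum_add_distrib, Finset.sum_add_distrib]
    simp
  have h4 : ∑ w ∈ Wf G v, G.degree w = ∑ w ∈ Wf G v, #(Af G v w) + ∑ w ∈ Wf G v, df G v w := by
    rw [← Finset.sum_add_distrib]
    exact Finset.sum_congr rfl (fun w hw => degree_far hw)
  have h5 : ∑ w ∈ Wf G v, #(Af G v w) + ∑ w ∈ Wf G v, #(Hf G v w) = #(Wf G v) * G.degree v := by
    rw [← Finset.sum_add_distrib]
    rw [Finset.sum_congr rfl (fun w _ => card_A_add_H v w)]
    simp
  have h6 : ∑ w ∈ Wf G v, #(Kf G v K w) + ∑ w ∈ Wf G v, #(Uf G v K w) = ∑ w ∈ Wf G v, #(Hf G v w) := by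
    rw [← Finset.sum_add_distrib]
    exact Finset.sum_congr rfl (fun w _ => card_K_add_U hg w)
  have h7 := card_K_eq hg
  omega

/-- **Murty-Simon bound**: `E ≤ Δ (n - Δ)`. -/
theorem edge_bound (hc : CritC G) (v : V) (hmax : ∀ x, G.degree x ≤ G.degree v) :
    #G.edgeFinset ≤ G.degree v * (Fintype.card V - G.degree v) := by
  by_cases hn : Fintype.card V ≤ 2 * G.degree v
  · obtain ⟨K, z, hg, h9, hcount⟩ := exists_good9 hc v
    have h1 := count_ineq hg hcount
    have h2 := sum_d_le_two_U hc hg h9 hmax hn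
    have h3 := card_W (G := G) v
    have h4 : Fintype.card V - G.degree v = 1 + #(Wf G v) := by omega
    rw [h4]
    have h5 : G.degree v * (1 + #(Wf G v)) = G.degree v + #(Wf G v) * G.degree v := by ring
    omega
  · push Not at hn
    have h1 : ∑ x, G.degree x = 2 * #G.edgeFinset := G.sum_degrees_eq_twice_card_edges
    have h2 : ∑ x, G.degree x ≤ Fintype.card V * G.degree v := by
      calc _ ≤ ∑ x : V, G.degree v := Finset.sum_le_sum (fun x _ => hmax x)
        _ = _ := by simp
    obtain ⟨m, hm⟩ : ∃ m, Fintype.card V = 2 * G.degree v + m := ⟨Fintype.card V - 2 * G.degree v, by omega⟩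
    rw [hm] at h2 ⊢
    have h4 : 2 * G.degree v + m - G.degree v = G.degree v + m := by omega
    rw [h4]
    nlinarith


end Pool.Agent.Helper416.MSU
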